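import Mathlib

set_option autoImplicit false

open MeasureTheory ProbabilityTheory Finset

namespace Pool.Agent.Helper55.Chaos

lemma abs_exp_sub_le (y : ℝ) :
    |Real.exp y - (1 + y + y ^ 2 / 2)| ≤ |y| ^ 3 * Real.exp |y| := by
  have h := Complex.norm_exp_sub_sum_le_norm_mul_exp (y : ℂ) 3
  have e : (Complex.exp (y : ℂ) - ∑ m ∈ range 3, (y : ℂ) ^ m / m.factorial) =
      ((Real.exp y - (1 + y + y ^ 2 / 2) : ℝ) : ℂ) := by
    push_cast
    simp [Finset.sum_range_succ, Nat.factorial]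
  rw [e, Complex.norm_real, Complex.norm_real] at h
  simpa using h

/-- Hypotheses for one step of the product. -/
structure StepHyp {Ω : Type*} [MeasurableSpace Ω] (P : Measure Ω) (R : Ω → ℝ)
    (e c t B : ℝ) : Prop where
  meas : Measurable R
  nonneg : ∀ ω, 0 ≤ R ω
  int1 : Integrable (fun ω => R ω ^ (3 + e)) P
  int2 : Integrable (fun ω => Real.exp (c * R ω)) P
  t0 : 0 ≤ t
  le1 : ∫ ω, R ω ^ (3 + e) ∂P ≤ t ^ (3 + e)
  le2 : ∫ ω, Real.exp (c * R ω) ∂P ≤ B

section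
variable {Ω : Type*} [MeasurableSpace Ω] {P : Measure Ω} [IsProbabilityMeasure P]
  {R : Ω → ℝ} {e c t B : ℝ}

lemma StepHyp.B_one (h : StepHyp P R e c t B) (hc : 0 ≤ c) : 1 ≤ B := by
  have h1 : (1 : ℝ) ≤ ∫ ω, Real.exp (c * R ω) ∂P := by
    have : (1 : ℝ) = ∫ _ω, (1 : ℝ) ∂P := by simp
    rw [this]
    apply integral_mono (integrable_const _) h.int2
    intro ω
    simp only
    rw [Real.one_le_exp_iff]
    exact mul_nonneg hc (h.nonneg ω)
  exact h1.trans h.le2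

omit [IsProbabilityMeasure P] in
lemma memLp_of_integrable_rpow {f : Ω → ℝ} (hf : Measurable f) (hf0 : ∀ ω, 0 ≤ f ω) {p : ℝ}
    (hp : 0 < p) (hint : Integrable (fun ω => f ω ^ p) P) : MemLp f (ENNReal.ofReal p) P := by
  rw [← integrable_norm_rpow_iff hf.aestronglyMeasurable (by simpa using hp) (by simp)]
  rw [ENNReal.toReal_ofReal hp.le]
  refine hint.congr (Filter.Eventually.of_forall fun ω => ?_)
  simp only [Real.norm_of_nonneg (hf0 ω)]

/-- Hoelder: `E R² ≤ t²`. -/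
lemma StepHyp.sq_le (h : StepHyp P R e c t B) (he : 0 < e) :
    Integrable (fun ω => R ω ^ 2) P ∧ ∫ ω, R ω ^ 2 ∂P ≤ t ^ 2 := by
  have hp : (1 : ℝ) < (3 + e) / 2 := by linarith
  have hconj := Real.HolderConjugate.conjExponent hp
  have hpow : ∀ ω, (R ω ^ 2) ^ ((3 + e) / 2) = R ω ^ (3 + e) := by
    intro ω
    rw [← Real.rpow_natCast, ← Real.rpow_mul (h.nonneg ω)]
    congr 1
    push_cast
    ring
  have hmem : MemLp (fun ω => R ω ^ 2) (ENNReal.ofReal ((3 + e) / 2)) P := by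
    apply memLp_of_integrable_rpow (h.meas.pow_const 2) (fun ω => sq_nonneg _) (by linarith)
    refine h.int1.congr (Filter.Eventually.of_forall fun ω => ?_)
    simp only [hpow]
  have hmem1 : MemLp (fun _ : Ω => (1 : ℝ)) (ENNReal.ofReal (Real.conjExponent ((3 + e) / 2))) P :=
    memLp_const _
  have key := integral_mul_le_Lp_mul_Lq_of_nonneg (μ := P) hconj
    (Filter.Eventually.of_forall fun ω => sq_nonneg (R ω))
    (Filter.Eventually.of_forall fun ω => zero_le_one) hmem hmem1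
  constructor
  · have : (1 : ENNReal) ≤ ENNReal.ofReal ((3 + e) / 2) := by
      rw [ENNReal.one_le_ofReal]; linarith
    exact hmem.integrable this
  · simp only [mul_one, Real.one_rpow, integral_const, probReal_univ, smul_eq_mul,
      hpow] at key
    refine key.trans ?_
    have h0 : 0 ≤ ∫ ω, R ω ^ (3 + e) ∂P :=
      integral_nonneg fun ω => Real.rpow_nonneg (h.nonneg ω) _
    calc (∫ ω, R ω ^ (3 + e) ∂P) ^ (1 / ((3 + e) / 2))
        ≤ (t ^ (3 + e)) ^ (1 / ((3 + e) / 2)) :=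
          Real.rpow_le_rpow h0 h.le1 (by positivity)
      _ = t ^ 2 := by
          rw [← Real.rpow_mul h.t0, ← Real.rpow_natCast]
          congr 1
          field_simp
          norm_num

/-- Hoelder: `E R³ e^{L R} ≤ B t³`. -/
lemma StepHyp.cube_le (h : StepHyp P R e c t B) (he : 0 < e) {L : ℝ} (hL : 0 ≤ L)
    (hc : c = L * ((3 + e) / e)) :
    Integrable (fun ω => R ω ^ 3 * Real.exp (L * R ω)) P ∧
      ∫ ω, R ω ^ 3 * Real.exp (L * R ω) ∂P ≤ t ^ 3 * B := by
  have hp : (1 : ℝ) < (3 + e) / 3 := by linarith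
  have hconj : ((3 + e) / 3).HolderConjugate ((3 + e) / e) := by
    rw [Real.holderConjugate_iff]
    refine ⟨hp, ?_⟩
    field_simp
  have hpow : ∀ ω, (R ω ^ 3) ^ ((3 + e) / 3) = R ω ^ (3 + e) := by
    intro ω
    rw [← Real.rpow_natCast, ← Real.rpow_mul (h.nonneg ω)]
    congr 1
    push_cast
    ring
  have hpow2 : ∀ ω, (Real.exp (L * R ω)) ^ ((3 + e) / e) = Real.exp (c * R ω) := by
    intro ω
    rw [← Real.exp_mul, hc]
    congr 1
    ring
  have hmem : MemLp (fun ω => R ω ^ 3) (ENNReal.ofReal ((3 + e) / 3)) P := by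
    apply memLp_of_integrable_rpow (h.meas.pow_const 3)
      (fun ω => pow_nonneg (h.nonneg ω) 3) (by linarith)
    refine h.int1.congr (Filter.Eventually.of_forall fun ω => ?_)
    simp only [hpow]
  have hmem1 : MemLp (fun ω => Real.exp (L * R ω)) (ENNReal.ofReal ((3 + e) / e)) P := by
    apply memLp_of_integrable_rpow (Real.measurable_exp.comp (h.meas.const_mul L))
      (fun ω => (Real.exp_pos _).le) (by positivity)
    refine h.int2.congr (Filter.Eventually.of_forall fun ω => ?_)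
    exact (hpow2 ω).symm
  have key := integral_mul_le_Lp_mul_Lq_of_nonneg (μ := P) hconj
    (Filter.Eventually.of_forall fun ω => pow_nonneg (h.nonneg ω) 3)
    (Filter.Eventually.of_forall fun ω => (Real.exp_pos _).le) hmem hmem1
  constructor
  · have hT : ENNReal.HolderTriple (ENNReal.ofReal ((3 + e) / 3)) (ENNReal.ofReal ((3 + e) / e)) 1 :=
      hconj.ennrealOfReal
    have := MemLp.mul' (p := ENNReal.ofReal ((3 + e) / 3)) (q := ENNReal.ofReal ((3 + e) / e))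
      (r := 1) hmem1 hmem
    rw [memLp_one_iff_integrable] at this
    exact this
  · simp only [hpow, hpow2] at key
    refine key.trans ?_
    have hc0 : 0 ≤ c := by rw [hc]; positivity
    have hB := h.B_one hc0
    have h0 : 0 ≤ ∫ ω, R ω ^ (3 + e) ∂P :=
      integral_nonneg fun ω => Real.rpow_nonneg (h.nonneg ω) _
    have h1 : 0 ≤ ∫ ω, Real.exp (c * R ω) ∂P :=
      integral_nonneg fun ω => (Real.exp_pos _).le
    have e1 : (∫ ω, R ω ^ (3 + e) ∂P) ^ (1 / ((3 + e) / 3)) ≤ t ^ 3 := by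
      calc (∫ ω, R ω ^ (3 + e) ∂P) ^ (1 / ((3 + e) / 3))
          ≤ (t ^ (3 + e)) ^ (1 / ((3 + e) / 3)) :=
            Real.rpow_le_rpow h0 h.le1 (by positivity)
        _ = t ^ 3 := by
            rw [← Real.rpow_mul h.t0, ← Real.rpow_natCast]
            congr 1
            field_simp
            norm_num
    have e2 : (∫ ω, Real.exp (c * R ω) ∂P) ^ (1 / ((3 + e) / e)) ≤ B := by
      calc (∫ ω, Real.exp (c * R ω) ∂P) ^ (1 / ((3 + e) / e))
          ≤ B ^ (1 / ((3 + e) / e)) := Real.rpow_le_rpow h1 h.le2 (by positivity)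
        _ ≤ B ^ (1 : ℝ) := by
            apply Real.rpow_le_rpow_of_exponent_le hB
            rw [div_le_one (by positivity), le_div_iff₀ he]
            linarith
        _ = B := Real.rpow_one B
    exact mul_le_mul e1 e2 (Real.rpow_nonneg h1 _) (pow_nonneg h.t0 3)

/-- Upper bound for one factor. -/
lemma StepHyp.upper (h : StepHyp P R e c t B) (he : 0 < e) {L : ℝ} (hL : 0 ≤ L)
    (hc : c = L * ((3 + e) / e)) {Y : Ω → ℝ} (hY : Measurable Y) (hYR : ∀ ω, |Y ω| ≤ L * R ω)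
    (hY0 : ∫ ω, Y ω ∂P = 0) :
    Integrable (fun ω => Real.exp (Y ω)) P ∧ Integrable (fun ω => Y ω ^ 2) P ∧
    (∫ ω, Y ω ^ 2 ∂P) ≤ L ^ 2 * t ^ 2 ∧
    |(∫ ω, Real.exp (Y ω) ∂P) - (1 + (∫ ω, Y ω ^ 2 ∂P) / 2)| ≤ L ^ 3 * B * t ^ 3 := by
  obtain ⟨hi2, hsq⟩ := h.sq_le he
  obtain ⟨hi3, hcu⟩ := h.cube_le he hL hc
  have hc0 : 0 ≤ c := by rw [hc]; positivity
  have hLc : L ≤ c := by
    rw [hc]
    have : 1 ≤ (3 + e) / e := by rw [le_div_iff₀ he]; linarith
    nlinarith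
  have hexp : Integrable (fun ω => Real.exp (Y ω)) P := by
    refine h.int2.mono' (Real.measurable_exp.comp hY).aestronglyMeasurable
      (Filter.Eventually.of_forall fun ω => ?_)
    rw [Real.norm_of_nonneg (Real.exp_pos _).le, Real.exp_le_exp]
    calc Y ω ≤ |Y ω| := le_abs_self _
      _ ≤ L * R ω := hYR ω
      _ ≤ c * R ω := mul_le_mul_of_nonneg_right hLc (h.nonneg ω)
  have hYsq : Integrable (fun ω => Y ω ^ 2) P := by
    refine (hi2.const_mul (L ^ 2)).mono' (hY.pow_const 2).aestronglyMeasurable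
      (Filter.Eventually.of_forall fun ω => ?_)
    rw [Real.norm_of_nonneg (sq_nonneg _), ← mul_pow, ← sq_abs]
    exact pow_le_pow_left₀ (abs_nonneg _) (hYR ω) 2
  have hYi : Integrable Y P := by
    refine ((integrable_const (1 : ℝ)).add hYsq).mono' hY.aestronglyMeasurable
      (Filter.Eventually.of_forall fun ω => ?_)
    simp only [Pi.add_apply, Real.norm_eq_abs]
    nlinarith [sq_nonneg (|Y ω| - 1), sq_abs (Y ω), abs_nonneg (Y ω)]
  refine ⟨hexp, hYsq, ?_, ?_⟩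
  · calc (∫ ω, Y ω ^ 2 ∂P) ≤ ∫ ω, L ^ 2 * R ω ^ 2 ∂P := by
          apply integral_mono hYsq (hi2.const_mul _)
          intro ω
          simp only
          rw [← mul_pow, ← sq_abs]
          exact pow_le_pow_left₀ (abs_nonneg _) (hYR ω) 2
      _ = L ^ 2 * ∫ ω, R ω ^ 2 ∂P := integral_const_mul _ _
      _ ≤ L ^ 2 * t ^ 2 := mul_le_mul_of_nonneg_left hsq (sq_nonneg _)
  · have e1 : (∫ ω, Real.exp (Y ω) ∂P) - (1 + (∫ ω, Y ω ^ 2 ∂P) / 2) =
        ∫ ω, (Real.exp (Y ω) - (1 + Y ω + Y ω ^ 2 / 2)) ∂P := by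
      rw [integral_sub hexp, integral_add, integral_add, hY0, integral_div]
      · simp
      · exact integrable_const _
      · exact hYi
      · exact (integrable_const _).add hYi
      · exact hYsq.div_const _
      · exact ((integrable_const _).add hYi).add (hYsq.div_const _)
    rw [e1]
    calc |∫ ω, (Real.exp (Y ω) - (1 + Y ω + Y ω ^ 2 / 2)) ∂P|
        ≤ ∫ ω, |Real.exp (Y ω) - (1 + Y ω + Y ω ^ 2 / 2)| ∂P := abs_integral_le_integral_abs
      _ ≤ ∫ ω, L ^ 3 * (R ω ^ 3 * Real.exp (L * R ω)) ∂P := by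
          apply integral_mono_of_nonneg (Filter.Eventually.of_forall fun ω => abs_nonneg _)
            (hi3.const_mul _) (Filter.Eventually.of_forall fun ω => ?_)
          simp only
          refine (abs_exp_sub_le _).trans ?_
          rw [← mul_assoc, ← mul_pow]
          exact mul_le_mul (pow_le_pow_left₀ (abs_nonneg _) (hYR ω) 3)
            (Real.exp_le_exp.2 (hYR ω)) (Real.exp_pos _).le
            (pow_nonneg (mul_nonneg hL (h.nonneg ω)) 3)
      _ = L ^ 3 * ∫ ω, R ω ^ 3 * Real.exp (L * R ω) ∂P := integral_const_mul _ _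
      _ ≤ L ^ 3 * (t ^ 3 * B) := mul_le_mul_of_nonneg_left hcu (pow_nonneg hL 3)
      _ = L ^ 3 * B * t ^ 3 := by ring

/-- Elementary inequality used for lower bounds. -/
lemma exp_le_one_add {w : ℝ} (hw : -(1 / 2) ≤ w) : Real.exp (w - 2 * w ^ 2) ≤ 1 + w := by
  have h1 : 0 < 1 + w := by linarith
  have h2 := Real.one_sub_inv_le_log_of_pos h1
  rw [← Real.le_log_iff_exp_le h1]
  refine le_trans ?_ h2
  have h3 : 1 - (1 + w)⁻¹ = w / (1 + w) := by field_simp; ring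
  rw [h3, le_div_iff₀ h1]
  nlinarith [sq_nonneg w]

/-- Two-sided bounds for one factor. -/
lemma StepHyp.bounds (h : StepHyp P R e c t B) (he : 0 < e) {L : ℝ} (hL : 0 ≤ L)
    (hc : c = L * ((3 + e) / e)) {Y : Ω → ℝ} (hY : Measurable Y) (hYR : ∀ ω, |Y ω| ≤ L * R ω)
    (hY0 : ∫ ω, Y ω ∂P = 0) {t1 : ℝ} (ht : t ≤ t1) :
    (∫ ω, Real.exp (Y ω) ∂P) ≤ Real.exp ((∫ ω, Y ω ^ 2 ∂P) / 2 + L ^ 3 * B * t ^ 3) ∧
    Real.exp ((∫ ω, Y ω ^ 2 ∂P) / 2 -
      ((2 + L ^ 2 * t1 ^ 2) * (L ^ 3 * B) + L ^ 4 * t1) * t ^ 3) ≤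
      ∫ ω, Real.exp (Y ω) ∂P := by
  obtain ⟨hexp, hYsq, hsq, habs⟩ := h.upper he hL hc hY hYR hY0
  have hc0 : 0 ≤ c := by rw [hc]; positivity
  have hB := h.B_one hc0
  have ht0 := h.t0
  have ht1 : 0 ≤ t1 := ht0.trans ht
  set z := (∫ ω, Y ω ^ 2 ∂P) / 2 with hz
  set a := L ^ 3 * B * t ^ 3 with ha
  have hz0 : 0 ≤ z := by
    rw [hz]
    have : 0 ≤ ∫ ω, Y ω ^ 2 ∂P := integral_nonneg fun ω => sq_nonneg _
    linarith
  have ha0 : 0 ≤ a := by rw [ha]; positivity
  have hz1 : z ≤ L ^ 2 * t ^ 2 / 2 := by rw [hz]; linarith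
  rw [abs_le] at habs
  constructor
  · calc (∫ ω, Real.exp (Y ω) ∂P) ≤ (z + a) + 1 := by linarith [habs.2]
      _ ≤ Real.exp (z + a) := Real.add_one_le_exp _
  · have hone : 1 ≤ ∫ ω, Real.exp (Y ω) ∂P := by
      have hYi : Integrable Y P := by
        refine ((integrable_const (1 : ℝ)).add hYsq).mono' hY.aestronglyMeasurable
          (Filter.Eventually.of_forall fun ω => ?_)
        simp only [Pi.add_apply, Real.norm_eq_abs]
        nlinarith [sq_nonneg (|Y ω| - 1), sq_abs (Y ω), abs_nonneg (Y ω)]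
      have : ∫ ω, (Y ω + 1) ∂P ≤ ∫ ω, Real.exp (Y ω) ∂P :=
        integral_mono (hYi.add (integrable_const _)) hexp fun ω => Real.add_one_le_exp _
      rw [integral_add hYi (integrable_const _), hY0] at this
      simpa using this
    by_cases hcase : a ≤ 1 / 2
    · have h1 : Real.exp ((z - a) - 2 * (z - a) ^ 2) ≤ 1 + (z - a) :=
        exp_le_one_add (by linarith)
      have h2 : z - ((2 + L ^ 2 * t1 ^ 2) * (L ^ 3 * B) + L ^ 4 * t1) * t ^ 3 ≤
          (z - a) - 2 * (z - a) ^ 2 := by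
        have h3 : (z - a) ^ 2 ≤ z ^ 2 + a ^ 2 := by nlinarith
        have h4 : a ^ 2 ≤ a / 2 := by nlinarith
        have h5 : z ^ 2 ≤ L ^ 4 * t1 * t ^ 3 / 4 := by
          calc z ^ 2 ≤ (L ^ 2 * t ^ 2 / 2) ^ 2 := pow_le_pow_left₀ hz0 hz1 2
            _ = L ^ 4 * t ^ 3 * t / 4 := by ring
            _ ≤ L ^ 4 * t ^ 3 * t1 / 4 := by gcongr
            _ = L ^ 4 * t1 * t ^ 3 / 4 := by ring
        have h6 : 0 ≤ L ^ 4 * t1 * t ^ 3 := by positivity
        have h7 : 0 ≤ L ^ 2 * t1 ^ 2 * a := by positivity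
        have h8 : ((2 + L ^ 2 * t1 ^ 2) * (L ^ 3 * B) + L ^ 4 * t1) * t ^ 3 =
            2 * a + L ^ 2 * t1 ^ 2 * a + L ^ 4 * t1 * t ^ 3 := by rw [ha]; ring
        rw [h8]
        linarith
      calc Real.exp (z - ((2 + L ^ 2 * t1 ^ 2) * (L ^ 3 * B) + L ^ 4 * t1) * t ^ 3)
          ≤ Real.exp ((z - a) - 2 * (z - a) ^ 2) := Real.exp_le_exp.2 h2
        _ ≤ 1 + (z - a) := h1
        _ ≤ _ := by linarith [habs.1]
    · push Not at hcase
      refine le_trans ?_ hone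
      rw [Real.exp_le_one_iff]
      have h6 : 0 ≤ L ^ 4 * t1 * t ^ 3 := by positivity
      have h8 : ((2 + L ^ 2 * t1 ^ 2) * (L ^ 3 * B) + L ^ 4 * t1) * t ^ 3 =
          2 * a + L ^ 2 * t1 ^ 2 * a + L ^ 4 * t1 * t ^ 3 := by rw [ha]; ring
      have h9 : z ≤ L ^ 2 * t1 ^ 2 / 2 := by
        refine hz1.trans ?_
        have : t ^ 2 ≤ t1 ^ 2 := pow_le_pow_left₀ ht0 ht 2
        have := mul_le_mul_of_nonneg_left this (sq_nonneg L)
        linarith
      have h10 : L ^ 2 * t1 ^ 2 * (1 / 2) ≤ L ^ 2 * t1 ^ 2 * a :=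
        mul_le_mul_of_nonneg_left hcase.le (by positivity)
      rw [h8]
      linarith

end

end Pool.Agent.Helper55.Chaos
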