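import Mathlib
import Pool.Agent.Helper55.Chaos.OneStep

set_option autoImplicit false
set_option linter.unusedSectionVars false
set_option linter.unusedVariables false

open MeasureTheory ProbabilityTheory Finset

namespace Pool.Agent.Helper55.Chaos

/-- Independent centred continuous fields with uniform exponential moments and the summability
condition (b). -/
structure FieldHyp {Ω T : Type*} [MeasurableSpace Ω] (P : Measure Ω) [TopologicalSpace T]
    (X : ℕ → Ω → T → ℝ) : Prop where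
  meas : ∀ k x, Measurable fun ω => X k ω x
  cont : ∀ k ω, Continuous (X k ω)
  indep : iIndepFun X P
  cent : ∀ k x, ∫ ω, X k ω x ∂P = 0
  expm : ∀ s : ℝ, ∃ B : ℝ, ∀ k x, Integrable (fun ω => Real.exp (s * X k ω x)) P ∧
    ∫ ω, Real.exp (s * X k ω x) ∂P ≤ B
  mom3 : ∃ e : ℝ, 0 < e ∧ ∃ B : ℝ, ∀ x n,
    ∑ k ∈ range n, (∫ ω, |X k ω x| ^ (3 + e) ∂P) ^ (3 / (3 + e)) ≤ B

section
variable {Ω T : Type*} [MeasurableSpace Ω] {P : Measure Ω} [IsProbabilityMeasure P]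
  [TopologicalSpace T] {X : ℕ → Ω → T → ℝ}

lemma FieldHyp.absexp (h : FieldHyp P X) (s : ℝ) (hs : 0 ≤ s) :
    ∃ B : ℝ, 0 ≤ B ∧ ∀ k x, Integrable (fun ω => Real.exp (s * |X k ω x|)) P ∧
      ∫ ω, Real.exp (s * |X k ω x|) ∂P ≤ B := by
  obtain ⟨B1, hB1⟩ := h.expm s
  obtain ⟨B2, hB2⟩ := h.expm (-s)
  refine ⟨max (B1 + B2) 0, le_max_right _ _, fun k x => ?_⟩
  have hle : ∀ ω, Real.exp (s * |X k ω x|) ≤ Real.exp (s * X k ω x) + Real.exp (-s * X k ω x) := by
    intro ω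
    rcases abs_choice (X k ω x) with h | h
    · rw [h]; linarith [Real.exp_pos (-s * X k ω x)]
    · rw [h]
      have : s * -X k ω x = -s * X k ω x := by ring
      rw [this]; linarith [Real.exp_pos (s * X k ω x)]
  have hint : Integrable (fun ω => Real.exp (s * X k ω x) + Real.exp (-s * X k ω x)) P :=
    (hB1 k x).1.add (hB2 k x).1
  have hi : Integrable (fun ω => Real.exp (s * |X k ω x|)) P := by
    refine hint.mono' ?_ (Filter.Eventually.of_forall fun ω => ?_)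
    · have := h.meas k x
      exact (by fun_prop : Measurable fun ω => Real.exp (s * |X k ω x|)).aestronglyMeasurable
    · rw [Real.norm_of_nonneg (Real.exp_pos _).le]; exact hle ω
  refine ⟨hi, ?_⟩
  calc ∫ ω, Real.exp (s * |X k ω x|) ∂P
      ≤ ∫ ω, (Real.exp (s * X k ω x) + Real.exp (-s * X k ω x)) ∂P := integral_mono hi hint hle
    _ = ∫ ω, Real.exp (s * X k ω x) ∂P + ∫ ω, Real.exp (-s * X k ω x) ∂P :=
        integral_add (hB1 k x).1 (hB2 k x).1
    _ ≤ B1 + B2 := add_le_add (hB1 k x).2 (hB2 k x).2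
    _ ≤ _ := le_max_left _ _

lemma FieldHyp.int_rpow (h : FieldHyp P X) (k : ℕ) (x : T) {p : ℝ} (hp : 0 ≤ p) :
    Integrable (fun ω => |X k ω x| ^ p) P := by
  obtain ⟨B1, hB1⟩ := h.expm 1
  obtain ⟨B2, hB2⟩ := h.expm (-1)
  exact integrable_rpow_abs_of_integrable_exp_mul (t := 1) one_ne_zero (hB1 k x).1 (hB2 k x).1 hp

lemma FieldHyp.int_sq (h : FieldHyp P X) (k : ℕ) (x : T) :
    Integrable (fun ω => X k ω x ^ 2) P := by
  have := h.int_rpow k x (p := 2) (by norm_num)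
  refine this.congr (Filter.Eventually.of_forall fun ω => ?_)
  simp only
  rw [show (2 : ℝ) = ((2 : ℕ) : ℝ) by norm_num, Real.rpow_natCast, sq_abs]

lemma FieldHyp.memLp2 (h : FieldHyp P X) (k : ℕ) (x : T) :
    MemLp (fun ω => X k ω x) 2 P :=
  (memLp_two_iff_integrable_sq (h.meas k x).aestronglyMeasurable).2 (h.int_sq k x)

lemma FieldHyp.int_mul (h : FieldHyp P X) (k : ℕ) (x y : T) :
    Integrable (fun ω => X k ω x * X k ω y) P :=
  (h.memLp2 k x).integrable_mul (h.memLp2 k y)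

/-- The sum of absolute values at finitely many points. -/
def Rk {ι : Type} [Fintype ι] (X : ℕ → Ω → T → ℝ) (pt : ι → T) (k : ℕ) (ω : Ω) : ℝ :=
  ∑ i, |X k ω (pt i)|

lemma Rk_nonneg {ι : Type} [Fintype ι] (pt : ι → T) (k : ℕ) (ω : Ω) : 0 ≤ Rk X pt k ω :=
  Finset.sum_nonneg fun i _ => abs_nonneg _

lemma FieldHyp.Rk_meas (h : FieldHyp P X) {ι : Type} [Fintype ι] (pt : ι → T) (k : ℕ) :
    Measurable (Rk X pt k) := by
  unfold Rk
  exact Finset.measurable_sum _ fun i _ => measurable_abs.comp (h.meas k (pt i))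

lemma sum_rpow_le {ι : Type} (s : Finset ι) (a : ι → ℝ) (ha : ∀ i, 0 ≤ a i) {p : ℝ}
    (hp : 0 < p) (hp1 : p ≤ 1) : (∑ i ∈ s, a i) ^ p ≤ ∑ i ∈ s, a i ^ p := by
  classical
  induction s using Finset.induction_on with
  | empty => simp [Real.zero_rpow hp.ne']
  | @insert i s hi ih =>
    rw [Finset.sum_insert hi, Finset.sum_insert hi]
    refine (Real.rpow_add_le_add_rpow (ha i) (Finset.sum_nonneg fun j _ => ha j) hp.le hp1).trans ?_
    linarith

/-- The linear combinations at step `k`. -/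
def Yk {ι : Type} [Fintype ι] (X : ℕ → Ω → T → ℝ) (pt : ι → T) (lam : ι → ℕ → ℝ) (k : ℕ)
    (ω : Ω) : ℝ := ∑ i, lam i k * X k ω (pt i)

lemma FieldHyp.Yk_meas (h : FieldHyp P X) {ι : Type} [Fintype ι] (pt : ι → T) (lam : ι → ℕ → ℝ)
    (k : ℕ) : Measurable (Yk X pt lam k) := by
  unfold Yk
  exact Finset.measurable_sum _ fun i _ => (h.meas k (pt i)).const_mul _

lemma FieldHyp.Yk_int (h : FieldHyp P X) {ι : Type} [Fintype ι] (pt : ι → T) (lam : ι → ℕ → ℝ)
    (k : ℕ) : ∫ ω, Yk X pt lam k ω ∂P = 0 := by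
  unfold Yk
  rw [integral_finsetSum]
  · simp [integral_const_mul, h.cent]
  · intro i _
    exact ((h.memLp2 k (pt i)).integrable (by norm_num)).const_mul _

lemma Yk_abs_le {ι : Type} [Fintype ι] (pt : ι → T) (lam : ι → ℕ → ℝ) {L : ℝ}
    (hlam : ∀ i k, |lam i k| ≤ L) (k : ℕ) (ω : Ω) : |Yk X pt lam k ω| ≤ L * Rk X pt k ω := by
  unfold Yk Rk
  rw [Finset.mul_sum]
  refine (Finset.abs_sum_le_sum_abs _ _).trans (Finset.sum_le_sum fun i _ => ?_)
  rw [abs_mul]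
  exact mul_le_mul_of_nonneg_right (hlam i k) (abs_nonneg _)

lemma FieldHyp.Yk_indep (h : FieldHyp P X) {ι : Type} [Fintype ι] (pt : ι → T)
    (lam : ι → ℕ → ℝ) : iIndepFun (fun k => Yk X pt lam k) P := by
  have := h.indep.comp (fun k => fun f : T → ℝ => ∑ i, lam i k * f (pt i)) (by
    intro k
    exact Finset.measurable_sum _ fun i _ => (measurable_pi_apply (pt i)).const_mul _)
  exact this

/-- Rpow bound for the integral of `Rk ^ (3+e)`. -/
lemma FieldHyp.Rk_int (h : FieldHyp P X) {ι : Type} [Fintype ι] (pt : ι → T) (k : ℕ) {e : ℝ}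
    (he : 0 < e) :
    Integrable (fun ω => Rk X pt k ω ^ (3 + e)) P ∧
    ∫ ω, Rk X pt k ω ^ (3 + e) ∂P ≤
      (Fintype.card ι : ℝ) ^ (2 + e) * ∑ i, ∫ ω, |X k ω (pt i)| ^ (3 + e) ∂P := by
  have hle : ∀ ω, Rk X pt k ω ^ (3 + e) ≤
      (Fintype.card ι : ℝ) ^ (2 + e) * ∑ i, |X k ω (pt i)| ^ (3 + e) := by
    intro ω
    have := Real.rpow_sum_le_const_mul_sum_rpow_of_nonneg (s := (Finset.univ : Finset ι))
      (f := fun i => |X k ω (pt i)|) (p := 3 + e) (by linarith) (fun i _ => abs_nonneg _)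
    rw [show 3 + e - 1 = 2 + e by ring] at this
    simpa [Rk] using this
  have hint : Integrable (fun ω => (Fintype.card ι : ℝ) ^ (2 + e) *
      ∑ i, |X k ω (pt i)| ^ (3 + e)) P := by
    apply Integrable.const_mul
    exact integrable_finsetSum _ fun i _ => h.int_rpow k (pt i) (by linarith)
  have hm : Measurable (fun ω => Rk X pt k ω ^ (3 + e)) := (h.Rk_meas pt k).pow_const _
  have hi : Integrable (fun ω => Rk X pt k ω ^ (3 + e)) P := by
    refine hint.mono' hm.aestronglyMeasurable (Filter.Eventually.of_forall fun ω => ?_)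
    rw [Real.norm_of_nonneg (Real.rpow_nonneg (Rk_nonneg pt k ω) _)]
    exact hle ω
  refine ⟨hi, ?_⟩
  calc ∫ ω, Rk X pt k ω ^ (3 + e) ∂P
      ≤ ∫ ω, (Fintype.card ι : ℝ) ^ (2 + e) * ∑ i, |X k ω (pt i)| ^ (3 + e) ∂P :=
        integral_mono hi hint hle
    _ = _ := by
        rw [integral_const_mul, integral_finsetSum]
        exact fun i _ => h.int_rpow k (pt i) (by linarith)

lemma FieldHyp.Rk_exp (h : FieldHyp P X) {ι : Type} [Fintype ι] (pt : ι → T) (k : ℕ) {c B : ℝ}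
    (hc : 0 ≤ c) (hB : ∀ k x, Integrable (fun ω => Real.exp (c * Fintype.card ι * |X k ω x|)) P ∧
      ∫ ω, Real.exp (c * Fintype.card ι * |X k ω x|) ∂P ≤ B) :
    Integrable (fun ω => Real.exp (c * Rk X pt k ω)) P ∧
      ∫ ω, Real.exp (c * Rk X pt k ω) ∂P ≤ 1 + Fintype.card ι * B := by
  classical
  have hle : ∀ ω, Real.exp (c * Rk X pt k ω) ≤
      1 + ∑ i, Real.exp (c * Fintype.card ι * |X k ω (pt i)|) := by
    intro ω
    rcases isEmpty_or_nonempty ι with hι | hι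
    · simp [Rk]
    · obtain ⟨i0, -, hi0⟩ := Finset.exists_max_image (Finset.univ : Finset ι)
        (fun i => |X k ω (pt i)|) Finset.univ_nonempty
      have h1 : Rk X pt k ω ≤ Fintype.card ι * |X k ω (pt i0)| := by
        have := Finset.sum_le_card_nsmul (Finset.univ : Finset ι)
          (fun i => |X k ω (pt i)|) _ hi0
        simpa [Rk, nsmul_eq_mul] using this
      have h2 : Real.exp (c * Rk X pt k ω) ≤
          Real.exp (c * Fintype.card ι * |X k ω (pt i0)|) := by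
        rw [Real.exp_le_exp, mul_assoc]
        exact mul_le_mul_of_nonneg_left h1 hc
      have h3 : Real.exp (c * Fintype.card ι * |X k ω (pt i0)|) ≤
          ∑ i, Real.exp (c * Fintype.card ι * |X k ω (pt i)|) :=
        Finset.single_le_sum (f := fun i => Real.exp (c * Fintype.card ι * |X k ω (pt i)|))
          (fun i _ => (Real.exp_pos _).le) (Finset.mem_univ i0)
      linarith
  have hint : Integrable (fun ω => 1 + ∑ i, Real.exp (c * Fintype.card ι * |X k ω (pt i)|)) P :=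
    (integrable_const _).add (integrable_finsetSum _ fun i _ => (hB k (pt i)).1)
  have hm : Measurable (fun ω => Real.exp (c * Rk X pt k ω)) :=
    Real.measurable_exp.comp ((h.Rk_meas pt k).const_mul c)
  have hi : Integrable (fun ω => Real.exp (c * Rk X pt k ω)) P := by
    refine hint.mono' hm.aestronglyMeasurable (Filter.Eventually.of_forall fun ω => ?_)
    rw [Real.norm_of_nonneg (Real.exp_pos _).le]
    exact hle ω
  refine ⟨hi, ?_⟩
  calc ∫ ω, Real.exp (c * Rk X pt k ω) ∂P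
      ≤ ∫ ω, (1 + ∑ i, Real.exp (c * Fintype.card ι * |X k ω (pt i)|)) ∂P :=
        integral_mono hi hint hle
    _ = 1 + ∑ i, ∫ ω, Real.exp (c * Fintype.card ι * |X k ω (pt i)|) ∂P := by
        rw [integral_add (integrable_const _)
          (integrable_finsetSum _ fun i _ => (hB k (pt i)).1), integral_finsetSum]
        · simp
        · exact fun i _ => (hB k (pt i)).1
    _ ≤ 1 + ∑ _i : ι, B := by
        gcongr with i
        exact (hB k (pt i)).2
    _ = 1 + Fintype.card ι * B := by simp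

/-- **Multi-point exponential moments** are comparable to the Gaussian ones. -/
theorem FieldHyp.exp_est (h : FieldHyp P X) (ι : Type) [Fintype ι] (L : ℝ) (hL : 0 ≤ L) :
    ∃ C : ℝ, 0 ≤ C ∧ ∀ (pt : ι → T) (lam : ι → ℕ → ℝ), (∀ i k, |lam i k| ≤ L) → ∀ n : ℕ,
      Integrable (fun ω => Real.exp (∑ k ∈ range n, Yk X pt lam k ω)) P ∧
      ∫ ω, Real.exp (∑ k ∈ range n, Yk X pt lam k ω) ∂P ≤
        Real.exp ((∑ k ∈ range n, ∫ ω, Yk X pt lam k ω ^ 2 ∂P) / 2 + C) ∧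
      Real.exp ((∑ k ∈ range n, ∫ ω, Yk X pt lam k ω ^ 2 ∂P) / 2 - C) ≤
        ∫ ω, Real.exp (∑ k ∈ range n, Yk X pt lam k ω) ∂P := by
  obtain ⟨e, he, B3, hB3⟩ := h.mom3
  set c : ℝ := L * ((3 + e) / e) with hc
  have hc0 : 0 ≤ c := by rw [hc]; positivity
  obtain ⟨B0, hB0, hB0'⟩ := h.absexp (c * Fintype.card ι) (by positivity)
  set B : ℝ := 1 + Fintype.card ι * B0 with hB
  have hBpos : 0 ≤ B := by positivity
  set s : ℝ := 3 / (3 + e) with hs
  have hs0 : 0 < s := by positivity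
  have hs1 : s ≤ 1 := by rw [hs, div_le_one (by positivity)]; linarith
  set T3 : ℝ := max (((Fintype.card ι : ℝ) ^ (2 + e)) ^ s * (Fintype.card ι * B3)) 0 with hT3
  have hT30 : 0 ≤ T3 := le_max_right _ _
  have hstep : ∀ (pt : ι → T) (k : ℕ), StepHyp P (Rk X pt k) e c
      ((∫ ω, Rk X pt k ω ^ (3 + e) ∂P) ^ (1 / (3 + e))) B := by
    intro pt k
    have h0 : 0 ≤ ∫ ω, Rk X pt k ω ^ (3 + e) ∂P :=
      integral_nonneg fun ω => Real.rpow_nonneg (Rk_nonneg pt k ω) _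
    refine ⟨h.Rk_meas pt k, Rk_nonneg pt k, (h.Rk_int pt k he).1, (h.Rk_exp pt k hc0 hB0').1,
      Real.rpow_nonneg h0 _, ?_, (h.Rk_exp pt k hc0 hB0').2⟩
    rw [← Real.rpow_mul h0]
    have : 1 / (3 + e) * (3 + e) = 1 := by field_simp
    rw [this, Real.rpow_one]
  have hcube : ∀ (pt : ι → T) (n : ℕ),
      ∑ k ∈ range n, ((∫ ω, Rk X pt k ω ^ (3 + e) ∂P) ^ (1 / (3 + e))) ^ 3 ≤ T3 := by
    intro pt n
    have hk : ∀ k, ((∫ ω, Rk X pt k ω ^ (3 + e) ∂P) ^ (1 / (3 + e))) ^ 3 ≤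
        ((Fintype.card ι : ℝ) ^ (2 + e)) ^ s *
          ∑ i, (∫ ω, |X k ω (pt i)| ^ (3 + e) ∂P) ^ s := by
      intro k
      have h0 : 0 ≤ ∫ ω, Rk X pt k ω ^ (3 + e) ∂P :=
        integral_nonneg fun ω => Real.rpow_nonneg (Rk_nonneg pt k ω) _
      have h1 : ((∫ ω, Rk X pt k ω ^ (3 + e) ∂P) ^ (1 / (3 + e))) ^ 3 =
          (∫ ω, Rk X pt k ω ^ (3 + e) ∂P) ^ s := by
        rw [← Real.rpow_natCast, ← Real.rpow_mul h0]
        congr 1
        rw [hs]; push_cast; ring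
      rw [h1]
      have ha : ∀ i, 0 ≤ ∫ ω, |X k ω (pt i)| ^ (3 + e) ∂P := fun i =>
        integral_nonneg fun ω => Real.rpow_nonneg (abs_nonneg _) _
      calc (∫ ω, Rk X pt k ω ^ (3 + e) ∂P) ^ s
          ≤ ((Fintype.card ι : ℝ) ^ (2 + e) * ∑ i, ∫ ω, |X k ω (pt i)| ^ (3 + e) ∂P) ^ s :=
            Real.rpow_le_rpow h0 (h.Rk_int pt k he).2 hs0.le
        _ = ((Fintype.card ι : ℝ) ^ (2 + e)) ^ s *
            (∑ i, ∫ ω, |X k ω (pt i)| ^ (3 + e) ∂P) ^ s :=
            Real.mul_rpow (by positivity) (Finset.sum_nonneg fun i _ => ha i)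
        _ ≤ _ := mul_le_mul_of_nonneg_left (sum_rpow_le _ _ ha hs0 hs1) (by positivity)
    calc ∑ k ∈ range n, ((∫ ω, Rk X pt k ω ^ (3 + e) ∂P) ^ (1 / (3 + e))) ^ 3
        ≤ ∑ k ∈ range n, ((Fintype.card ι : ℝ) ^ (2 + e)) ^ s *
          ∑ i, (∫ ω, |X k ω (pt i)| ^ (3 + e) ∂P) ^ s := Finset.sum_le_sum fun k _ => hk k
      _ = ((Fintype.card ι : ℝ) ^ (2 + e)) ^ s *
          ∑ i, ∑ k ∈ range n, (∫ ω, |X k ω (pt i)| ^ (3 + e) ∂P) ^ s := by
          rw [← Finset.mul_sum, Finset.sum_comm]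
      _ ≤ ((Fintype.card ι : ℝ) ^ (2 + e)) ^ s * ∑ _i : ι, B3 := by
          apply mul_le_mul_of_nonneg_left _ (by positivity)
          exact Finset.sum_le_sum fun i _ => hB3 (pt i) n
      _ = ((Fintype.card ι : ℝ) ^ (2 + e)) ^ s * (Fintype.card ι * B3) := by simp
      _ ≤ T3 := le_max_left _ _
  set t1 : ℝ := 1 + T3 with ht1
  have hkt : ∀ (pt : ι → T) (k : ℕ), (∫ ω, Rk X pt k ω ^ (3 + e) ∂P) ^ (1 / (3 + e)) ≤ t1 := by
    intro pt k
    set t := (∫ ω, Rk X pt k ω ^ (3 + e) ∂P) ^ (1 / (3 + e)) with ht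
    have ht0 : 0 ≤ t := (hstep pt k).t0
    have h1 : t ^ 3 ≤ T3 := by
      refine le_trans ?_ (hcube pt (k + 1))
      exact Finset.single_le_sum
        (f := fun k => ((∫ ω, Rk X pt k ω ^ (3 + e) ∂P) ^ (1 / (3 + e))) ^ 3)
        (fun j _ => pow_nonneg (hstep pt j).t0 3) (Finset.mem_range.2 (Nat.lt_succ_self k))
    by_cases h2 : t ≤ 1
    · linarith
    · push Not at h2
      have : t ≤ t ^ 3 := by nlinarith [sq_nonneg t, mul_pos (by linarith : 0 < t) (by linarith : 0 < t - 1)]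
      linarith
  set C2 : ℝ := (2 + L ^ 2 * t1 ^ 2) * (L ^ 3 * B) + L ^ 4 * t1 with hC2
  have ht10 : 0 ≤ t1 := by positivity
  have hC20 : 0 ≤ C2 := by positivity
  refine ⟨(L ^ 3 * B + C2) * T3, by positivity, fun pt lam hlam n => ?_⟩
  have hb := fun k => (hstep pt k).bounds he hL hc (h.Yk_meas pt lam k)
    (Yk_abs_le pt lam hlam k) (h.Yk_int pt lam k) (hkt pt k)
  have hei : ∀ k, Integrable (fun ω => Real.exp (Yk X pt lam k ω)) P := fun k =>
    ((hstep pt k).upper he hL hc (h.Yk_meas pt lam k)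
    (Yk_abs_le pt lam hlam k) (h.Yk_int pt lam k)).1
  have hprod : ∫ ω, Real.exp (∑ k ∈ range n, Yk X pt lam k ω) ∂P =
      ∏ k ∈ range n, ∫ ω, Real.exp (Yk X pt lam k ω) ∂P := by
    have := (h.Yk_indep pt lam).mgf_sum (t := 1) (h.Yk_meas pt lam) (range n)
    simpa [mgf, Finset.sum_apply] using this
  refine ⟨?_, ?_, ?_⟩
  · have := (h.Yk_indep pt lam).integrable_exp_mul_sum (t := 1) (h.Yk_meas pt lam)
      (s := range n) (fun k _ => by simpa using hei k)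
    simpa [Finset.sum_apply] using this
  · rw [hprod]
    calc ∏ k ∈ range n, ∫ ω, Real.exp (Yk X pt lam k ω) ∂P
        ≤ ∏ k ∈ range n, Real.exp ((∫ ω, Yk X pt lam k ω ^ 2 ∂P) / 2 + L ^ 3 * B *
          ((∫ ω, Rk X pt k ω ^ (3 + e) ∂P) ^ (1 / (3 + e))) ^ 3) :=
          Finset.prod_le_prod (fun k _ => integral_nonneg fun ω => (Real.exp_pos _).le)
            (fun k _ => (hb k).1)
      _ = Real.exp ((∑ k ∈ range n, ∫ ω, Yk X pt lam k ω ^ 2 ∂P) / 2 + L ^ 3 * B *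
          ∑ k ∈ range n, ((∫ ω, Rk X pt k ω ^ (3 + e) ∂P) ^ (1 / (3 + e))) ^ 3) := by
          rw [← Real.exp_sum, Finset.sum_add_distrib, Finset.sum_div, Finset.mul_sum]
      _ ≤ _ := by
          rw [Real.exp_le_exp]
          have h1 := mul_le_mul_of_nonneg_left (hcube pt n) (show 0 ≤ L ^ 3 * B by positivity)
          have h2 : 0 ≤ C2 * T3 := by positivity
          linarith
  · rw [hprod]
    calc Real.exp ((∑ k ∈ range n, ∫ ω, Yk X pt lam k ω ^ 2 ∂P) / 2 - (L ^ 3 * B + C2) * T3)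
        ≤ Real.exp ((∑ k ∈ range n, ∫ ω, Yk X pt lam k ω ^ 2 ∂P) / 2 - C2 *
          ∑ k ∈ range n, ((∫ ω, Rk X pt k ω ^ (3 + e) ∂P) ^ (1 / (3 + e))) ^ 3) := by
          rw [Real.exp_le_exp]
          have h1 := mul_le_mul_of_nonneg_left (hcube pt n) hC20
          have h2 : 0 ≤ L ^ 3 * B * T3 := by positivity
          linarith
      _ = ∏ k ∈ range n, Real.exp ((∫ ω, Yk X pt lam k ω ^ 2 ∂P) / 2 - C2 *
          ((∫ ω, Rk X pt k ω ^ (3 + e) ∂P) ^ (1 / (3 + e))) ^ 3) := by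
          rw [← Real.exp_sum, Finset.sum_sub_distrib, Finset.sum_div, Finset.mul_sum]
      _ ≤ _ := Finset.prod_le_prod (fun k _ => (Real.exp_pos _).le) (fun k _ => (hb k).2)

end

end Pool.Agent.Helper55.Chaos
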