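import Mathlib
import Pool.Agent.Helper55.Chaos.FieldExp

set_option autoImplicit false
set_option linter.unusedSectionVars false
set_option linter.unusedVariables false

open MeasureTheory ProbabilityTheory Finset
open scoped ENNReal

namespace Pool.Agent.Helper55.Chaos

section
variable {Ω T : Type*} [MeasurableSpace Ω] {P : Measure Ω} [IsProbabilityMeasure P]
  [TopologicalSpace T] {X : ℕ → Ω → T → ℝ}

/-- Partial sums. -/
def S (X : ℕ → Ω → T → ℝ) (n : ℕ) (ω : Ω) (x : T) : ℝ := ∑ k ∈ range n, X k ω x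

/-- Covariance of the partial sums. -/
noncomputable def K (P : Measure Ω) (X : ℕ → Ω → T → ℝ) (n : ℕ) (x y : T) : ℝ :=
  ∑ k ∈ range n, ∫ ω, X k ω x * X k ω y ∂P

lemma K_symm (n : ℕ) (x y : T) : K P X n x y = K P X n y x := by
  unfold K
  refine Finset.sum_congr rfl fun k _ => ?_
  congr 1
  funext ω
  ring

/-- The coefficients encoding levels. -/
noncomputable def coef {ι : Type} (a : ι → ℝ) (lev : ι → ℕ) (i : ι) (k : ℕ) : ℝ :=
  if k < lev i then a i else 0

lemma sum_Yk {ι : Type} [Fintype ι] (pt : ι → T) (a : ι → ℝ) (lev : ι → ℕ) (n : ℕ)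
    (hn : ∀ i, lev i ≤ n) (ω : Ω) :
    ∑ k ∈ range n, Yk X pt (coef a lev) k ω = ∑ i, a i * S X (lev i) ω (pt i) := by
  unfold Yk S
  rw [Finset.sum_comm]
  refine Finset.sum_congr rfl fun i _ => ?_
  rw [Finset.mul_sum]
  have h1 : ∑ k ∈ range n, coef a lev i k * X k ω (pt i) =
      ∑ k ∈ range n, if k < lev i then a i * X k ω (pt i) else 0 := by
    refine Finset.sum_congr rfl fun k _ => ?_
    unfold coef
    split_ifs <;> simp
  rw [h1, ← Finset.sum_filter]
  congr 1
  ext k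
  simp only [Finset.mem_filter, Finset.mem_range]
  constructor
  · exact fun h => h.2
  · exact fun h => ⟨lt_of_lt_of_le h (hn i), h⟩

lemma FieldHyp.sum_sq (h : FieldHyp P X) {ι : Type} [Fintype ι] (pt : ι → T) (a : ι → ℝ)
    (lev : ι → ℕ) (n : ℕ) (hn : ∀ i, lev i ≤ n) :
    ∑ k ∈ range n, ∫ ω, Yk X pt (coef a lev) k ω ^ 2 ∂P =
      ∑ i, ∑ j, a i * a j * K P X (min (lev i) (lev j)) (pt i) (pt j) := by
  have h1 : ∀ k, ∫ ω, Yk X pt (coef a lev) k ω ^ 2 ∂P =
      ∑ i, ∑ j, coef a lev i k * coef a lev j k * ∫ ω, X k ω (pt i) * X k ω (pt j) ∂P := by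
    intro k
    have h2 : ∀ ω, Yk X pt (coef a lev) k ω ^ 2 =
        ∑ i, ∑ j, coef a lev i k * coef a lev j k * (X k ω (pt i) * X k ω (pt j)) := by
      intro ω
      unfold Yk
      rw [sq, Finset.sum_mul_sum]
      refine Finset.sum_congr rfl fun i _ => Finset.sum_congr rfl fun j _ => ?_
      ring
    simp_rw [h2]
    rw [integral_finsetSum]
    · refine Finset.sum_congr rfl fun i _ => ?_
      rw [integral_finsetSum]
      · refine Finset.sum_congr rfl fun j _ => ?_
        rw [integral_const_mul]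
      · exact fun j _ => (h.int_mul k _ _).const_mul _
    · exact fun i _ => integrable_finsetSum _ fun j _ => (h.int_mul k _ _).const_mul _
  simp_rw [h1]
  rw [Finset.sum_comm]
  refine Finset.sum_congr rfl fun i _ => ?_
  rw [Finset.sum_comm]
  refine Finset.sum_congr rfl fun j _ => ?_
  unfold K
  rw [Finset.mul_sum]
  have h3 : ∑ k ∈ range n, coef a lev i k * coef a lev j k *
      ∫ ω, X k ω (pt i) * X k ω (pt j) ∂P =
      ∑ k ∈ range n, if k < min (lev i) (lev j) then
        a i * a j * ∫ ω, X k ω (pt i) * X k ω (pt j) ∂P else 0 := by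
    refine Finset.sum_congr rfl fun k _ => ?_
    unfold coef
    by_cases h4 : k < lev i <;> by_cases h5 : k < lev j <;> simp [h4, h5]
  rw [h3, ← Finset.sum_filter]
  congr 1
  ext k
  simp only [Finset.mem_filter, Finset.mem_range]
  constructor
  · exact fun h => h.2
  · exact fun h => ⟨lt_of_lt_of_le h ((min_le_left _ _).trans (hn i)), h⟩

/-- Exponential moments of linear combinations `∑ a_i S_{n_i}(x_i)`. -/
theorem FieldHyp.exp_lev (h : FieldHyp P X) (ι : Type) [Fintype ι] (L : ℝ) (hL : 0 ≤ L) :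
    ∃ C : ℝ, 0 ≤ C ∧ ∀ (pt : ι → T) (a : ι → ℝ) (lev : ι → ℕ), (∀ i, |a i| ≤ L) →
      Integrable (fun ω => Real.exp (∑ i, a i * S X (lev i) ω (pt i))) P ∧
      ∫ ω, Real.exp (∑ i, a i * S X (lev i) ω (pt i)) ∂P ≤
        Real.exp ((∑ i, ∑ j, a i * a j * K P X (min (lev i) (lev j)) (pt i) (pt j)) / 2 + C) ∧
      Real.exp ((∑ i, ∑ j, a i * a j * K P X (min (lev i) (lev j)) (pt i) (pt j)) / 2 - C) ≤
        ∫ ω, Real.exp (∑ i, a i * S X (lev i) ω (pt i)) ∂P := by
  obtain ⟨C, hC, hest⟩ := h.exp_est ι L hL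
  refine ⟨C, hC, fun pt a lev ha => ?_⟩
  have hn : ∀ i, lev i ≤ Finset.univ.sup lev := fun i => Finset.le_sup (Finset.mem_univ i)
  have h1 := hest pt (coef a lev) (fun i k => by
    unfold coef; split_ifs
    · exact ha i
    · simpa using hL) (Finset.univ.sup lev)
  rw [h.sum_sq pt a lev _ hn] at h1
  simp_rw [sum_Yk pt a lev _ hn] at h1
  exact h1

/-- The quadratic form of a configuration. -/
noncomputable def QF (P : Measure Ω) (X : ℕ → Ω → T → ℝ) (n : ℕ) {N : ℕ} (xs : Fin N → T) : ℝ :=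
  ∑ i, ∑ j, K P X n (xs i) (xs j)

/-- The tilt of a configuration. -/
noncomputable def tilt (X : ℕ → Ω → T → ℝ) (b : ℝ) (n : ℕ) {N : ℕ} (xs : Fin N → T) (ω : Ω) : ℝ :=
  ∑ i, b * S X n ω (xs i)

/-- General estimate with two extra points. -/
theorem FieldHyp.gen (h : FieldHyp P X) (N : ℕ) (b L : ℝ) (hL : 0 ≤ L) (hb : |b| ≤ L) :
    ∃ C : ℝ, 0 ≤ C ∧ ∀ (xs : Fin N → T) (x0 y : T) (n m : ℕ) (u v : ℝ), m ≤ n → |u| ≤ L →
      |v| ≤ L →
      Integrable (fun ω => Real.exp (tilt X b n xs ω + u * S X m ω x0 + v * S X n ω y)) P ∧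
      ∫ ω, Real.exp (tilt X b n xs ω + u * S X m ω x0 + v * S X n ω y) ∂P ≤
        Real.exp ((b ^ 2 * QF P X n xs + u ^ 2 * K P X m x0 x0 + v ^ 2 * K P X n y y +
          2 * u * b * ∑ i, K P X m (xs i) x0 + 2 * v * b * ∑ i, K P X n (xs i) y +
          2 * u * v * K P X m x0 y) / 2 + C) ∧
      Real.exp ((b ^ 2 * QF P X n xs + u ^ 2 * K P X m x0 x0 + v ^ 2 * K P X n y y +
          2 * u * b * ∑ i, K P X m (xs i) x0 + 2 * v * b * ∑ i, K P X n (xs i) y +
          2 * u * v * K P X m x0 y) / 2 - C) ≤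
        ∫ ω, Real.exp (tilt X b n xs ω + u * S X m ω x0 + v * S X n ω y) ∂P := by
  obtain ⟨C, hC, hest⟩ := h.exp_lev (Option (Option (Fin N))) L hL
  refine ⟨C, hC, fun xs x0 y n m u v hmn hu hv => ?_⟩
  set pt : Option (Option (Fin N)) → T := fun o => o.elim x0 (fun o => o.elim y xs) with hpt
  set a : Option (Option (Fin N)) → ℝ := fun o => o.elim u (fun o => o.elim v (fun _ => b)) with ha
  set lev : Option (Option (Fin N)) → ℕ := fun o => o.elim m (fun _ => n) with hlev
  have h1 := hest pt a lev (by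
    intro o
    match o with
    | none => exact hu
    | some none => exact hv
    | some (some i) => exact hb)
  have hsum : ∀ ω, ∑ i, a i * S X (lev i) ω (pt i) =
      tilt X b n xs ω + u * S X m ω x0 + v * S X n ω y := by
    intro ω
    simp only [Fintype.sum_option, hpt, ha, hlev, Option.elim, tilt]
    ring
  have hquad : ∑ i, ∑ j, a i * a j * K P X (min (lev i) (lev j)) (pt i) (pt j) =
      b ^ 2 * QF P X n xs + u ^ 2 * K P X m x0 x0 + v ^ 2 * K P X n y y +
          2 * u * b * ∑ i, K P X m (xs i) x0 + 2 * v * b * ∑ i, K P X n (xs i) y +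
          2 * u * v * K P X m x0 y := by
    simp only [Fintype.sum_option, hpt, ha, hlev, Option.elim, min_self, min_eq_left hmn,
      min_eq_right hmn, Finset.sum_add_distrib, ← Finset.mul_sum]
    have e1 : ∑ i, K P X m x0 (xs i) = ∑ i, K P X m (xs i) x0 :=
      Finset.sum_congr rfl fun i _ => K_symm _ _ _
    have e2 : ∑ i, K P X n y (xs i) = ∑ i, K P X n (xs i) y :=
      Finset.sum_congr rfl fun i _ => K_symm _ _ _
    have e3 : K P X m y x0 = K P X m x0 y := K_symm _ _ _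
    rw [e1, e2, e3]
    unfold QF
    ring
  rw [hquad] at h1
  simp_rw [hsum] at h1
  exact h1

end

end Pool.Agent.Helper55.Chaos
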