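import Mathlib
import Pool.Agent.Helper55.Chaos.Cov

set_option autoImplicit false
set_option linter.unusedSectionVars false
set_option linter.unusedVariables false

open MeasureTheory ProbabilityTheory Finset
open scoped ENNReal

namespace Pool.Agent.Helper55.Chaos

/-- The exponential with values in `[0,∞]`. -/
noncomputable def ee (t : ℝ) : ℝ≥0∞ := ENNReal.ofReal (Real.exp t)

lemma ee_add (s t : ℝ) : ee (s + t) = ee s * ee t := by
  unfold ee
  rw [Real.exp_add, ENNReal.ofReal_mul (Real.exp_pos _).le]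

lemma ee_zero : ee 0 = 1 := by simp [ee]

lemma ee_ne_zero (t : ℝ) : ee t ≠ 0 := by
  unfold ee
  rw [Ne, ENNReal.ofReal_eq_zero, not_le]
  exact Real.exp_pos _

lemma ee_ne_top (t : ℝ) : ee t ≠ ⊤ := ENNReal.ofReal_ne_top

lemma ee_mono {s t : ℝ} (h : s ≤ t) : ee s ≤ ee t :=
  ENNReal.ofReal_le_ofReal (Real.exp_le_exp.2 h)

lemma ee_le_iff {s t : ℝ} : ee s ≤ ee t ↔ s ≤ t := by
  unfold ee
  rw [ENNReal.ofReal_le_ofReal_iff (Real.exp_pos _).le, Real.exp_le_exp]

lemma ee_rpow (t q : ℝ) : ee t ^ q = ee (q * t) := by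
  unfold ee
  rw [ENNReal.ofReal_rpow_of_pos (Real.exp_pos _), ← Real.exp_mul, mul_comm]

lemma ee_log {r : ℝ} (hr : 0 < r) : ee (Real.log r) = ENNReal.ofReal r := by
  unfold ee; rw [Real.exp_log hr]

lemma measurable_ee {α : Type*} [MeasurableSpace α] {f : α → ℝ} (hf : Measurable f) :
    Measurable fun a => ee (f a) := by
  unfold ee
  exact (Real.measurable_exp.comp hf).ennreal_ofReal

section
variable {Ω T : Type*} [MeasurableSpace Ω] {P : Measure Ω} [IsProbabilityMeasure P]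
  [MetricSpace T] [SecondCountableTopology T] [MeasurableSpace T] [BorelSpace T]
  {X : ℕ → Ω → T → ℝ}

lemma FieldHyp.S_meas_uncurry (h : FieldHyp P X) (n : ℕ) :
    Measurable (Function.uncurry fun x ω => S X n ω x) := by
  unfold S
  have h1 : ∀ k, Measurable (Function.uncurry fun (x : T) (ω : Ω) => X k ω x) := fun k =>
    measurable_uncurry_of_continuous_of_measurable (fun ω => h.cont k ω) (fun x => h.meas k x)
  have h2 : (Function.uncurry fun (x : T) (ω : Ω) => ∑ k ∈ range n, X k ω x) =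
      fun p => ∑ k ∈ range n, (Function.uncurry fun (x : T) (ω : Ω) => X k ω x) p := by
    funext p
    rfl
  rw [h2]
  exact Finset.measurable_sum _ fun k _ => h1 k

lemma FieldHyp.S_meas (h : FieldHyp P X) (n : ℕ) (x : T) : Measurable fun ω => S X n ω x :=
  (h.S_meas_uncurry n).of_uncurry_left

/-- The normalising constant. -/
noncomputable def vn (P : Measure Ω) (X : ℕ → Ω → T → ℝ) (b : ℝ) (n : ℕ) (x : T) : ℝ :=
  ∫ ω, Real.exp (b * S X n ω x) ∂P

/-- The density of the approximating measures. -/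
noncomputable def Dn (P : Measure Ω) (X : ℕ → Ω → T → ℝ) (b : ℝ) (n : ℕ) (ω : Ω) (x : T) : ℝ≥0∞ :=
  ENNReal.ofReal (Real.exp (b * S X n ω x) / vn P X b n x)

/-- The mass of a set. -/
noncomputable def mass (P : Measure Ω) (ν : Measure T) (X : ℕ → Ω → T → ℝ) (b : ℝ) (n : ℕ)
    (Q : Set T) (ω : Ω) : ℝ≥0∞ := ∫⁻ x in Q, Dn P X b n ω x ∂ν

lemma FieldHyp.vn_meas (h : FieldHyp P X) (b : ℝ) (n : ℕ) : Measurable (vn P X b n) := by
  unfold vn
  have h1 : StronglyMeasurable (Function.uncurry fun x ω => Real.exp (b * S X n ω x)) := by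
    have := (h.S_meas_uncurry n).const_mul b
    exact (Real.measurable_exp.comp this).stronglyMeasurable
  exact h1.integral_prod_right.measurable

lemma FieldHyp.Dn_meas_uncurry (h : FieldHyp P X) (b : ℝ) (n : ℕ) :
    Measurable (Function.uncurry fun x ω => Dn P X b n ω x) := by
  unfold Dn
  have h1 : Measurable (Function.uncurry fun x ω => Real.exp (b * S X n ω x)) :=
    Real.measurable_exp.comp ((h.S_meas_uncurry n).const_mul b)
  have h2 : Measurable fun p : T × Ω => vn P X b n p.1 := (h.vn_meas b n).comp measurable_fst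
  exact (h1.div h2).ennreal_ofReal

lemma FieldHyp.Dn_meas_left (h : FieldHyp P X) (b : ℝ) (n : ℕ) (ω : Ω) :
    Measurable fun x => Dn P X b n ω x :=
  (h.Dn_meas_uncurry b n).of_uncurry_right

lemma FieldHyp.Dn_meas_right (h : FieldHyp P X) (b : ℝ) (n : ℕ) (x : T) :
    Measurable fun ω => Dn P X b n ω x :=
  (h.Dn_meas_uncurry b n).of_uncurry_left

lemma FieldHyp.mass_meas (h : FieldHyp P X) (ν : Measure T) [SFinite ν] (b : ℝ) (n : ℕ)
    (Q : Set T) : Measurable (mass P ν X b n Q) := by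
  unfold mass
  exact (h.Dn_meas_uncurry b n).lintegral_prod_left'

/-- Tonelli. -/
lemma FieldHyp.tonelli (h : FieldHyp P X) (ν : Measure T) [SFinite ν] (b : ℝ) (n : ℕ)
    (Q : Set T) {g : Ω → ℝ≥0∞} (hg : Measurable g) :
    ∫⁻ ω, g ω * mass P ν X b n Q ω ∂P = ∫⁻ x in Q, (∫⁻ ω, g ω * Dn P X b n ω x ∂P) ∂ν := by
  unfold mass
  have h1 : ∀ ω, g ω * ∫⁻ x in Q, Dn P X b n ω x ∂ν = ∫⁻ x in Q, g ω * Dn P X b n ω x ∂ν := by
    intro ω
    rw [lintegral_const_mul _ (h.Dn_meas_left b n ω)]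
  simp_rw [h1]
  apply lintegral_lintegral_swap
  apply Measurable.aemeasurable
  have h2 := h.Dn_meas_uncurry b n
  have h3 : Measurable fun p : Ω × T => Dn P X b n p.1 p.2 := h2.comp measurable_swap
  exact (hg.comp measurable_fst).mul h3

lemma FieldHyp.tilt_meas (h : FieldHyp P X) (b : ℝ) (n : ℕ) {N : ℕ} (xs : Fin N → T) :
    Measurable (tilt X b n xs) := by
  unfold tilt
  exact Finset.measurable_sum _ fun i _ => (h.S_meas n (xs i)).const_mul b

/-- General estimate, `[0,∞]`-valued version. -/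
theorem FieldHyp.gen_ee (h : FieldHyp P X) (N : ℕ) (b L : ℝ) (hL : 0 ≤ L) (hb : |b| ≤ L) :
    ∃ C : ℝ, 0 ≤ C ∧ ∀ (xs : Fin N → T) (x0 y : T) (n m : ℕ) (u v : ℝ), m ≤ n → |u| ≤ L →
      |v| ≤ L →
      ∫⁻ ω, ee (tilt X b n xs ω + u * S X m ω x0 + v * S X n ω y) ∂P ≤
        ee ((b ^ 2 * QF P X n xs + u ^ 2 * K P X m x0 x0 + v ^ 2 * K P X n y y +
          2 * u * b * ∑ i, K P X m (xs i) x0 + 2 * v * b * ∑ i, K P X n (xs i) y +
          2 * u * v * K P X m x0 y) / 2 + C) ∧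
      ee ((b ^ 2 * QF P X n xs + u ^ 2 * K P X m x0 x0 + v ^ 2 * K P X n y y +
          2 * u * b * ∑ i, K P X m (xs i) x0 + 2 * v * b * ∑ i, K P X n (xs i) y +
          2 * u * v * K P X m x0 y) / 2 - C) ≤
        ∫⁻ ω, ee (tilt X b n xs ω + u * S X m ω x0 + v * S X n ω y) ∂P := by
  obtain ⟨C, hC, hest⟩ := h.gen N b L hL hb
  refine ⟨C, hC, fun xs x0 y n m u v hmn hu hv => ?_⟩
  obtain ⟨hi, hup, hlo⟩ := hest xs x0 y n m u v hmn hu hv
  have e1 : ∫⁻ ω, ee (tilt X b n xs ω + u * S X m ω x0 + v * S X n ω y) ∂P =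
      ENNReal.ofReal (∫ ω, Real.exp (tilt X b n xs ω + u * S X m ω x0 + v * S X n ω y) ∂P) := by
    unfold ee
    rw [ofReal_integral_eq_lintegral_ofReal hi
      (Filter.Eventually.of_forall fun ω => (Real.exp_pos _).le)]
  rw [e1]
  exact ⟨ENNReal.ofReal_le_ofReal hup, ENNReal.ofReal_le_ofReal hlo⟩

/-- Two-sided bounds for the normalising constants. -/
theorem FieldHyp.vn_bounds [Nonempty T] (h : FieldHyp P X) (b : ℝ) :
    ∃ C : ℝ, 0 ≤ C ∧ ∀ (n : ℕ) (x : T),
      Real.exp (b ^ 2 * K P X n x x / 2 - C) ≤ vn P X b n x ∧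
      vn P X b n x ≤ Real.exp (b ^ 2 * K P X n x x / 2 + C) := by
  obtain ⟨C, hC, hest⟩ := h.gen 0 b |b| (abs_nonneg _) le_rfl
  refine ⟨C, hC, fun n x => ?_⟩
  have := hest (fun i => x) x x n n 0 b le_rfl (by simp) le_rfl
  simpa [tilt, QF, vn] using this.2.symm

/-- Two-sided bounds for the density. -/
theorem FieldHyp.Dn_bounds [Nonempty T] (h : FieldHyp P X) (b : ℝ) :
    ∃ C : ℝ, 0 ≤ C ∧ ∀ (n : ℕ) (ω : Ω) (x : T),
      Dn P X b n ω x ≤ ee (b * S X n ω x - b ^ 2 * K P X n x x / 2 + C) ∧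
      ee (b * S X n ω x - b ^ 2 * K P X n x x / 2 - C) ≤ Dn P X b n ω x := by
  obtain ⟨C, hC, hest⟩ := h.vn_bounds b
  refine ⟨C, hC, fun n ω x => ?_⟩
  obtain ⟨h1, h2⟩ := hest n x
  have hv : 0 < vn P X b n x := lt_of_lt_of_le (Real.exp_pos _) h1
  unfold Dn ee
  constructor
  · apply ENNReal.ofReal_le_ofReal
    rw [div_le_iff₀ hv]
    calc Real.exp (b * S X n ω x) =
        Real.exp (b * S X n ω x - b ^ 2 * K P X n x x / 2 + C) *
          Real.exp (b ^ 2 * K P X n x x / 2 - C) := by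
          rw [← Real.exp_add]; congr 1; ring
      _ ≤ _ := mul_le_mul_of_nonneg_left h1 (Real.exp_pos _).le
  · apply ENNReal.ofReal_le_ofReal
    rw [le_div_iff₀ hv]
    calc Real.exp (b * S X n ω x - b ^ 2 * K P X n x x / 2 - C) * vn P X b n x
        ≤ Real.exp (b * S X n ω x - b ^ 2 * K P X n x x / 2 - C) *
          Real.exp (b ^ 2 * K P X n x x / 2 + C) :=
          mul_le_mul_of_nonneg_left h2 (Real.exp_pos _).le
      _ = Real.exp (b * S X n ω x) := by
          rw [← Real.exp_add]; congr 1; ring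

end

end Pool.Agent.Helper55.Chaos
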