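import Mathlib
import Pool.Agent.Helper55.Chaos.Mass

set_option autoImplicit false
set_option linter.unusedSectionVars false
set_option linter.unusedVariables false

open MeasureTheory ProbabilityTheory Finset Filter
open scoped ENNReal Topology

namespace Pool.Agent.Helper55.Chaos

/-- Measurability of the mass with respect to an arbitrary sigma-algebra. -/
lemma meas_gen {Ω' T' : Type*} [MeasurableSpace Ω'] [MetricSpace T'] [SecondCountableTopology T']
    [MeasurableSpace T'] [BorelSpace T'] (Y : ℕ → Ω' → T' → ℝ) (hc : ∀ k ω, Continuous (Y k ω))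
    (n : ℕ) (hm : ∀ k < n, ∀ x, Measurable fun ω => Y k ω x) (v : T' → ℝ) (hv : Measurable v)
    (ρ : Measure T') [SFinite ρ] (b : ℝ) :
    Measurable fun ω => ∫⁻ x, ENNReal.ofReal (Real.exp (b * ∑ k ∈ range n, Y k ω x) / v x) ∂ρ := by
  have h1 : ∀ k < n, Measurable (Function.uncurry fun (x : T') (ω : Ω') => Y k ω x) := fun k hk =>
    measurable_uncurry_of_continuous_of_measurable (fun ω => hc k ω) (fun x => hm k hk x)
  have h2 : Measurable (Function.uncurry fun (x : T') (ω : Ω') => ∑ k ∈ range n, Y k ω x) := by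
    have e : (Function.uncurry fun (x : T') (ω : Ω') => ∑ k ∈ range n, Y k ω x) =
      fun p => ∑ k ∈ range n, (Function.uncurry fun (x : T') (ω : Ω') => Y k ω x) p := by
      funext p
      rfl
    rw [e]
    exact Finset.measurable_sum _ fun k hk => h1 k (Finset.mem_range.1 hk)
  have h3 : Measurable (Function.uncurry fun (x : T') (ω : Ω') =>
      ENNReal.ofReal (Real.exp (b * ∑ k ∈ range n, Y k ω x) / v x)) := by
    have e1 : Measurable fun p : T' × Ω' => v p.1 := hv.comp measurable_fst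
    exact ((Real.measurable_exp.comp (h2.const_mul b)).div e1).ennreal_ofReal
  exact h3.lintegral_prod_left'

section
variable {Ω T : Type*} [mΩ : MeasurableSpace Ω] {P : Measure Ω} [IsProbabilityMeasure P]
  [MetricSpace T] [SecondCountableTopology T] [MeasurableSpace T] [BorelSpace T] [Nonempty T]
  {X : ℕ → Ω → T → ℝ} {ν : Measure T} [IsFiniteMeasure ν]

/-- The sigma-algebra of the `k`-th field. -/
@[instance_reducible] def fm (X : ℕ → Ω → T → ℝ) (k : ℕ) : MeasurableSpace Ω :=
  MeasurableSpace.comap (X k) MeasurableSpace.pi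

lemma FieldHyp.fm_le (h : FieldHyp P X) (k : ℕ) : fm X k ≤ mΩ := by
  unfold fm
  apply Measurable.comap_le
  exact measurable_pi_iff.2 fun x => h.meas k x

lemma fm_meas (k : ℕ) (x : T) : Measurable[fm X k] fun ω => X k ω x := by
  have h1 : Measurable[fm X k] (X k) := comap_measurable (X k)
  exact (measurable_pi_apply x).comp h1

/-- The filtration generated by the fields. -/
def filt (h : FieldHyp P X) : Filtration ℕ mΩ where
  seq n := ⨆ k ∈ {k | k < n}, fm X k
  mono' := by
    intro i j hij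
    exact biSup_mono fun k hk => lt_of_lt_of_le hk hij
  le' n := iSup₂_le fun k _ => h.fm_le k

lemma FieldHyp.filt_meas (h : FieldHyp P X) {n k : ℕ} (hk : k < n) (x : T) :
    Measurable[filt h n] fun ω => X k ω x :=
  (fm_meas k x).mono (le_iSup₂ (f := fun k (_ : k ∈ {k | k < n}) => fm X k) k hk) le_rfl

/-- The sigma-algebra of the future. -/
@[instance_reducible] def fut (X : ℕ → Ω → T → ℝ) (n : ℕ) : MeasurableSpace Ω := ⨆ k ∈ {k | n ≤ k}, fm X k

lemma FieldHyp.fut_le (h : FieldHyp P X) (n : ℕ) : fut X n ≤ mΩ :=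
  iSup₂_le fun k _ => h.fm_le k

lemma fut_meas {n k : ℕ} (hk : n ≤ k) (x : T) : Measurable[fut X n] fun ω => X k ω x :=
  (fm_meas k x).mono (le_iSup₂ (f := fun k (_ : k ∈ {k | n ≤ k}) => fm X k) k hk) le_rfl

lemma FieldHyp.indep_fut (h : FieldHyp P X) (n : ℕ) : Indep (filt h n) (fut X n) P := by
  have h1 : iIndep (fm X) P := h.indep
  have h2 : Disjoint {k | k < n} {k | n ≤ k} := by
    rw [Set.disjoint_left]
    intro k hk hk'
    simp only [Set.mem_ofPred_eq] at hk hk'
    omega
  exact indep_iSup_of_disjoint h.fm_le h1 h2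

lemma FieldHyp.mass_filt (h : FieldHyp P X) (b : ℝ) (n : ℕ) (Q : Set T) :
    Measurable[filt h n] (mass P ν X b n Q) :=
  @meas_gen Ω T (filt h n) _ _ _ _ X h.cont n (fun k hk x => h.filt_meas hk x) (vn P X b n)
    (h.vn_meas b n) (ν.restrict Q) _ b

/-- One-point computation. -/
lemma FieldHyp.point_mart (h : FieldHyp P X) (b : ℝ) {n n' : ℕ} (hn : n ≤ n') (x : T)
    {H : Ω → ℝ≥0∞} (hH : Measurable[filt h n] H) :
    ∫⁻ ω, H ω * Dn P X b n' ω x ∂P = ∫⁻ ω, H ω * Dn P X b n ω x ∂P := by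
  obtain ⟨C, hC, hest⟩ := h.vn_bounds b
  have hHm : Measurable H := hH.mono ((filt h).le n) le_rfl
  have hvpos : ∀ m, 0 < vn P X b m x := fun m =>
    lt_of_lt_of_le (Real.exp_pos _) (hest m x).1
  set R : Ω → ℝ := fun ω => ∑ k ∈ Finset.Ico n n', X k ω x with hR
  have hS : ∀ ω, S X n' ω x = S X n ω x + R ω := by
    intro ω
    unfold S
    rw [hR, Finset.range_eq_Ico, Finset.range_eq_Ico,
      Finset.sum_Ico_consecutive _ (Nat.zero_le n) hn]
  have hRf : Measurable[fut X n] R := by
    exact Finset.measurable_sum _ fun k hk => fut_meas (Finset.mem_Ico.1 hk).1 x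
  have hRm : Measurable R := hRf.mono (h.fut_le n) le_rfl
  have hSf : Measurable[filt h n] fun ω => S X n ω x := by
    unfold S
    exact Finset.measurable_sum _ fun k hk => h.filt_meas (Finset.mem_range.1 hk) x
  have hSm := h.S_meas n x
  -- Dn as a product
  have hDn : ∀ m ω, Dn P X b m ω x = ee (b * S X m ω x) * ENNReal.ofReal ((vn P X b m x)⁻¹) := by
    intro m ω
    unfold Dn ee
    rw [div_eq_mul_inv, ENNReal.ofReal_mul (Real.exp_pos _).le]
  have hvn : ∀ m, ENNReal.ofReal (vn P X b m x) = ∫⁻ ω, ee (b * S X m ω x) ∂P := by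
    intro m
    unfold vn ee
    rw [ofReal_integral_eq_lintegral_ofReal]
    · obtain ⟨C', _, hg⟩ := h.gen 0 b |b| (abs_nonneg _) le_rfl
      have := (hg (fun i => x) x x m m 0 b le_rfl (by simp) le_rfl).1
      simpa [tilt] using this
    · exact Filter.Eventually.of_forall fun ω => (Real.exp_pos _).le
  have hsplit : ∀ F : Ω → ℝ≥0∞, Measurable[filt h n] F →
      ∫⁻ ω, F ω * ee (b * R ω) ∂P = (∫⁻ ω, F ω ∂P) * ∫⁻ ω, ee (b * R ω) ∂P := by
    intro F hF
    have hg : Measurable[fut X n] fun ω => ee (b * R ω) := by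
      unfold ee
      exact (Real.measurable_exp.comp (hRf.const_mul b)).ennreal_ofReal
    exact lintegral_mul_eq_lintegral_mul_lintegral_of_independent_measurableSpace
      ((filt h).le n) (h.fut_le n) (h.indep_fut n) hF hg
  have heS : Measurable[filt h n] fun ω => ee (b * S X n ω x) := by
    unfold ee
    exact (Real.measurable_exp.comp (hSf.const_mul b)).ennreal_ofReal
  have hv' : ENNReal.ofReal (vn P X b n' x) =
      ENNReal.ofReal (vn P X b n x) * ∫⁻ ω, ee (b * R ω) ∂P := by
    rw [hvn n', hvn n, ← hsplit _ heS]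
    apply lintegral_congr
    intro ω
    rw [hS, mul_add, ee_add]
  set E : ℝ≥0∞ := ∫⁻ ω, ee (b * R ω) ∂P with hE
  have hE0 : E ≠ 0 := by
    intro h0
    rw [h0, mul_zero, ENNReal.ofReal_eq_zero] at hv'
    linarith [hvpos n']
  have hEt : E ≠ ⊤ := by
    intro h0
    rw [h0, ENNReal.mul_top] at hv'
    · exact ENNReal.ofReal_ne_top hv'
    · rw [Ne, ENNReal.ofReal_eq_zero, not_le]; exact hvpos n
  have hF : Measurable[filt h n] fun ω => H ω * ee (b * S X n ω x) := hH.mul heS
  calc ∫⁻ ω, H ω * Dn P X b n' ω x ∂P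
      = ∫⁻ ω, ((H ω * ee (b * S X n ω x)) * ee (b * R ω)) *
        ENNReal.ofReal ((vn P X b n' x)⁻¹) ∂P := by
        apply lintegral_congr
        intro ω
        rw [hDn, hS, mul_add, ee_add]
        ring
    _ = (∫⁻ ω, (H ω * ee (b * S X n ω x)) * ee (b * R ω) ∂P) *
        ENNReal.ofReal ((vn P X b n' x)⁻¹) := by
        rw [lintegral_mul_const]
        exact (hHm.mul (measurable_ee (hSm.const_mul b))).mul (measurable_ee (hRm.const_mul b))
    _ = ((∫⁻ ω, H ω * ee (b * S X n ω x) ∂P) * E) *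
        ENNReal.ofReal ((vn P X b n' x)⁻¹) := by rw [hsplit _ hF]
    _ = (∫⁻ ω, H ω * ee (b * S X n ω x) ∂P) * ENNReal.ofReal ((vn P X b n x)⁻¹) := by
        rw [ENNReal.ofReal_inv_of_pos (hvpos n'), ENNReal.ofReal_inv_of_pos (hvpos n), hv',
          mul_assoc]
        congr 1
        rw [ENNReal.mul_inv (Or.inr hEt) (Or.inr hE0), mul_comm (ENNReal.ofReal (vn P X b n x))⁻¹,
          ← mul_assoc, ENNReal.mul_inv_cancel hE0 hEt, one_mul]
    _ = ∫⁻ ω, (H ω * ee (b * S X n ω x)) * ENNReal.ofReal ((vn P X b n x)⁻¹) ∂P := by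
        rw [lintegral_mul_const]
        exact hHm.mul (measurable_ee (hSm.const_mul b))
    _ = _ := by
        apply lintegral_congr
        intro ω
        rw [hDn]
        ring

/-- The martingale property. -/
theorem FieldHyp.mart (h : FieldHyp P X) (b : ℝ) {n n' : ℕ} (hn : n ≤ n') (Q : Set T)
    {H : Ω → ℝ≥0∞} (hH : Measurable[filt h n] H) :
    ∫⁻ ω, H ω * mass P ν X b n' Q ω ∂P = ∫⁻ ω, H ω * mass P ν X b n Q ω ∂P := by
  have hHm : Measurable H := hH.mono ((filt h).le n) le_rfl
  rw [h.tonelli ν b n' Q hHm, h.tonelli ν b n Q hHm]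
  simp_rw [h.point_mart b hn _ hH]

lemma FieldHyp.Dn_zero (b : ℝ) (ω : Ω) (x : T) : Dn P X b 0 ω x = 1 := by
  unfold Dn vn S
  simp

/-- The mean of the mass. -/
theorem FieldHyp.mean (h : FieldHyp P X) (b : ℝ) (n : ℕ) (Q : Set T) :
    ∫⁻ ω, mass P ν X b n Q ω ∂P = ν Q := by
  have h1 := h.mart (ν := ν) b (Nat.zero_le n) Q (H := fun _ => 1) measurable_const
  simp only [one_mul] at h1
  rw [h1]
  have h2 : ∀ ω, mass P ν X b 0 Q ω = ν Q := by
    intro ω
    unfold mass
    simp_rw [FieldHyp.Dn_zero]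
    simp
  simp_rw [h2]
  simp

/-- Almost sure convergence of the total mass. -/
theorem FieldHyp.ae_tendsto (h : FieldHyp P X) (b : ℝ) (Q : Set T) :
    ∀ᵐ ω ∂P, ∃ c : ℝ, Tendsto (fun n => mass P ν X b n Q ω) atTop (𝓝 (ENNReal.ofReal c)) := by
  have hfin : ∀ n, ∀ᵐ ω ∂P, mass P ν X b n Q ω ≠ ⊤ := by
    intro n
    have h1 : ∫⁻ ω, mass P ν X b n Q ω ∂P ≠ ⊤ := by
      rw [h.mean]; exact measure_ne_top ν Q
    filter_upwards [ae_lt_top (h.mass_meas ν b n Q) h1] with ω hω
    exact hω.ne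
  set f : ℕ → Ω → ℝ := fun n ω => (mass P ν X b n Q ω).toReal with hf
  have hfi : ∀ n, Integrable (f n) P := by
    intro n
    apply integrable_toReal_of_lintegral_ne_top (h.mass_meas ν b n Q).aemeasurable
    rw [h.mean]; exact measure_ne_top ν Q
  have hmart : Martingale f (filt h) P := by
    apply martingale_of_setIntegral_eq_succ
    · intro n
      exact (h.mass_filt b n Q).ennreal_toReal.stronglyMeasurable
    · exact hfi
    · intro n s hs
      have hs' : MeasurableSet s := (filt h).le n s hs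
      have e : ∀ m, ∫ ω in s, f m ω ∂P = (∫⁻ ω in s, mass P ν X b m Q ω ∂P).toReal := by
        intro m
        rw [integral_toReal (h.mass_meas ν b m Q).aemeasurable
          (ae_restrict_of_ae ((hfin m).mono fun ω hω => lt_top_iff_ne_top.2 hω))]
      rw [e, e]
      congr 1
      have hH : Measurable[filt h n] (s.indicator fun _ => (1 : ℝ≥0∞)) :=
        measurable_const.indicator hs
      have h2 := h.mart (ν := ν) b (Nat.le_succ n) Q hH
      have e2 : ∀ m, ∫⁻ ω in s, mass P ν X b m Q ω ∂P =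
          ∫⁻ ω, (s.indicator fun _ => (1 : ℝ≥0∞)) ω * mass P ν X b m Q ω ∂P := by
        intro m
        rw [← lintegral_indicator hs']
        apply lintegral_congr
        intro ω
        by_cases hω : ω ∈ s <;> simp [hω]
      rw [e2, e2]
      exact h2.symm
  have hbdd : ∀ n, eLpNorm (f n) 1 P ≤ ((ν Q).toNNReal : ℝ≥0∞) := by
    intro n
    rw [eLpNorm_one_eq_lintegral_enorm, ENNReal.coe_toNNReal (measure_ne_top ν Q)]
    calc ∫⁻ ω, ‖f n ω‖ₑ ∂P ≤ ∫⁻ ω, mass P ν X b n Q ω ∂P := by
          apply lintegral_mono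
          intro ω
          simp only [hf]
          rw [Real.enorm_of_nonneg ENNReal.toReal_nonneg]
          exact ENNReal.ofReal_toReal_le
      _ = ν Q := h.mean b n Q
  have hconv := hmart.submartingale.exists_ae_tendsto_of_bdd hbdd
  filter_upwards [hconv, ae_all_iff.2 hfin] with ω hω hω'
  obtain ⟨c, hc⟩ := hω
  refine ⟨c, ?_⟩
  have h3 : ∀ n, mass P ν X b n Q ω = ENNReal.ofReal (f n ω) := fun n =>
    (ENNReal.ofReal_toReal (hω' n)).symm
  simp_rw [h3]
  exact (ENNReal.continuous_ofReal.tendsto c).comp hc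

end

end Pool.Agent.Helper55.Chaos
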