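import Mathlib
import Pool.Agent.Helper55.Chaos.Mass

set_option autoImplicit false
set_option linter.unusedSectionVars false
set_option linter.unusedVariables false

open MeasureTheory ProbabilityTheory Finset
open scoped ENNReal

namespace Pool.Agent.Helper55.Chaos

section
variable {Ω T : Type*} [MeasurableSpace Ω] {P : Measure Ω} [IsProbabilityMeasure P]
  [MetricSpace T] [SecondCountableTopology T] [MeasurableSpace T] [BorelSpace T] [Nonempty T]
  {X : ℕ → Ω → T → ℝ} (ν : Measure T) [IsFiniteMeasure ν]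

/-- Integrating against the density. -/
lemma FieldHyp.int_D (h : FieldHyp P X) {b CD : ℝ}
    (hD : ∀ (n : ℕ) (ω : Ω) (x : T),
      Dn P X b n ω x ≤ ee (b * S X n ω x - b ^ 2 * K P X n x x / 2 + CD) ∧
      ee (b * S X n ω x - b ^ 2 * K P X n x x / 2 - CD) ≤ Dn P X b n ω x)
    {f : Ω → ℝ} (hf : Measurable f) (n : ℕ) (y : T) :
    ∫⁻ ω, ee (f ω) * Dn P X b n ω y ∂P ≤
      (∫⁻ ω, ee (f ω + b * S X n ω y) ∂P) * ee (CD - b ^ 2 * K P X n y y / 2) := by
  have hm : Measurable fun ω => ee (f ω + b * S X n ω y) :=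
    measurable_ee (hf.add ((h.S_meas n y).const_mul _))
  rw [← lintegral_mul_const _ hm]
  apply lintegral_mono
  intro ω
  simp only
  rw [ee_add (f ω), mul_assoc]
  refine mul_le_mul_right ((hD n ω y).1.trans (le_of_eq ?_)) _
  rw [← ee_add]; congr 1; ring

/-- Hoelder lemma for exponents `q ≤ 1`. -/
theorem FieldHyp.lemmaH (h : FieldHyp P X) (N : ℕ) (b q C2 : ℝ) (hb : 0 < b) (hq : 0 < q)
    (hq1 : q ≤ 1) :
    ∃ C : ℝ, ∀ (n m : ℕ) (xs : Fin N → T) (x0 : T) (Q : Set T) (s : ℝ) (l : Fin N → ℝ),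
      MeasurableSet Q → m ≤ n → K P X m x0 x0 ≤ s + C2 → (∀ y ∈ Q, s - C2 ≤ K P X m x0 y) →
      (∀ i, ∀ y ∈ Q, K P X n (xs i) y ≤ l i) →
      ∫⁻ ω, ee (tilt X b n xs ω) * (mass P ν X b n Q ω) ^ q ∂P ≤
        ee (b ^ 2 * QF P X n xs / 2 + b ^ 2 * q * (q - 1) * s / 2 + q * b ^ 2 * ∑ i, l i + C) *
          (ν Q) ^ q := by
  obtain ⟨C, hC, hgen⟩ := h.gen_ee N b b hb.le (by rw [abs_of_pos hb])
  obtain ⟨CD, hCD, hD⟩ := h.Dn_bounds b
  refine ⟨C + CD + 2 * b ^ 2 * |C2|, ?_⟩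
  intro n m xs x0 Q s l hQ hmn hs1 hs2 hl
  -- the two functions
  set w : Ω → ℝ≥0∞ := fun ω => ee (tilt X b n xs ω + (q * b) * S X m ω x0) with hw
  set z : Ω → ℝ≥0∞ := fun ω => ee (tilt X b n xs ω + ((q - 1) * b) * S X m ω x0) *
    mass P ν X b n Q ω with hz
  have hwm : Measurable w :=
    measurable_ee ((h.tilt_meas b n xs).add ((h.S_meas m x0).const_mul _))
  have hgm : Measurable (fun ω => ee (tilt X b n xs ω + ((q - 1) * b) * S X m ω x0)) :=
    measurable_ee ((h.tilt_meas b n xs).add ((h.S_meas m x0).const_mul _))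
  have hzm : Measurable z := hgm.mul (h.mass_meas ν b n Q)
  have hpt : ∀ ω, ee (tilt X b n xs ω) * (mass P ν X b n Q ω) ^ q = w ω ^ (1 - q) * z ω ^ q := by
    intro ω
    simp only [hw, hz]
    rw [ENNReal.mul_rpow_of_nonneg _ _ hq.le, ee_rpow, ee_rpow, ← mul_assoc, ← ee_add]
    congr 2
    ring
  simp_rw [hpt]
  refine (ENNReal.lintegral_mul_norm_pow_le hwm.aemeasurable hzm.aemeasurable
    (by linarith : (0 : ℝ) ≤ 1 - q) hq.le (by ring)).trans ?_
  have hC2 : C2 ≤ |C2| := le_abs_self _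
  have hC2' : -|C2| ≤ C2 := neg_abs_le _
  have hb2 : 0 ≤ b ^ 2 := sq_nonneg b
  have habs1 : |q * b| ≤ b := by
    rw [abs_of_nonneg (by positivity)]; nlinarith
  have habs2 : |(q - 1) * b| ≤ b := by
    rw [abs_mul, abs_of_pos hb, abs_of_nonpos (by linarith)]; nlinarith
  set sg : ℝ := ∑ i, K P X m (xs i) x0 with hsg
  -- first factor
  have hf1 : ∫⁻ ω, w ω ∂P ≤ ee ((b ^ 2 * QF P X n xs + (q * b) ^ 2 * K P X m x0 x0 +
      2 * (q * b) * b * sg) / 2 + C) := by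
    have := (hgen xs x0 x0 n m (q * b) 0 hmn habs1 (by simpa using hb.le)).1
    simpa [hw, hsg] using this
  -- second factor
  have hf2 : ∫⁻ ω, z ω ∂P ≤ ee ((b ^ 2 * QF P X n xs + ((q - 1) * b) ^ 2 * K P X m x0 x0 +
      2 * ((q - 1) * b) * b * sg + 2 * b * b * (∑ i, l i) +
      2 * ((q - 1) * b) * b * (s - C2)) / 2 + C + CD) * ν Q := by
    simp only [hz]
    rw [h.tonelli ν b n Q hgm]
    have hin : ∀ y ∈ Q, ∫⁻ ω, ee (tilt X b n xs ω + ((q - 1) * b) * S X m ω x0) *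
        Dn P X b n ω y ∂P ≤ ee ((b ^ 2 * QF P X n xs + ((q - 1) * b) ^ 2 * K P X m x0 x0 +
      2 * ((q - 1) * b) * b * sg + 2 * b * b * (∑ i, l i) +
      2 * ((q - 1) * b) * b * (s - C2)) / 2 + C + CD) := by
      intro y hy
      have h1 := (hgen xs x0 y n m ((q - 1) * b) b hmn habs2 (by rw [abs_of_pos hb])).1
      calc ∫⁻ ω, ee (tilt X b n xs ω + ((q - 1) * b) * S X m ω x0) * Dn P X b n ω y ∂P
          ≤ (∫⁻ ω, ee (tilt X b n xs ω + ((q - 1) * b) * S X m ω x0 + b * S X n ω y) ∂P) *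
            ee (CD - b ^ 2 * K P X n y y / 2) :=
            h.int_D hD ((h.tilt_meas b n xs).add ((h.S_meas m x0).const_mul _)) n y
        _ ≤ _ := by
            refine (mul_le_mul_left h1 _).trans ?_
            rw [← ee_add]
            apply ee_mono
            have h2 : ∑ i, K P X n (xs i) y ≤ ∑ i, l i := Finset.sum_le_sum fun i _ => hl i y hy
            have h3 := hs2 y hy
            have h4 : b * b * ∑ i, K P X n (xs i) y ≤ b * b * ∑ i, l i :=
              mul_le_mul_of_nonneg_left h2 (by positivity)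
            have h5 : (1 - q) * b * b * (s - C2) ≤ (1 - q) * b * b * K P X m x0 y :=
              mul_le_mul_of_nonneg_left h3
                (mul_nonneg (mul_nonneg (by linarith) hb.le) hb.le)
            rw [← hsg]
            nlinarith
    calc ∫⁻ x in Q, (∫⁻ ω, ee (tilt X b n xs ω + ((q - 1) * b) * S X m ω x0) *
          Dn P X b n ω x ∂P) ∂ν ≤ ∫⁻ x in Q, ee ((b ^ 2 * QF P X n xs +
          ((q - 1) * b) ^ 2 * K P X m x0 x0 +
      2 * ((q - 1) * b) * b * sg + 2 * b * b * (∑ i, l i) +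
      2 * ((q - 1) * b) * b * (s - C2)) / 2 + C + CD) ∂ν := setLIntegral_mono' hQ hin
      _ = _ := by rw [setLIntegral_const]
  calc (∫⁻ ω, w ω ∂P) ^ (1 - q) * (∫⁻ ω, z ω ∂P) ^ q
      ≤ (ee ((b ^ 2 * QF P X n xs + (q * b) ^ 2 * K P X m x0 x0 +
      2 * (q * b) * b * sg) / 2 + C)) ^ (1 - q) * (ee ((b ^ 2 * QF P X n xs +
        ((q - 1) * b) ^ 2 * K P X m x0 x0 +
      2 * ((q - 1) * b) * b * sg + 2 * b * b * (∑ i, l i) +
      2 * ((q - 1) * b) * b * (s - C2)) / 2 + C + CD) * ν Q) ^ q :=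
        mul_le_mul' (ENNReal.rpow_le_rpow hf1 (by linarith)) (ENNReal.rpow_le_rpow hf2 hq.le)
    _ ≤ _ := by
        rw [ENNReal.mul_rpow_of_nonneg _ _ hq.le, ee_rpow, ee_rpow, ← mul_assoc, ← ee_add]
        refine mul_le_mul_left (ee_mono ?_) _
        have hK : q * (1 - q) * b ^ 2 * K P X m x0 x0 ≤ q * (1 - q) * b ^ 2 * (s + |C2|) :=
          mul_le_mul_of_nonneg_left (by linarith)
            (mul_nonneg (mul_nonneg hq.le (by linarith)) hb2)
        have hK2 : q * (1 - q) * b ^ 2 * C2 ≤ q * (1 - q) * b ^ 2 * |C2| :=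
          mul_le_mul_of_nonneg_left hC2
            (mul_nonneg (mul_nonneg hq.le (by linarith)) hb2)
        have hK3 : q * (1 - q) * b ^ 2 * |C2| ≤ b ^ 2 * |C2| := by
          have : q * (1 - q) ≤ 1 := by nlinarith
          have h0 : 0 ≤ b ^ 2 * |C2| := by positivity
          nlinarith
        have hqCD : q * CD ≤ CD := by nlinarith
        have hqC : (1 - q) * C + q * C = C := by ring
        nlinarith

/-- Jensen for the mass. -/
lemma FieldHyp.mass_rpow_le (h : FieldHyp P X) (b : ℝ) (n : ℕ) (Q : Set T) {q : ℝ} (hq : 1 ≤ q)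
    (ω : Ω) :
    (mass P ν X b n Q ω) ^ q ≤ (ν Q) ^ (q - 1) * ∫⁻ y in Q, (Dn P X b n ω y) ^ q ∂ν := by
  have hq0 : 0 < q := by linarith
  have hm : Measurable fun y => (Dn P X b n ω y) ^ q := (h.Dn_meas_left b n ω).pow_const q
  have h1 := ENNReal.lintegral_mul_norm_pow_le (μ := ν.restrict Q)
    (f := fun y => (Dn P X b n ω y) ^ q) (g := fun _ => 1) hm.aemeasurable
    measurable_const.aemeasurable (p := 1 / q) (q := 1 - 1 / q) (by positivity)
    (by rw [sub_nonneg, div_le_one hq0]; exact hq) (by ring)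
  have h2 : ∀ y, ((Dn P X b n ω y) ^ q) ^ (1 / q) * (1 : ℝ≥0∞) ^ (1 - 1 / q) =
      Dn P X b n ω y := by
    intro y
    rw [ENNReal.one_rpow, mul_one, ← ENNReal.rpow_mul]
    have : q * (1 / q) = 1 := by field_simp
    rw [this, ENNReal.rpow_one]
  simp_rw [h2] at h1
  rw [lintegral_one, Measure.restrict_apply_univ] at h1
  calc (mass P ν X b n Q ω) ^ q ≤ ((∫⁻ y in Q, (Dn P X b n ω y) ^ q ∂ν) ^ (1 / q) *
        (ν Q) ^ (1 - 1 / q)) ^ q := ENNReal.rpow_le_rpow h1 hq0.le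
    _ = _ := by
        rw [ENNReal.mul_rpow_of_nonneg _ _ hq0.le, ← ENNReal.rpow_mul, ← ENNReal.rpow_mul]
        have e1 : 1 / q * q = 1 := by field_simp
        have e2 : (1 - 1 / q) * q = q - 1 := by field_simp
        rw [e1, e2, ENNReal.rpow_one, mul_comm]

/-- Jensen lemma for exponents `q ≥ 1`. -/
theorem FieldHyp.lemmaJ (h : FieldHyp P X) (N : ℕ) (b q C2 : ℝ) (hb : 0 < b) (hq : 1 ≤ q) :
    ∃ C : ℝ, ∀ (n : ℕ) (xs : Fin N → T) (Q : Set T) (s : ℝ) (l : Fin N → ℝ),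
      MeasurableSet Q → (∀ y ∈ Q, K P X n y y ≤ s + C2) →
      (∀ i, ∀ y ∈ Q, K P X n (xs i) y ≤ l i) →
      ∫⁻ ω, ee (tilt X b n xs ω) * (mass P ν X b n Q ω) ^ q ∂P ≤
        ee (b ^ 2 * QF P X n xs / 2 + b ^ 2 * q * (q - 1) * s / 2 + q * b ^ 2 * ∑ i, l i + C) *
          (ν Q) ^ q := by
  have hq0 : 0 < q := by linarith
  obtain ⟨C, hC, hgen⟩ := h.gen_ee N b (q * b) (by positivity)
    (by rw [abs_of_pos hb]; nlinarith)
  obtain ⟨CD, hCD, hD⟩ := h.Dn_bounds b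
  refine ⟨C + q * CD + b ^ 2 * q * (q - 1) * |C2| / 2, ?_⟩
  intro n xs Q s l hQ hs hl
  have hin : ∀ y ∈ Q, ∫⁻ ω, ee (tilt X b n xs ω) * (Dn P X b n ω y) ^ q ∂P ≤
      ee (b ^ 2 * QF P X n xs / 2 + b ^ 2 * q * (q - 1) * s / 2 + q * b ^ 2 * ∑ i, l i +
        (C + q * CD + b ^ 2 * q * (q - 1) * |C2| / 2)) := by
    intro y hy
    have h1 := (hgen xs y y n n 0 (q * b) le_rfl (by simp; positivity)
      (by rw [abs_of_pos (by positivity)])).1
    have hm : Measurable fun ω => ee (tilt X b n xs ω + 0 * S X n ω y + (q * b) * S X n ω y) :=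
      measurable_ee (((h.tilt_meas b n xs).add ((h.S_meas n y).const_mul _)).add
        ((h.S_meas n y).const_mul _))
    calc ∫⁻ ω, ee (tilt X b n xs ω) * (Dn P X b n ω y) ^ q ∂P
        ≤ ∫⁻ ω, ee (tilt X b n xs ω + 0 * S X n ω y + (q * b) * S X n ω y) *
          ee (q * CD - q * (b ^ 2 * K P X n y y / 2)) ∂P := by
          apply lintegral_mono
          intro ω
          simp only
          refine (mul_le_mul_right (ENNReal.rpow_le_rpow (hD n ω y).1 hq0.le) _).trans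
            (le_of_eq ?_)
          rw [ee_rpow, ← ee_add, ← ee_add]
          congr 1
          ring
      _ = (∫⁻ ω, ee (tilt X b n xs ω + 0 * S X n ω y + (q * b) * S X n ω y) ∂P) *
          ee (q * CD - q * (b ^ 2 * K P X n y y / 2)) := lintegral_mul_const _ hm
      _ ≤ _ := by
          refine (mul_le_mul_left h1 _).trans ?_
          rw [← ee_add]
          apply ee_mono
          have h2 : ∑ i, K P X n (xs i) y ≤ ∑ i, l i := Finset.sum_le_sum fun i _ => hl i y hy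
          have h4 : q * b * b * ∑ i, K P X n (xs i) y ≤ q * b * b * ∑ i, l i :=
            mul_le_mul_of_nonneg_left h2 (by positivity)
          have h5 : q * (q - 1) * b ^ 2 * K P X n y y ≤ q * (q - 1) * b ^ 2 * (s + |C2|) :=
            mul_le_mul_of_nonneg_left ((hs y hy).trans (by linarith [le_abs_self C2]))
              (mul_nonneg (mul_nonneg hq0.le (by linarith)) (sq_nonneg b))
          nlinarith
  have hjm : Measurable fun p : Ω × T => (Dn P X b n p.1 p.2) ^ q :=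
    ((h.Dn_meas_uncurry b n).comp measurable_swap).pow_const q
  have htm : Measurable fun ω => ee (tilt X b n xs ω) := measurable_ee (h.tilt_meas b n xs)
  have hIm : Measurable fun ω => ∫⁻ y in Q, (Dn P X b n ω y) ^ q ∂ν :=
    hjm.lintegral_prod_right'
  have hprodm : Measurable fun ω => ee (tilt X b n xs ω) *
      ∫⁻ y in Q, (Dn P X b n ω y) ^ q ∂ν := htm.mul hIm
  calc ∫⁻ ω, ee (tilt X b n xs ω) * (mass P ν X b n Q ω) ^ q ∂P
      ≤ ∫⁻ ω, ee (tilt X b n xs ω) * ((ν Q) ^ (q - 1) *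
        ∫⁻ y in Q, (Dn P X b n ω y) ^ q ∂ν) ∂P := by
        apply lintegral_mono
        intro ω
        exact mul_le_mul_right (h.mass_rpow_le ν b n Q hq ω) _
    _ = (ν Q) ^ (q - 1) * ∫⁻ ω, ee (tilt X b n xs ω) *
        ∫⁻ y in Q, (Dn P X b n ω y) ^ q ∂ν ∂P := by
        rw [← lintegral_const_mul _ hprodm]
        congr 1
        funext ω
        ring
    _ = (ν Q) ^ (q - 1) * ∫⁻ y in Q, (∫⁻ ω, ee (tilt X b n xs ω) *
        (Dn P X b n ω y) ^ q ∂P) ∂ν := by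
        congr 1
        have h1 : ∀ ω, ee (tilt X b n xs ω) * ∫⁻ y in Q, (Dn P X b n ω y) ^ q ∂ν =
            ∫⁻ y in Q, ee (tilt X b n xs ω) * (Dn P X b n ω y) ^ q ∂ν := by
          intro ω
          rw [lintegral_const_mul _ ((h.Dn_meas_left b n ω).pow_const q)]
        simp_rw [h1]
        apply lintegral_lintegral_swap
        exact ((htm.comp measurable_fst).mul hjm).aemeasurable
    _ ≤ (ν Q) ^ (q - 1) * ∫⁻ y in Q, ee (b ^ 2 * QF P X n xs / 2 +
        b ^ 2 * q * (q - 1) * s / 2 + q * b ^ 2 * ∑ i, l i +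
        (C + q * CD + b ^ 2 * q * (q - 1) * |C2| / 2)) ∂ν :=
        mul_le_mul_right (setLIntegral_mono' hQ hin) _
    _ = _ := by
        rw [setLIntegral_const, mul_comm, mul_assoc]
        congr 1
        rw [mul_comm]
        nth_rewrite 2 [← ENNReal.rpow_one (ν Q)]
        by_cases h0 : ν Q = 0
        · rw [h0, ENNReal.zero_rpow_of_pos hq0]
          simp
        · rw [← ENNReal.rpow_add _ _ h0 (measure_ne_top ν Q)]
          congr 1
          ring

/-- Both cases at the terminal scale `m = n`. -/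
theorem FieldHyp.lemmaT (h : FieldHyp P X) (N : ℕ) (b q C2 : ℝ) (hb : 0 < b) (hq : 0 < q) :
    ∃ C : ℝ, ∀ (n : ℕ) (xs : Fin N → T) (x0 : T) (Q : Set T) (s : ℝ) (l : Fin N → ℝ),
      MeasurableSet Q → (∀ y, K P X n y y ≤ s + C2) →
      (∀ y ∈ Q, s - C2 ≤ K P X n x0 y) →
      (∀ i, ∀ y ∈ Q, K P X n (xs i) y ≤ l i) →
      ∫⁻ ω, ee (tilt X b n xs ω) * (mass P ν X b n Q ω) ^ q ∂P ≤
        ee (b ^ 2 * QF P X n xs / 2 + b ^ 2 * q * (q - 1) * s / 2 + q * b ^ 2 * ∑ i, l i + C) *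
          (ν Q) ^ q := by
  rcases le_total q 1 with h1 | h1
  · obtain ⟨C, hC⟩ := h.lemmaH ν N b q C2 hb hq h1
    exact ⟨C, fun n xs x0 Q s l hQ hs1 hs2 hl => hC n n xs x0 Q s l hQ le_rfl (hs1 x0) hs2 hl⟩
  · obtain ⟨C, hC⟩ := h.lemmaJ ν N b q C2 hb h1
    exact ⟨C, fun n xs x0 Q s l hQ hs1 hs2 hl => hC n xs Q s l hQ (fun y _ => hs1 y) hl⟩

end

end Pool.Agent.Helper55.Chaos
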