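import Mathlib
import Pool.Agent.Helper55.Chaos.Mass

set_option autoImplicit false
set_option linter.unusedSectionVars false
set_option linter.unusedVariables false

open MeasureTheory ProbabilityTheory Finset
open scoped ENNReal

namespace Pool.Agent.Helper55.Chaos

lemma enn_sum_rpow_le (s : Finset ℕ) (a : ℕ → ℝ≥0∞) {p : ℝ}
    (hp : 0 < p) (hp1 : p ≤ 1) : (∑ i ∈ s, a i) ^ p ≤ ∑ i ∈ s, a i ^ p := by
  classical
  induction s using Finset.induction_on with
  | empty => simp [hp]
  | @insert i s hi ih =>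
    rw [Finset.sum_insert hi, Finset.sum_insert hi]
    refine (ENNReal.rpow_add_le_add_rpow _ _ hp.le hp1).trans ?_
    exact add_le_add le_rfl ih

/-- Geometric sums are uniformly bounded. -/
lemma geom_bound {e : ℝ} (he : 0 < e) :
    ∃ G : ℝ, 0 ≤ G ∧ ∀ J : ℕ, ∑ j ∈ range J, ee (-(j * e)) ≤ ee G := by
  have h1 : ∀ j : ℕ, ee (-(j * e)) = (ee (-e)) ^ j := by
    intro j
    rw [← ENNReal.rpow_natCast, ee_rpow]
    congr 1
    ring
  have hlt : ee (-e) < 1 := by
    rw [← ee_zero]
    refine lt_of_not_ge fun h => ?_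
    rw [ee_le_iff] at h
    linarith
  have hfin : (1 - ee (-e))⁻¹ ≠ ⊤ := by
    rw [Ne, ENNReal.inv_eq_top, tsub_eq_zero_iff_le, not_le]
    exact hlt
  refine ⟨max (Real.log ((1 - ee (-e))⁻¹).toReal) 0, le_max_right _ _, fun J => ?_⟩
  have hpos : 0 < ((1 - ee (-e))⁻¹).toReal := by
    apply ENNReal.toReal_pos _ hfin
    rw [Ne, ENNReal.inv_eq_zero]
    exact (lt_of_le_of_lt tsub_le_self ENNReal.one_lt_top).ne
  calc ∑ j ∈ range J, ee (-(j * e)) = ∑ j ∈ range J, (ee (-e)) ^ j :=
        Finset.sum_congr rfl fun j _ => h1 j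
    _ ≤ ∑' j : ℕ, (ee (-e)) ^ j := ENNReal.sum_le_tsum _
    _ = (1 - ee (-e))⁻¹ := ENNReal.tsum_geometric _
    _ = ee (Real.log ((1 - ee (-e))⁻¹).toReal) := by
        rw [ee_log hpos, ENNReal.ofReal_toReal hfin]
    _ ≤ _ := ee_mono (le_max_left _ _)

/-- Weighted power inequality. -/
lemma pow_sum_le {q e : ℝ} (hq : 0 < q) (he : 0 < e) :
    ∃ G : ℝ, 0 ≤ G ∧ ∀ (J : ℕ) (a : ℕ → ℝ≥0∞),
      (∑ j ∈ range J, a j) ^ q ≤ ee G * ∑ j ∈ range J, ee (j * e) * a j ^ q := by
  rcases le_or_gt q 1 with h1 | h1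
  · refine ⟨0, le_rfl, fun J a => ?_⟩
    rw [ee_zero, one_mul]
    refine (enn_sum_rpow_le _ a hq h1).trans (Finset.sum_le_sum fun j _ => ?_)
    calc a j ^ q = ee 0 * a j ^ q := by rw [ee_zero, one_mul]
      _ ≤ _ := mul_le_mul_left (ee_mono (by positivity)) _
  · have hconj : (q / (q - 1)).HolderConjugate q := by
      rw [Real.holderConjugate_iff]
      constructor
      · rw [one_lt_div (by linarith)]; linarith
      · have : q - 1 ≠ 0 := by linarith
        field_simp
        ring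
    obtain ⟨G, hG0, hG⟩ := geom_bound (e := e / (q - 1)) (div_pos he (by linarith))
    refine ⟨(q - 1) * G, mul_nonneg (by linarith) hG0, fun J a => ?_⟩
    have hh := ENNReal.inner_le_Lp_mul_Lq (range J) (fun j => ee (-(j * e / q)))
      (fun j => ee (j * e / q) * a j) hconj
    have e1 : ∀ j : ℕ, ee (-(j * e / q)) * (ee (j * e / q) * a j) = a j := by
      intro j
      rw [← mul_assoc, ← ee_add, neg_add_cancel, ee_zero, one_mul]
    have e2 : ∀ j : ℕ, ee (-(j * e / q)) ^ (q / (q - 1)) = ee (-(j * (e / (q - 1)))) := by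
      intro j
      rw [ee_rpow]
      congr 1
      have : q - 1 ≠ 0 := by linarith
      field_simp
    have e3 : ∀ j : ℕ, (ee (j * e / q) * a j) ^ q = ee (j * e) * a j ^ q := by
      intro j
      rw [ENNReal.mul_rpow_of_nonneg _ _ hq.le, ee_rpow]
      congr 2
      field_simp
    simp only [e1, e2, e3] at hh
    calc (∑ j ∈ range J, a j) ^ q
        ≤ ((∑ j ∈ range J, ee (-(j * (e / (q - 1))))) ^ (1 / (q / (q - 1))) *
          (∑ j ∈ range J, ee (j * e) * a j ^ q) ^ (1 / q)) ^ q :=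
          ENNReal.rpow_le_rpow hh hq.le
      _ ≤ ((ee G) ^ (1 / (q / (q - 1))) *
          (∑ j ∈ range J, ee (j * e) * a j ^ q) ^ (1 / q)) ^ q := by
          apply ENNReal.rpow_le_rpow _ hq.le
          refine mul_le_mul_left (ENNReal.rpow_le_rpow (hG J) ?_) _
          have : 0 < q - 1 := by linarith
          positivity
      _ = _ := by
          rw [ENNReal.mul_rpow_of_nonneg _ _ hq.le, ← ENNReal.rpow_mul, ← ENNReal.rpow_mul,
            ee_rpow]
          have e4 : 1 / q * q = 1 := by field_simp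
          have e5 : 1 / (q / (q - 1)) * q = q - 1 := by field_simp
          rw [e4, e5, ENNReal.rpow_one]

end Pool.Agent.Helper55.Chaos
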