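import Mathlib
import Pool.Agent.Helper55.Chaos.Holder
import Pool.Agent.Helper55.Chaos.Weights

set_option autoImplicit false
set_option linter.unusedSectionVars false
set_option linter.unusedVariables false

open MeasureTheory ProbabilityTheory Finset
open scoped ENNReal

namespace Pool.Agent.Helper55.Chaos

/-- `- log max(dist x y, r)`. -/
noncomputable def Lg {T : Type*} [MetricSpace T] (x y : T) (r : ℝ) : ℝ :=
  -Real.log (max (dist x y) r)

/-- The log-correlation hypotheses together with the volume bound. -/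
structure LogHyp {Ω T : Type*} [MeasurableSpace Ω] (P : Measure Ω) [MetricSpace T]
    [MeasurableSpace T] (X : ℕ → Ω → T → ℝ) (ν : Measure T) (d : ℝ) (σ : ℕ → ℝ)
    (δ C0 cv : ℝ) : Prop where
  dpos : 0 < d
  sig0 : σ 0 = 0
  mono : Monotone σ
  incr : ∀ n, σ (n + 1) ≤ σ n + C0
  top : Filter.Tendsto σ Filter.atTop Filter.atTop
  diag : ∀ n x, |K P X n x x - σ n| ≤ C0
  off : ∀ n x y, x ≠ y → dist x y ≤ δ →
    |K P X n x y - min (Real.log (1 / dist x y)) (σ n)| ≤ C0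
  vol : ∀ x r, 0 < r → ν (Metric.closedBall x r) ≤ ee (cv + d * Real.log r)

section
variable {Ω T : Type*} [MeasurableSpace Ω] {P : Measure Ω} [IsProbabilityMeasure P]
  [MetricSpace T] [SecondCountableTopology T] [MeasurableSpace T] [BorelSpace T] [Nonempty T]
  {X : ℕ → Ω → T → ℝ} {ν : Measure T} [IsFiniteMeasure ν] {d : ℝ} {σ : ℕ → ℝ} {δ C0 cv : ℝ}

lemma LogHyp.C0_nonneg (hl : LogHyp P X ν d σ δ C0 cv) : 0 ≤ C0 := by
  obtain ⟨x⟩ := (inferInstance : Nonempty T)
  exact (abs_nonneg _).trans (hl.diag 0 x)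

lemma LogHyp.K_Lg (hl : LogHyp P X ν d σ δ C0 cv) (n : ℕ) {x y : T} (hxy : dist x y ≤ δ) :
    |K P X n x y - Lg x y (Real.exp (-σ n))| ≤ C0 := by
  unfold Lg
  by_cases h : x = y
  · subst h
    rw [dist_self, max_eq_right (Real.exp_pos _).le, Real.log_exp, neg_neg]
    exact hl.diag n x
  · have h1 := hl.off n x y h hxy
    have hd : 0 < dist x y := dist_pos.2 h
    have h2 : -Real.log (max (dist x y) (Real.exp (-σ n))) =
        min (Real.log (1 / dist x y)) (σ n) := by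
      rw [one_div, Real.log_inv]
      rcases le_total (dist x y) (Real.exp (-σ n)) with h3 | h3
      · rw [max_eq_right h3, Real.log_exp, neg_neg, min_eq_right]
        have := Real.log_le_log hd h3
        rw [Real.log_exp] at this
        linarith
      · rw [max_eq_left h3, min_eq_left]
        have := Real.log_le_log (Real.exp_pos _) h3
        rw [Real.log_exp] at this
        linarith
    rw [h2]
    exact h1

lemma LogHyp.K_le_sig (hl : LogHyp P X ν d σ δ C0 cv) (n : ℕ) {x y : T} (hxy : dist x y ≤ δ) :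
    K P X n x y ≤ σ n + C0 := by
  have h1 := (abs_le.1 (hl.K_Lg n hxy)).2
  have h2 : Lg x y (Real.exp (-σ n)) ≤ σ n := by
    unfold Lg
    have := Real.log_le_log (Real.exp_pos _) (le_max_right (dist x y) (Real.exp (-σ n)))
    rw [Real.log_exp] at this
    linarith
  linarith

/-- Lower bound for close points. -/
lemma LogHyp.K_ge (hl : LogHyp P X ν d σ δ C0 cv) (n : ℕ) {x y : T} (hxy : dist x y ≤ δ)
    {r : ℝ} (hr : 0 < r) (h1 : dist x y ≤ 2 * r) (h2 : Real.exp (-σ n) ≤ r) :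
    -Real.log r - Real.log 2 - C0 ≤ K P X n x y := by
  have h3 := (abs_le.1 (hl.K_Lg n hxy)).1
  have h4 : -Real.log r - Real.log 2 ≤ Lg x y (Real.exp (-σ n)) := by
    unfold Lg
    have : max (dist x y) (Real.exp (-σ n)) ≤ 2 * r := max_le h1 (by linarith)
    have := Real.log_le_log (lt_of_lt_of_le (Real.exp_pos _) (le_max_right _ _)) this
    rw [Real.log_mul two_ne_zero hr.ne'] at this
    linarith
  linarith

/-- Comparison of the logarithmic kernels. -/
lemma log_dist_le {z x x0 : T} {r : ℝ} (hr : 0 < r) (h1 : r ≤ dist z x) (h2 : dist x0 x ≤ 2 * r) :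
    -Real.log (dist z x) ≤ Lg z x0 r + Real.log 3 := by
  unfold Lg
  have hd : 0 < dist z x := lt_of_lt_of_le hr h1
  have h3 : max (dist z x0) r ≤ 3 * dist z x := by
    apply max_le
    · have := dist_triangle z x x0
      rw [dist_comm x x0] at this
      linarith
    · linarith
  have h4 := Real.log_le_log (lt_of_lt_of_le hr (le_max_right _ _)) h3
  rw [Real.log_mul (by norm_num) hd.ne'] at h4
  linarith

lemma LogHyp.K_le_log (hl : LogHyp P X ν d σ δ C0 cv) (n : ℕ) {x y : T} (hxy : dist x y ≤ δ)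
    (h : 0 < dist x y) : K P X n x y ≤ -Real.log (dist x y) + C0 := by
  have h1 := (abs_le.1 (hl.K_Lg n hxy)).2
  have h2 : Lg x y (Real.exp (-σ n)) ≤ -Real.log (dist x y) := by
    unfold Lg
    have := Real.log_le_log h (le_max_left (dist x y) (Real.exp (-σ n)))
    linarith
  linarith

lemma LogHyp.vol_rpow (hl : LogHyp P X ν d σ δ C0 cv) {Q : Set T} {x0 : T} {r q : ℝ}
    (hr : 0 < r) (hq : 0 ≤ q) (hQ : ∀ y ∈ Q, dist x0 y ≤ 2 * r) :
    (ν Q) ^ q ≤ ee (q * (cv + d * (Real.log 2 + Real.log r))) := by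
  rw [← ee_rpow]
  apply ENNReal.rpow_le_rpow _ hq
  have h1 : Q ⊆ Metric.closedBall x0 (2 * r) := by
    intro y hy
    rw [Metric.mem_closedBall, dist_comm]
    exact hQ y hy
  have h2 := (measure_mono h1).trans (hl.vol x0 (2 * r) (by linarith))
  rwa [Real.log_mul two_ne_zero hr.ne'] at h2

/-- The main estimate as a statement about `(q, N)`. -/
def Claim (P : Measure Ω) (X : ℕ → Ω → T → ℝ) (ν : Measure T) (d : ℝ) (σ : ℕ → ℝ) (U : Set T)
    (b q : ℝ) (N : ℕ) : Prop :=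
  ∃ C : ℝ, ∀ (n : ℕ) (r : ℝ) (xs : Fin N → T) (x0 : T) (Q : Set T), MeasurableSet Q →
    0 < r → r ≤ 1 → Real.exp (-σ n) ≤ r → x0 ∈ U → (∀ i, xs i ∈ U) → Q ⊆ U →
    (∀ y ∈ Q, dist x0 y ≤ 2 * r) → (∀ i, ∀ y ∈ Q, r ≤ dist (xs i) y) →
    ∫⁻ ω, ee (tilt X b n xs ω) * (mass P ν X b n Q ω) ^ q ∂P ≤
      ee (b ^ 2 * QF P X n xs / 2 + q * b ^ 2 * ∑ i, Lg (xs i) x0 r +
        (d * q - b ^ 2 * q * (q - 1) / 2) * Real.log r + C)

/-- The terminal estimate. -/
def TClaim (P : Measure Ω) (X : ℕ → Ω → T → ℝ) (ν : Measure T) (d : ℝ) (σ : ℕ → ℝ) (U : Set T)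
    (b q : ℝ) (N : ℕ) : Prop :=
  ∃ C : ℝ, ∀ (n : ℕ) (xs : Fin N → T) (x0 : T) (Q : Set T) (l : Fin N → ℝ), MeasurableSet Q →
    x0 ∈ U → Q ⊆ U →
    (∀ y ∈ Q, dist x0 y ≤ 2 * Real.exp (-σ n)) → (∀ i, ∀ y ∈ Q, K P X n (xs i) y ≤ l i) →
    ∫⁻ ω, ee (tilt X b n xs ω) * (mass P ν X b n Q ω) ^ q ∂P ≤
      ee (b ^ 2 * QF P X n xs / 2 + q * b ^ 2 * ∑ i, l i -
        (d * q - b ^ 2 * q * (q - 1) / 2) * σ n + C)

theorem FieldHyp.tclaim (h : FieldHyp P X) (hl : LogHyp P X ν d σ δ C0 cv) {U : Set T}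
    (hU : ∀ x ∈ U, ∀ y ∈ U, dist x y ≤ δ) {b q : ℝ} (hb : 0 < b) (hq : 0 < q) (N : ℕ) :
    TClaim P X ν d σ U b q N := by
  obtain ⟨C, hC⟩ := h.lemmaT ν N b q (C0 + Real.log 2) hb hq
  have hlog2 : 0 < Real.log 2 := Real.log_pos (by norm_num)
  refine ⟨C + q * (cv + d * Real.log 2), ?_⟩
  intro n xs x0 Q l hQ hx0 hQU hQ0 hQl
  have h1 := hC n xs x0 Q (σ n) l hQ
    (fun y => by have := (abs_le.1 (hl.diag n y)).2; linarith)
    (fun y hy => by
      have := hl.K_ge n (hU x0 hx0 y (hQU hy)) (Real.exp_pos _) (hQ0 y hy) le_rfl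
      rw [Real.log_exp] at this
      linarith) hQl
  refine h1.trans ?_
  have h2 := hl.vol_rpow (Real.exp_pos (-σ n)) hq.le hQ0
  rw [Real.log_exp] at h2
  refine (mul_le_mul_right h2 _).trans ?_
  rw [← ee_add]
  apply ee_mono
  apply le_of_eq
  ring

/-- The base case `q ≤ 1`. -/
theorem FieldHyp.claim_base (h : FieldHyp P X) (hl : LogHyp P X ν d σ δ C0 cv) {U : Set T}
    (hU : ∀ x ∈ U, ∀ y ∈ U, dist x y ≤ δ) {b q : ℝ} (hb : 0 < b) (hq : 0 < q) (hq1 : q ≤ 1)
    (N : ℕ) : Claim P X ν d σ U b q N := by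
  have hlog2 : 0 < Real.log 2 := Real.log_pos (by norm_num)
  have hC0 := hl.C0_nonneg
  obtain ⟨C, hC⟩ := h.lemmaH ν N b q (C0 + C0 + Real.log 2) hb hq hq1
  refine ⟨C + q * (cv + d * Real.log 2) + q * b ^ 2 * (N * (Real.log 3 + C0)), ?_⟩
  intro n r xs x0 Q hQ hr hr1 hnr hx0 hxs hQU hQ0 hQx
  -- choose the level `m`
  have hex : ∃ m, -Real.log r ≤ σ m := by
    refine ⟨n, ?_⟩
    have := Real.log_le_log (Real.exp_pos _) hnr
    rw [Real.log_exp] at this
    linarith
  classical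
  set m := Nat.find hex with hm
  have hm1 : -Real.log r ≤ σ m := Nat.find_spec hex
  have hmn : m ≤ n := by
    apply Nat.find_min' hex
    have := Real.log_le_log (Real.exp_pos _) hnr
    rw [Real.log_exp] at this
    linarith
  have hm2 : σ m ≤ -Real.log r + C0 := by
    rcases Nat.eq_zero_or_pos m with h0 | h0
    · rw [h0, hl.sig0]
      have := Real.log_nonpos hr.le hr1
      linarith
    · obtain ⟨k, hk⟩ : ∃ k, m = k + 1 := ⟨m - 1, by omega⟩
      have h3 : ¬ (-Real.log r ≤ σ k) := Nat.find_min hex (by omega)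
      push Not at h3
      have := hl.incr k
      rw [hk]; linarith
  have hmr : Real.exp (-σ m) ≤ r := by
    calc Real.exp (-σ m) ≤ Real.exp (Real.log r) := Real.exp_le_exp.2 (by linarith)
      _ = r := Real.exp_log hr
  have h1 := hC n m xs x0 Q (σ m) (fun i => Lg (xs i) x0 r + (Real.log 3 + C0)) hQ hmn
    (by have := (abs_le.1 (hl.diag m x0)).2; linarith)
    (fun y hy => by
      have := hl.K_ge m (hU x0 hx0 y (hQU hy)) hr (hQ0 y hy) hmr
      linarith)
    (fun i y hy => by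
      have h2 := hQx i y hy
      have h3 := hl.K_le_log n (hU _ (hxs i) y (hQU hy)) (lt_of_lt_of_le hr h2)
      have h4 := log_dist_le hr h2 (hQ0 y hy)
      linarith)
  refine h1.trans ?_
  refine (mul_le_mul_right (hl.vol_rpow hr hq.le hQ0) _).trans ?_
  rw [← ee_add]
  apply ee_mono
  rw [Finset.sum_add_distrib]
  simp only [Finset.sum_const, Finset.card_univ, Fintype.card_fin, nsmul_eq_mul]
  have h5 : b ^ 2 * q * (1 - q) * (-Real.log r) ≤ b ^ 2 * q * (1 - q) * σ m :=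
    mul_le_mul_of_nonneg_left hm1 (mul_nonneg (by positivity) (by linarith))
  nlinarith

end

end Pool.Agent.Helper55.Chaos
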