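import Mathlib
import Pool.Agent.Helper55.Chaos.Upper

set_option autoImplicit false
set_option linter.unusedSectionVars false
set_option linter.unusedVariables false

open MeasureTheory ProbabilityTheory Finset
open scoped ENNReal

namespace Pool.Agent.Helper55.Chaos

section
variable {Ω T : Type*} [MeasurableSpace Ω] {P : Measure Ω} [IsProbabilityMeasure P]
  [MetricSpace T] [SecondCountableTopology T] [MeasurableSpace T] [BorelSpace T] [Nonempty T]
  {X : ℕ → Ω → T → ℝ} {ν : Measure T} [IsFiniteMeasure ν] {d : ℝ} {σ : ℕ → ℝ} {δ C0 cv : ℝ}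

lemma tilt_cons (b : ℝ) (n : ℕ) {N : ℕ} (x : T) (xs : Fin N → T) (ω : Ω) :
    tilt X b n (Fin.cons x xs : Fin (N + 1) → T) ω = b * S X n ω x + tilt X b n xs ω := by
  unfold tilt
  rw [Fin.sum_univ_succ]
  simp only [Fin.cons_zero, Fin.cons_succ]

lemma QF_cons (n : ℕ) {N : ℕ} (x : T) (xs : Fin N → T) :
    QF P X n (Fin.cons x xs : Fin (N + 1) → T) =
      K P X n x x + 2 * ∑ i, K P X n (xs i) x + QF P X n xs := by
  unfold QF
  rw [Fin.sum_univ_succ]
  simp only [Fin.sum_univ_succ, Fin.cons_zero, Fin.cons_succ, Finset.sum_add_distrib]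
  have e1 : ∑ i, K P X n x (xs i) = ∑ i, K P X n (xs i) x :=
    Finset.sum_congr rfl fun i _ => K_symm _ _ _
  rw [e1]
  ring

/-- The mass of a set covered by finitely many sets. -/
lemma FieldHyp.mass_le_sum (h : FieldHyp P X) (b : ℝ) (n : ℕ) (Q : Set T) (hQ : MeasurableSet Q)
    (piece : ℕ → Set T) (hpm : ∀ j, MeasurableSet (piece j)) (J : ℕ)
    (hcov : Q ⊆ ⋃ j ∈ range J, piece j) (ω : Ω) :
    mass P ν X b n Q ω ≤ ∑ j ∈ range J, mass P ν X b n (piece j) ω := by
  unfold mass
  rw [← withDensity_apply _ hQ]
  have : ∀ j, ∫⁻ x in piece j, Dn P X b n ω x ∂ν =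
      (ν.withDensity fun x => Dn P X b n ω x) (piece j) := fun j =>
    (withDensity_apply _ (hpm j)).symm
  simp_rw [this]
  exact (measure_mono hcov).trans (measure_biUnion_finset_le _ _)

/-- The recursion. -/
theorem FieldHyp.claim_step (h : FieldHyp P X) (hl : LogHyp P X ν d σ δ C0 cv) {U : Set T}
    (hU : ∀ x ∈ U, ∀ y ∈ U, dist x y ≤ δ) {b q : ℝ} (hb : 0 < b) (hq : 0 < q)
    (hk : 0 < d - b ^ 2 * (q + 1) / 2) (N : ℕ)
    (hc : Claim P X ν d σ U b q (N + 1)) (ht : TClaim P X ν d σ U b q (N + 1)) :
    Claim P X ν d σ U b (q + 1) N := by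
  classical
  have hlog2 : 0 < Real.log 2 := Real.log_pos (by norm_num)
  have hlog3 : 0 < Real.log 3 := Real.log_pos (by norm_num)
  have hC0 := hl.C0_nonneg
  obtain ⟨C1, hC1⟩ := hc
  obtain ⟨C2, hC2⟩ := ht
  obtain ⟨CD, hCD0, hD⟩ := h.Dn_bounds b
  set κ : ℝ := q * (d - b ^ 2 * (q + 1) / 2) with hκ
  have hκ0 : 0 < κ := mul_pos hq hk
  set e : ℝ := κ * Real.log 2 / 2 with he
  have he0 : 0 < e := by positivity
  obtain ⟨G, hG0, hG⟩ := pow_sum_le hq he0
  obtain ⟨G2, hG20, hG2⟩ := geom_bound he0
  set c1 : ℝ := N * (Real.log 3 + C0) with hc1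
  have hc10 : 0 ≤ c1 := by positivity
  set C3 : ℝ := |C1| + |C2| + b ^ 2 * c1 + q * b ^ 2 * (C0 + c1) + κ * Real.log 2 with hC3
  have hb2 : 0 < b ^ 2 := by positivity
  refine ⟨CD + G + C3 + G2 + (cv + d * Real.log 2), ?_⟩
  intro n r xs x0 Q hQ hr hr1 hnr hx0 hxs hQU hQ0 hQx
  set SL : ℝ := ∑ i, Lg (xs i) x0 r with hSL
  set A0 : ℝ := b ^ 2 * QF P X n xs / 2 + (q + 1) * b ^ 2 * SL with hA0
  -- the pointwise estimate
  have hmain : ∀ x ∈ Q, ∫⁻ ω, (ee (tilt X b n xs ω) * (mass P ν X b n Q ω) ^ q) *
      Dn P X b n ω x ∂P ≤ ee (CD + G + A0 + κ * Real.log r + C3 + G2) := by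
    intro x hx
    have hxU : x ∈ U := hQU hx
    set xs' : Fin (N + 1) → T := Fin.cons x xs with hxs'
    have hxs'U : ∀ i, xs' i ∈ U := by
      intro i
      refine Fin.cases ?_ (fun i => ?_) i
      · simpa [hxs'] using hxU
      · simpa [hxs'] using hxs i
    set SK : ℝ := ∑ i, K P X n (xs i) x with hSK
    have hKi : ∀ i, K P X n (xs i) x ≤ Lg (xs i) x0 r + (Real.log 3 + C0) := by
      intro i
      have h2 := hQx i x hx
      have h3 := hl.K_le_log n (hU _ (hxs i) x hxU) (lt_of_lt_of_le hr h2)
      have h4 := log_dist_le hr h2 (hQ0 x hx)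
      linarith
    have hSKle : SK ≤ SL + c1 := by
      calc SK ≤ ∑ i, (Lg (xs i) x0 r + (Real.log 3 + C0)) := Finset.sum_le_sum fun i _ => hKi i
        _ = SL + c1 := by
          rw [Finset.sum_add_distrib, Finset.sum_const, Finset.card_univ, Fintype.card_fin,
            nsmul_eq_mul]
    have hSKb : b ^ 2 * SK ≤ b ^ 2 * (SL + c1) := mul_le_mul_of_nonneg_left hSKle hb2.le
    have hQF : QF P X n xs' = K P X n x x + 2 * SK + QF P X n xs := QF_cons n x xs
    -- the scales
    set rj : ℕ → ℝ := fun j => r * (1 / 2) ^ j with hrj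
    have hrj0 : ∀ j, 0 < rj j := fun j => by simp only [hrj]; positivity
    have hrjlog : ∀ j, Real.log (rj j) = Real.log r - j * Real.log 2 := by
      intro j
      simp only [hrj]
      rw [Real.log_mul hr.ne' (by positivity), Real.log_pow, one_div, Real.log_inv]
      ring
    have hrjsucc : ∀ j, 2 * rj (j + 1) = rj j := by
      intro j; simp only [hrj]; rw [pow_succ]; ring
    have hrjle : ∀ j, rj j ≤ r := by
      intro j
      simp only [hrj]
      have : (1 / 2 : ℝ) ^ j ≤ 1 := pow_le_one₀ (by norm_num) (by norm_num)
      nlinarith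
    have hex : ∃ J, rj J < Real.exp (-σ n) := by
      obtain ⟨J, hJ⟩ := exists_pow_lt_of_lt_one (show 0 < Real.exp (-σ n) / r by positivity)
        (show (1 / 2 : ℝ) < 1 by norm_num)
      refine ⟨J, ?_⟩
      simp only [hrj]
      rw [lt_div_iff₀ hr] at hJ
      linarith
    set J := Nat.find hex with hJdef
    have hJ1 : rj J < Real.exp (-σ n) := Nat.find_spec hex
    have hJpos : 0 < J := by
      rcases Nat.eq_zero_or_pos J with h0 | h0
      · exfalso
        rw [h0] at hJ1
        simp only [hrj, pow_zero, mul_one] at hJ1
        linarith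
      · exact h0
    have hJlt : ∀ j, j < J → Real.exp (-σ n) ≤ rj j := fun j hj => by
      have := Nat.find_min hex hj
      push Not at this
      exact this
    -- the pieces
    set piece : ℕ → Set T := fun j =>
      if j = 0 then Q ∩ {y | r < dist x y}
      else if j < J then Q ∩ {y | rj j < dist x y ∧ dist x y ≤ 2 * rj j}
      else Q ∩ {y | dist x y ≤ 2 * rj J} with hpiece
    have hdm : Measurable fun y : T => dist x y := (continuous_const.dist continuous_id).measurable
    have hpm : ∀ j, MeasurableSet (piece j) := by
      intro j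
      simp only [hpiece]
      split_ifs
      · exact hQ.inter (measurableSet_lt measurable_const hdm)
      · exact hQ.inter ((measurableSet_lt measurable_const hdm).inter
          (measurableSet_le hdm measurable_const))
      · exact hQ.inter (measurableSet_le hdm measurable_const)
    have hcov : Q ⊆ ⋃ j ∈ range (J + 1), piece j := by
      intro y hy
      simp only [Set.mem_iUnion, Finset.mem_range, exists_prop]
      by_cases h1 : r < dist x y
      · exact ⟨0, by omega, by simp only [hpiece, if_true]; exact ⟨hy, h1⟩⟩
      · push Not at h1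
        by_cases h2 : dist x y ≤ 2 * rj J
        · refine ⟨J, by omega, ?_⟩
          simp only [hpiece, hJpos.ne', if_false, lt_irrefl]
          exact ⟨hy, h2⟩
        · push Not at h2
          have hex2 : ∃ j, rj j < dist x y := ⟨J, by have := hrj0 J; linarith⟩
          have h3 : rj (Nat.find hex2) < dist x y := Nat.find_spec hex2
          have h4 : Nat.find hex2 < J := by
            obtain ⟨J', hJ'⟩ : ∃ J', J = J' + 1 := ⟨J - 1, by omega⟩
            have h5 : rj J' < dist x y := by
              rw [hJ', hrjsucc] at h2; exact h2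
            have := Nat.find_min' hex2 h5
            omega
          have h6 : 0 < Nat.find hex2 := by
            rcases Nat.eq_zero_or_pos (Nat.find hex2) with h0 | h0
            · exfalso
              rw [h0] at h3
              simp only [hrj, pow_zero, mul_one] at h3
              linarith
            · exact h0
          refine ⟨Nat.find hex2, by omega, ?_⟩
          simp only [hpiece, h6.ne', if_false, h4, if_true]
          refine ⟨hy, h3, ?_⟩
          obtain ⟨j', hj'⟩ : ∃ j', Nat.find hex2 = j' + 1 := ⟨Nat.find hex2 - 1, by omega⟩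
          have h7 : ¬ (rj j' < dist x y) := Nat.find_min hex2 (by omega)
          push Not at h7
          rw [hj', hrjsucc]
          exact h7
    have hmass := h.mass_le_sum (ν := ν) b n Q hQ piece hpm (J + 1) hcov
    -- the estimate for each piece
    have hpc : ∀ j ∈ range (J + 1),
        ∫⁻ ω, ee (tilt X b n xs' ω) * (mass P ν X b n (piece j) ω) ^ q ∂P ≤
          ee (b ^ 2 * K P X n x x / 2 + A0 + κ * (Real.log r - j * Real.log 2) + C3) := by
      intro j hj
      rw [Finset.mem_range] at hj
      have hC1' := le_abs_self C1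
      have hC2' := le_abs_self C2
      have hC1n := abs_nonneg C1
      have hC2n := abs_nonneg C2
      have hqb : 0 ≤ q * b ^ 2 := by positivity
      have hnn1 : 0 ≤ q * b ^ 2 * (C0 + c1) := by positivity
      have hnn2 : 0 ≤ κ * Real.log 2 := by positivity
      have hnn3 : 0 ≤ b ^ 2 * c1 := by positivity
      by_cases hj0 : j = 0
      · subst hj0
        have hp0 : piece 0 = Q ∩ {y | r < dist x y} := by simp only [hpiece, if_true]
        have h1 := hC1 n r xs' x0 (piece 0) (hpm 0) hr hr1 hnr hx0 hxs'U
          (by rw [hp0]; exact fun y hy => hQU hy.1)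
          (by rw [hp0]; exact fun y hy => hQ0 y hy.1)
          (by
            rw [hp0]
            intro i y hy
            refine Fin.cases ?_ (fun i => ?_) i
            · simp only [hxs', Fin.cons_zero]; exact le_of_lt hy.2
            · simp only [hxs', Fin.cons_succ]; exact hQx i y hy.1)
        refine h1.trans (ee_mono ?_)
        rw [hQF, Fin.sum_univ_succ]
        simp only [hxs', Fin.cons_zero, Fin.cons_succ, ← hSL]
        have h2 : Lg x x0 r ≤ -Real.log r := by
          unfold Lg
          have := Real.log_le_log hr (le_max_right (dist x x0) r)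
          linarith
        have h3 : q * b ^ 2 * Lg x x0 r ≤ q * b ^ 2 * (-Real.log r) :=
          mul_le_mul_of_nonneg_left h2 hqb
        rw [hκ] at hnn2
        rw [hC3, hA0, hκ]
        push_cast
        linarith
      · by_cases hjJ : j < J
        · have hp0 : piece j = Q ∩ {y | rj j < dist x y ∧ dist x y ≤ 2 * rj j} := by
            simp only [hpiece, hj0, if_false, hjJ, if_true]
          have h1 := hC1 n (rj j) xs' x (piece j) (hpm j) (hrj0 j) ((hrjle j).trans hr1)
            (hJlt j hjJ) hxU hxs'U
            (by rw [hp0]; exact fun y hy => hQU hy.1)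
            (by rw [hp0]; exact fun y hy => hy.2.2)
            (by
              rw [hp0]
              intro i y hy
              refine Fin.cases ?_ (fun i => ?_) i
              · simp only [hxs', Fin.cons_zero]; exact le_of_lt hy.2.1
              · simp only [hxs', Fin.cons_succ]; exact (hrjle j).trans (hQx i y hy.1))
          refine h1.trans (ee_mono ?_)
          rw [hQF, Fin.sum_univ_succ]
          simp only [hxs', Fin.cons_zero, Fin.cons_succ]
          have h2 : Lg x x (rj j) = -Real.log (rj j) := by
            unfold Lg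
            rw [dist_self, max_eq_right (hrj0 j).le]
          have h4 : ∑ i, Lg (xs i) x (rj j) ≤ SL + c1 := by
            have : ∀ i, Lg (xs i) x (rj j) ≤ Lg (xs i) x0 r + (Real.log 3 + C0) := by
              intro i
              have h5 := hQx i x hx
              have h6 := log_dist_le hr h5 (hQ0 x hx)
              have h7 : Lg (xs i) x (rj j) ≤ -Real.log (dist (xs i) x) := by
                unfold Lg
                have := Real.log_le_log (lt_of_lt_of_le hr h5)
                  (le_max_left (dist (xs i) x) (rj j))
                linarith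
              linarith
            calc ∑ i, Lg (xs i) x (rj j) ≤ ∑ i, (Lg (xs i) x0 r + (Real.log 3 + C0)) :=
                  Finset.sum_le_sum fun i _ => this i
              _ = SL + c1 := by
                rw [Finset.sum_add_distrib, Finset.sum_const, Finset.card_univ, Fintype.card_fin,
                  nsmul_eq_mul]
          have h5 : q * b ^ 2 * ∑ i, Lg (xs i) x (rj j) ≤ q * b ^ 2 * (SL + c1) :=
            mul_le_mul_of_nonneg_left h4 hqb
          have h6 : 0 ≤ q * b ^ 2 * C0 := by positivity
          rw [hκ] at hnn2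
          rw [h2, hrjlog j, hC3, hA0, hκ]
          linarith
        · obtain rfl : j = J := by omega
          have hp0 : piece J = Q ∩ {y | dist x y ≤ 2 * rj J} := by
            simp only [hpiece, hJpos.ne', if_false, lt_irrefl]
          have h1 := hC2 n xs' x (piece J)
            (Fin.cons (σ n + C0) (fun i => Lg (xs i) x0 r + (Real.log 3 + C0)))
            (hpm J) hxU
            (by rw [hp0]; exact fun y hy => hQU hy.1)
            (by
              rw [hp0]
              intro y hy
              have : dist x y ≤ 2 * rj J := hy.2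
              linarith)
            (by
              rw [hp0]
              intro i y hy
              refine Fin.cases ?_ (fun i => ?_) i
              · simp only [hxs', Fin.cons_zero]
                exact hl.K_le_sig n (hU x hxU y (hQU hy.1))
              · simp only [hxs', Fin.cons_succ]
                have h2 := hQx i y hy.1
                have h3 := hl.K_le_log n (hU _ (hxs i) y (hQU hy.1)) (lt_of_lt_of_le hr h2)
                have h4 := log_dist_le hr h2 (hQ0 y hy.1)
                linarith)
          refine h1.trans (ee_mono ?_)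
          rw [hQF, Fin.sum_univ_succ]
          simp only [Fin.cons_zero, Fin.cons_succ]
          have h4 : ∑ i, (Lg (xs i) x0 r + (Real.log 3 + C0)) = SL + c1 := by
            rw [Finset.sum_add_distrib, Finset.sum_const, Finset.card_univ, Fintype.card_fin,
              nsmul_eq_mul]
          rw [h4]
          have h5 : -σ n ≤ Real.log r - J * Real.log 2 + Real.log 2 := by
            obtain ⟨J', hJ'⟩ : ∃ J', J = J' + 1 := ⟨J - 1, by omega⟩
            have h6 := hJlt J' (by omega)
            have h7 := Real.log_le_log (Real.exp_pos _) h6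
            rw [Real.log_exp, hrjlog] at h7
            rw [hJ']
            push_cast
            linarith
          have h6 : κ * (-σ n) ≤ κ * (Real.log r - J * Real.log 2 + Real.log 2) :=
            mul_le_mul_of_nonneg_left h5 hκ0.le
          rw [hC3, hA0]
          rw [hκ] at h6 hnn2 ⊢
          linarith
    -- assemble
    have hmS : ∀ j, Measurable fun ω => ee (tilt X b n xs' ω) *
        (mass P ν X b n (piece j) ω) ^ q := fun j =>
      (measurable_ee (h.tilt_meas b n xs')).mul ((h.mass_meas ν b n (piece j)).pow_const q)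
    calc ∫⁻ ω, (ee (tilt X b n xs ω) * (mass P ν X b n Q ω) ^ q) * Dn P X b n ω x ∂P
        ≤ ∫⁻ ω, ee (CD - b ^ 2 * K P X n x x / 2 + G) * ∑ j ∈ range (J + 1),
          ee (j * e) * (ee (tilt X b n xs' ω) * (mass P ν X b n (piece j) ω) ^ q) ∂P := by
          apply lintegral_mono
          intro ω
          simp only
          calc (ee (tilt X b n xs ω) * (mass P ν X b n Q ω) ^ q) * Dn P X b n ω x
              ≤ (ee (tilt X b n xs ω) * (∑ j ∈ range (J + 1),
                mass P ν X b n (piece j) ω) ^ q) *
                ee (b * S X n ω x - b ^ 2 * K P X n x x / 2 + CD) :=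
                mul_le_mul' (mul_le_mul_right (ENNReal.rpow_le_rpow (hmass ω) hq.le) _)
                  (hD n ω x).1
            _ ≤ (ee (tilt X b n xs ω) * (ee G * ∑ j ∈ range (J + 1), ee (j * e) *
                (mass P ν X b n (piece j) ω) ^ q)) *
                ee (b * S X n ω x - b ^ 2 * K P X n x x / 2 + CD) :=
                mul_le_mul_left (mul_le_mul_right (hG (J + 1) _) _) _
            _ = _ := by
                have e1 : ee (tilt X b n xs' ω) = ee (b * S X n ω x) * ee (tilt X b n xs ω) := by
                  rw [← ee_add, hxs', tilt_cons]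
                have e2 : ee (b * S X n ω x - b ^ 2 * K P X n x x / 2 + CD) =
                    ee (b * S X n ω x) * ee (CD - b ^ 2 * K P X n x x / 2) := by
                  rw [← ee_add]; congr 1; ring
                rw [e1, e2, ee_add _ G]
                have e3 : ∀ j : ℕ, ee (j * e) * (ee (b * S X n ω x) * ee (tilt X b n xs ω) *
                    (mass P ν X b n (piece j) ω) ^ q) = (ee (b * S X n ω x) *
                    ee (tilt X b n xs ω)) * (ee (j * e) * (mass P ν X b n (piece j) ω) ^ q) := by
                  intro j; ring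
                simp_rw [e3]
                rw [← Finset.mul_sum]
                ring
      _ = ee (CD - b ^ 2 * K P X n x x / 2 + G) * ∑ j ∈ range (J + 1), ee (j * e) *
          ∫⁻ ω, ee (tilt X b n xs' ω) * (mass P ν X b n (piece j) ω) ^ q ∂P := by
          rw [lintegral_const_mul]
          · congr 1
            rw [lintegral_finsetSum]
            · refine Finset.sum_congr rfl fun j _ => ?_
              rw [lintegral_const_mul _ (hmS j)]
            · exact fun j _ => (hmS j).const_mul _
          · exact Finset.measurable_sum _ fun j _ => (hmS j).const_mul _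
      _ ≤ ee (CD - b ^ 2 * K P X n x x / 2 + G) * ∑ j ∈ range (J + 1), ee (j * e) *
          ee (b ^ 2 * K P X n x x / 2 + A0 + κ * (Real.log r - j * Real.log 2) + C3) := by
          refine mul_le_mul_right (Finset.sum_le_sum fun j hj => ?_) _
          exact mul_le_mul_right (hpc j hj) _
      _ = ee (CD + G + A0 + κ * Real.log r + C3) * ∑ j ∈ range (J + 1), ee (-(j * e)) := by
          rw [Finset.mul_sum, Finset.mul_sum]
          refine Finset.sum_congr rfl fun j _ => ?_
          rw [← ee_add, ← ee_add, ← ee_add]
          congr 1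
          rw [he]
          ring
      _ ≤ ee (CD + G + A0 + κ * Real.log r + C3) * ee G2 := mul_le_mul_right (hG2 _) _
      _ = _ := by rw [← ee_add]
  -- integrate over `Q`
  have hgm : Measurable fun ω => ee (tilt X b n xs ω) * (mass P ν X b n Q ω) ^ q :=
    (measurable_ee (h.tilt_meas b n xs)).mul ((h.mass_meas ν b n Q).pow_const q)
  calc ∫⁻ ω, ee (tilt X b n xs ω) * (mass P ν X b n Q ω) ^ (q + 1) ∂P
      = ∫⁻ ω, (ee (tilt X b n xs ω) * (mass P ν X b n Q ω) ^ q) * mass P ν X b n Q ω ∂P := by
        apply lintegral_congr
        intro ω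
        rw [ENNReal.rpow_add_of_nonneg _ _ hq.le zero_le_one, ENNReal.rpow_one, mul_assoc]
    _ = ∫⁻ x in Q, (∫⁻ ω, (ee (tilt X b n xs ω) * (mass P ν X b n Q ω) ^ q) *
        Dn P X b n ω x ∂P) ∂ν := h.tonelli ν b n Q hgm
    _ ≤ ∫⁻ x in Q, ee (CD + G + A0 + κ * Real.log r + C3 + G2) ∂ν :=
        setLIntegral_mono' hQ hmain
    _ = ee (CD + G + A0 + κ * Real.log r + C3 + G2) * ν Q := by rw [setLIntegral_const]
    _ ≤ ee (CD + G + A0 + κ * Real.log r + C3 + G2) * ee (cv + d * (Real.log 2 + Real.log r)) := by
        refine mul_le_mul_right ?_ _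
        have := hl.vol_rpow hr zero_le_one hQ0
        simpa using this
    _ ≤ _ := by
        rw [← ee_add]
        apply ee_mono
        rw [hA0, hκ]
        linarith

end

end Pool.Agent.Helper55.Chaos
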