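import Mathlib
import Pool.Agent.Helper55.Chaos.Rec

set_option autoImplicit false
set_option linter.unusedSectionVars false
set_option linter.unusedVariables false

open MeasureTheory ProbabilityTheory Finset
open scoped ENNReal

namespace Pool.Agent.Helper55.Chaos

section
variable {Ω T : Type*} [MeasurableSpace Ω] {P : Measure Ω} [IsProbabilityMeasure P]
  [MetricSpace T] [SecondCountableTopology T] [MeasurableSpace T] [BorelSpace T] [Nonempty T]
  {X : ℕ → Ω → T → ℝ} {ν : Measure T} [IsFiniteMeasure ν] {d : ℝ} {σ : ℕ → ℝ} {δ C0 cv : ℝ}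

theorem FieldHyp.claim_all (h : FieldHyp P X) (hl : LogHyp P X ν d σ δ C0 cv) {U : Set T}
    (hU : ∀ x ∈ U, ∀ y ∈ U, dist x y ≤ δ) {b : ℝ} (hb : 0 < b) (k : ℕ) :
    ∀ q : ℝ, 0 < q → q ≤ k + 1 → b ^ 2 * q / 2 < d → ∀ N, Claim P X ν d σ U b q N := by
  induction k with
  | zero =>
    intro q hq hq1 _ N
    exact h.claim_base hl hU hb hq (by simpa using hq1) N
  | succ k ih =>
    intro q hq hq1 hqd N
    by_cases h1 : q ≤ 1
    · exact h.claim_base hl hU hb hq h1 N
    · push Not at h1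
      have hq' : 0 < q - 1 := by linarith
      have hqd' : b ^ 2 * (q - 1) / 2 < d := by
        have : 0 < b ^ 2 := by positivity
        nlinarith
      have := h.claim_step hl hU hb hq' (by
        have : q - 1 + 1 = q := by ring
        rw [this]; linarith) N
        (ih (q - 1) hq' (by push_cast at hq1; linarith) hqd' (N + 1))
        (h.tclaim hl hU hb hq' (N + 1))
      simpa using this

/-- Uniform moment bound on a set of small diameter. -/
theorem FieldHyp.moment_small (h : FieldHyp P X) (hl : LogHyp P X ν d σ δ C0 cv) {U : Set T}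
    (hUm : MeasurableSet U)
    (hU : ∀ x ∈ U, ∀ y ∈ U, dist x y ≤ δ) (hU2 : ∀ x ∈ U, ∀ y ∈ U, dist x y ≤ 2)
    {b q : ℝ} (hb : 0 < b) (hq : 0 < q)
    (hqd : b ^ 2 * q / 2 < d) :
    ∃ C : ℝ, ∀ n, ∫⁻ ω, (mass P ν X b n U ω) ^ q ∂P ≤ ee C := by
  rcases Set.eq_empty_or_nonempty U with hUe | ⟨x0, hx0⟩
  · refine ⟨0, fun n => ?_⟩
    have : ∀ ω, (mass P ν X b n U ω) ^ q = 0 := by
      intro ω
      unfold mass
      rw [hUe]
      simp [hq]
    simp [this]
  · obtain ⟨C, hC⟩ := h.claim_all hl hU hb ⌈q⌉₊ q hq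
      ((Nat.le_ceil q).trans (by linarith)) hqd 0
    refine ⟨C, fun n => ?_⟩
    have hσ : 0 ≤ σ n := by rw [← hl.sig0]; exact hl.mono (Nat.zero_le n)
    have := hC n 1 (fun i => x0) x0 U hUm one_pos le_rfl
      (by rw [Real.exp_le_one_iff]; linarith) hx0 (fun i => hx0) subset_rfl
      (fun y hy => by have := hU2 x0 hx0 y hy; linarith) (fun i => i.elim0)
    simpa [tilt, QF, ee_zero] using this

/-- Uniform moment bound on the whole space. -/
theorem FieldHyp.moment_total [CompactSpace T] (h : FieldHyp P X)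
    (hl : LogHyp P X ν d σ δ C0 cv) (hδ : 0 < δ)
    {b q : ℝ} (hb : 0 < b) (hq : 0 < q) (hqd : b ^ 2 * q / 2 < d) :
    ∃ C : ℝ, ∀ n, ∫⁻ ω, (mass P ν X b n Set.univ ω) ^ q ∂P ≤ ee C := by
  classical
  set η : ℝ := min δ 2 / 2 with hη
  have hη0 : 0 < η := by
    have : 0 < min δ 2 := lt_min hδ (by norm_num)
    positivity
  obtain ⟨t, -, htf, htc⟩ := (isCompact_univ (X := T)).finite_cover_balls hη0
  obtain ⟨J, f, hf⟩ : ∃ (J : ℕ) (f : ℕ → T), ∀ x ∈ t, ∃ j < J, f j = x := by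
    obtain ⟨x0⟩ := (inferInstance : Nonempty T)
    refine ⟨htf.toFinset.toList.length, fun j => htf.toFinset.toList.getD j x0, fun x hx => ?_⟩
    have hx' : x ∈ htf.toFinset.toList := by simpa using hx
    obtain ⟨j, hj, hjx⟩ := List.getElem_of_mem hx'
    exact ⟨j, hj, by beta_reduce; rw [List.getD_eq_getElem _ _ hj]; exact hjx⟩
  have hcov : (Set.univ : Set T) ⊆ ⋃ j ∈ range J, Metric.closedBall (f j) η := by
    intro y _
    have := htc (Set.mem_univ y)
    simp only [Set.mem_iUnion] at this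
    obtain ⟨x, hx, hy⟩ := this
    obtain ⟨j, hj, rfl⟩ := hf x hx
    simp only [Set.mem_iUnion, Finset.mem_range]
    exact ⟨j, hj, Metric.ball_subset_closedBall hy⟩
  have hsm : ∀ j, ∃ C : ℝ, ∀ n,
      ∫⁻ ω, (mass P ν X b n (Metric.closedBall (f j) η) ω) ^ q ∂P ≤ ee C := by
    intro j
    have hd : ∀ x ∈ Metric.closedBall (f j) η, ∀ y ∈ Metric.closedBall (f j) η,
        dist x y ≤ min δ 2 := by
      intro x hx y hy
      rw [Metric.mem_closedBall] at hx hy
      have := dist_triangle_right x y (f j)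
      linarith
    exact h.moment_small hl Metric.isClosed_closedBall.measurableSet
      (fun x hx y hy => (hd x hx y hy).trans (min_le_left _ _))
      (fun x hx y hy => (hd x hx y hy).trans (min_le_right _ _)) hb hq hqd
  choose C hC using hsm
  obtain ⟨G, hG0, hG⟩ := pow_sum_le hq one_pos
  have hsum : ∑ j ∈ range J, ee ((j : ℝ) * 1) * ee (C j) ≠ ⊤ := by
    rw [ENNReal.sum_ne_top]
    exact fun j _ => ENNReal.mul_ne_top (ee_ne_top _) (ee_ne_top _)
  have hfin : ee G * ∑ j ∈ range J, ee ((j : ℝ) * 1) * ee (C j) ≠ ⊤ :=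
    ENNReal.mul_ne_top (ee_ne_top _) hsum
  have hbd : ∀ n, ∫⁻ ω, (mass P ν X b n Set.univ ω) ^ q ∂P ≤
      ee G * ∑ j ∈ range J, ee ((j : ℝ) * 1) * ee (C j) := by
    intro n
    have hm : ∀ j, Measurable fun ω =>
        (mass P ν X b n (Metric.closedBall (f j) η) ω) ^ q := fun j =>
      (h.mass_meas ν b n _).pow_const q
    calc ∫⁻ ω, (mass P ν X b n Set.univ ω) ^ q ∂P
        ≤ ∫⁻ ω, ee G * ∑ j ∈ range J, ee ((j : ℝ) * 1) *
          (mass P ν X b n (Metric.closedBall (f j) η) ω) ^ q ∂P := by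
          apply lintegral_mono
          intro ω
          refine (ENNReal.rpow_le_rpow (h.mass_le_sum (ν := ν) b n _ MeasurableSet.univ
            (fun j => Metric.closedBall (f j) η)
            (fun j => Metric.isClosed_closedBall.measurableSet) J hcov ω) hq.le).trans ?_
          exact hG J _
      _ = ee G * ∑ j ∈ range J, ee ((j : ℝ) * 1) *
          ∫⁻ ω, (mass P ν X b n (Metric.closedBall (f j) η) ω) ^ q ∂P := by
          rw [lintegral_const_mul _
            (Finset.measurable_sum _ fun j _ => (hm j).const_mul _), lintegral_finsetSum _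
            (fun j _ => (hm j).const_mul _)]
          congr 1
          exact Finset.sum_congr rfl fun j _ => lintegral_const_mul _ (hm j)
      _ ≤ _ := by
          refine mul_le_mul_right (Finset.sum_le_sum fun j _ => ?_) _
          exact mul_le_mul_right (hC j n) _
  refine ⟨Real.log (ee G * ∑ j ∈ range J, ee ((j : ℝ) * 1) * ee (C j) + 1).toReal, fun n => ?_⟩
  have hfin' : ee G * ∑ j ∈ range J, ee ((j : ℝ) * 1) * ee (C j) + 1 ≠ ⊤ :=
    ENNReal.add_ne_top.2 ⟨hfin, ENNReal.one_ne_top⟩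
  have hpos : 0 < (ee G * ∑ j ∈ range J, ee ((j : ℝ) * 1) * ee (C j) + 1).toReal :=
    ENNReal.toReal_pos (by simp) hfin'
  rw [ee_log hpos, ENNReal.ofReal_toReal hfin']
  exact (hbd n).trans le_self_add

/-- Moments of small sets, upper bound. -/
theorem FieldHyp.small_upper (h : FieldHyp P X) (hl : LogHyp P X ν d σ δ C0 cv)
    {b q : ℝ} (hb : 0 < b) (hq : 0 < q) :
    ∃ C : ℝ, ∀ (n : ℕ) (x0 : T) (Q : Set T), MeasurableSet Q → (∀ y ∈ Q, dist x0 y ≤ δ) →
      (∀ y ∈ Q, dist x0 y ≤ 2 * Real.exp (-σ n)) →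
      ∫⁻ ω, (mass P ν X b n Q ω) ^ q ∂P ≤
        ee (-(d * q - b ^ 2 * q * (q - 1) / 2) * σ n + C) := by
  obtain ⟨C, hC⟩ := h.lemmaT ν 0 b q (C0 + Real.log 2) hb hq
  have hlog2 : 0 < Real.log 2 := Real.log_pos (by norm_num)
  refine ⟨C + q * (cv + d * Real.log 2), ?_⟩
  intro n x0 Q hQ hQδ hQ0
  have h1 := hC n (fun i => x0) x0 Q (σ n) (fun i => 0) hQ
    (fun y => by have := (abs_le.1 (hl.diag n y)).2; linarith)
    (fun y hy => by
      have := hl.K_ge n (hQδ y hy) (Real.exp_pos _) (hQ0 y hy) le_rfl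
      rw [Real.log_exp] at this
      linarith) (fun i => i.elim0)
  have h0 : ∀ ω, ee (tilt X b n (fun _ : Fin 0 => x0) ω) = 1 := by
    intro ω; simp [tilt, ee_zero]
  simp_rw [h0, one_mul] at h1
  refine h1.trans ?_
  have h2 := hl.vol_rpow (Real.exp_pos (-σ n)) hq.le hQ0
  rw [Real.log_exp] at h2
  refine (mul_le_mul_right h2 _).trans ?_
  rw [← ee_add]
  apply ee_mono
  apply le_of_eq
  simp [QF]
  ring

/-- Moments of small sets, lower bound. -/
theorem FieldHyp.small_lower (h : FieldHyp P X) (hl : LogHyp P X ν d σ δ C0 cv)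
    {b p c2 : ℝ} (hb : 0 < b) (hp : 1 < p) :
    ∃ C : ℝ, ∀ (n : ℕ) (x0 : T) (Q : Set T), MeasurableSet Q → (∀ y ∈ Q, dist x0 y ≤ δ) →
      (∀ y ∈ Q, dist x0 y ≤ 2 * Real.exp (-σ n)) → ee (-c2 - d * σ n) ≤ ν Q →
      ee (-(d * p - b ^ 2 * p * (p - 1) / 2) * σ n - C) ≤
        ∫⁻ ω, (mass P ν X b n Q ω) ^ p ∂P := by
  have hlog2 : 0 < Real.log 2 := Real.log_pos (by norm_num)
  have hC0 := hl.C0_nonneg
  obtain ⟨C, hC, hgen⟩ := h.gen_ee 0 b (p * b) (by positivity)
    (by rw [abs_of_pos hb]; nlinarith)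
  obtain ⟨CD, hCD, hD⟩ := h.Dn_bounds b
  -- constants
  set E1 : ℝ := C + CD + b ^ 2 * (p - 1) ^ 2 * C0 / 2 + b ^ 2 * (p - 1) * (C0 + Real.log 2) with hE1
  set E2 : ℝ := C + p ^ 2 * b ^ 2 * C0 / 2 with hE2
  refine ⟨p * (c2 + E1) + (p - 1) * E2, ?_⟩
  intro n x0 Q hQ hQδ hQ0 hνQ
  set H : Ω → ℝ≥0∞ := fun ω => ee (((p - 1) * b) * S X n ω x0) with hH
  have hHm : Measurable H := measurable_ee ((h.S_meas n x0).const_mul _)
  have hp0 : 0 < p := by linarith
  have hp1 : 0 < p - 1 := by linarith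
  -- lower bound for the mixed moment
  have hlow : ee (-c2 - d * σ n + (b ^ 2 * (p ^ 2 - 1) * σ n / 2 - E1)) ≤
      ∫⁻ ω, H ω * mass P ν X b n Q ω ∂P := by
    rw [h.tonelli ν b n Q hHm]
    have hin : ∀ y ∈ Q, ee (b ^ 2 * (p ^ 2 - 1) * σ n / 2 - E1) ≤
        ∫⁻ ω, H ω * Dn P X b n ω y ∂P := by
      intro y hy
      have h1 := (hgen (fun i => x0) x0 y n n ((p - 1) * b) b le_rfl
        (by rw [abs_of_pos (by positivity)]; nlinarith)
        (by rw [abs_of_pos hb]; nlinarith)).2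
      have hm : Measurable fun ω => ee (tilt X b n (fun _ : Fin 0 => x0) ω +
          ((p - 1) * b) * S X n ω x0 + b * S X n ω y) :=
        measurable_ee (((h.tilt_meas b n _).add ((h.S_meas n x0).const_mul _)).add
          ((h.S_meas n y).const_mul _))
      calc ee (b ^ 2 * (p ^ 2 - 1) * σ n / 2 - E1)
          ≤ ee ((b ^ 2 * QF P X n (fun _ : Fin 0 => x0) + ((p - 1) * b) ^ 2 * K P X n x0 x0 +
            b ^ 2 * K P X n y y +
          2 * ((p - 1) * b) * b * ∑ i : Fin 0, K P X n x0 x0 +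
            2 * b * b * ∑ i : Fin 0, K P X n x0 y +
          2 * ((p - 1) * b) * b * K P X n x0 y) / 2 - C) *
            ee (-(b ^ 2 * K P X n y y / 2) - CD) := by
            rw [← ee_add]
            apply ee_mono
            have h2 := (abs_le.1 (hl.diag n x0)).1
            have h3 := hl.K_ge n (hQδ y hy) (Real.exp_pos _) (hQ0 y hy) le_rfl
            rw [Real.log_exp] at h3
            have h4 : b ^ 2 * (p - 1) ^ 2 * (σ n - C0) ≤ b ^ 2 * (p - 1) ^ 2 * K P X n x0 x0 :=
              mul_le_mul_of_nonneg_left (by linarith) (by positivity)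
            have h5 : b ^ 2 * (p - 1) * (σ n - Real.log 2 - C0) ≤
                b ^ 2 * (p - 1) * K P X n x0 y :=
              mul_le_mul_of_nonneg_left (by linarith) (by positivity)
            simp only [QF, Finset.univ_eq_empty, Finset.sum_empty, mul_zero, add_zero]
            rw [hE1]
            nlinarith
        _ ≤ (∫⁻ ω, ee (tilt X b n (fun _ : Fin 0 => x0) ω +
            ((p - 1) * b) * S X n ω x0 + b * S X n ω y) ∂P) *
            ee (-(b ^ 2 * K P X n y y / 2) - CD) := mul_le_mul_left h1 _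
        _ = ∫⁻ ω, ee (tilt X b n (fun _ : Fin 0 => x0) ω +
            ((p - 1) * b) * S X n ω x0 + b * S X n ω y) *
            ee (-(b ^ 2 * K P X n y y / 2) - CD) ∂P := (lintegral_mul_const _ hm).symm
        _ ≤ _ := by
            apply lintegral_mono
            intro ω
            simp only [tilt, Finset.univ_eq_empty, Finset.sum_empty, zero_add, hH]
            rw [ee_add (((p - 1) * b) * S X n ω x0), mul_assoc]
            refine mul_le_mul_right (le_trans (le_of_eq ?_) (hD n ω y).2) _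
            rw [← ee_add]; congr 1; ring
    calc ee (-c2 - d * σ n + (b ^ 2 * (p ^ 2 - 1) * σ n / 2 - E1))
        = ee (b ^ 2 * (p ^ 2 - 1) * σ n / 2 - E1) * ee (-c2 - d * σ n) := by
          rw [← ee_add]; congr 1; ring
      _ ≤ ee (b ^ 2 * (p ^ 2 - 1) * σ n / 2 - E1) * ν Q := mul_le_mul_right hνQ _
      _ = ∫⁻ x in Q, ee (b ^ 2 * (p ^ 2 - 1) * σ n / 2 - E1) ∂ν := by rw [setLIntegral_const]
      _ ≤ _ := setLIntegral_mono' hQ hin
  -- upper bound for the test function
  have hup : ∫⁻ ω, H ω ^ (p / (p - 1)) ∂P ≤ ee (p ^ 2 * b ^ 2 * σ n / 2 + E2) := by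
    have e1 : ∀ ω, H ω ^ (p / (p - 1)) = ee (tilt X b n (fun _ : Fin 0 => x0) ω +
        (p * b) * S X n ω x0 + 0 * S X n ω x0) := by
      intro ω
      simp only [hH, ee_rpow, tilt, Finset.univ_eq_empty, Finset.sum_empty, zero_add]
      congr 1
      field_simp
      ring
    simp_rw [e1]
    refine (hgen (fun i => x0) x0 x0 n n (p * b) 0 le_rfl
      (by rw [abs_of_pos (by positivity)]) (by simp; positivity)).1.trans (ee_mono ?_)
    have h2 := (abs_le.1 (hl.diag n x0)).2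
    have h4 : (p * b) ^ 2 * K P X n x0 x0 ≤ (p * b) ^ 2 * (σ n + C0) :=
      mul_le_mul_of_nonneg_left (by linarith) (by positivity)
    simp only [QF, Finset.univ_eq_empty, Finset.sum_empty, mul_zero, add_zero, zero_mul, zero_add]
    rw [hE2]
    nlinarith
  -- Hoelder
  have hconj : (p / (p - 1)).HolderConjugate p := by
    rw [Real.holderConjugate_iff]
    constructor
    · rw [one_lt_div hp1]; linarith
    · field_simp
      ring
  have hhol := ENNReal.lintegral_mul_le_Lp_mul_Lq P hconj hHm.aemeasurable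
    (h.mass_meas ν b n Q).aemeasurable
  have hchain : ee (-c2 - d * σ n + (b ^ 2 * (p ^ 2 - 1) * σ n / 2 - E1)) ≤
      (ee (p ^ 2 * b ^ 2 * σ n / 2 + E2)) ^ (1 / (p / (p - 1))) *
        (∫⁻ ω, (mass P ν X b n Q ω) ^ p ∂P) ^ (1 / p) := by
    refine hlow.trans (hhol.trans ?_)
    refine mul_le_mul_left (ENNReal.rpow_le_rpow hup ?_) _
    positivity
  have hpow := ENNReal.rpow_le_rpow hchain hp0.le
  rw [ENNReal.mul_rpow_of_nonneg _ _ hp0.le, ← ENNReal.rpow_mul, ← ENNReal.rpow_mul, ee_rpow,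
    ee_rpow] at hpow
  have e4 : 1 / p * p = 1 := by field_simp
  have e5 : 1 / (p / (p - 1)) * p = p - 1 := by field_simp
  rw [e4, e5, ENNReal.rpow_one] at hpow
  calc ee (-(d * p - b ^ 2 * p * (p - 1) / 2) * σ n - (p * (c2 + E1) + (p - 1) * E2))
      = ee (-((p - 1) * (p ^ 2 * b ^ 2 * σ n / 2 + E2))) *
        ee (p * (-c2 - d * σ n + (b ^ 2 * (p ^ 2 - 1) * σ n / 2 - E1))) := by
        rw [← ee_add]; congr 1; ring
    _ ≤ ee (-((p - 1) * (p ^ 2 * b ^ 2 * σ n / 2 + E2))) *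
        (ee ((p - 1) * (p ^ 2 * b ^ 2 * σ n / 2 + E2)) *
          ∫⁻ ω, (mass P ν X b n Q ω) ^ p ∂P) := mul_le_mul_right hpow _
    _ = _ := by rw [← mul_assoc, ← ee_add, neg_add_cancel, ee_zero, one_mul]

end

end Pool.Agent.Helper55.Chaos
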