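import Mathlib
import Pool.Agent.Helper55.Chaos.Moments
import Pool.Agent.Helper55.Chaos.Mart

set_option autoImplicit false
set_option linter.unusedSectionVars false
set_option linter.unusedVariables false

open MeasureTheory ProbabilityTheory Finset Filter
open scoped ENNReal Topology

namespace Pool.Agent.Helper55.Chaos

lemma tendsto_ee_atBot {f : ℕ → ℝ} (hf : Tendsto f atTop atBot) :
    Tendsto (fun n => ee (f n)) atTop (𝓝 0) := by
  unfold ee
  have h1 : Tendsto (fun n => Real.exp (f n)) atTop (𝓝 0) := Real.tendsto_exp_atBot.comp hf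
  have h2 := (ENNReal.continuous_ofReal.tendsto 0).comp h1
  rw [ENNReal.ofReal_zero] at h2
  exact h2

lemma tendsto_ee_atTop {f : ℕ → ℝ} (hf : Tendsto f atTop atTop) :
    Tendsto (fun n => ee (f n)) atTop (𝓝 ⊤) := by
  unfold ee
  have h1 : Tendsto (fun n => Real.exp (f n)) atTop atTop := Real.tendsto_exp_atTop.comp hf
  exact ENNReal.tendsto_ofReal_atTop.comp h1

section
variable {Ω T : Type*} [mΩ : MeasurableSpace Ω] {P : Measure Ω} [IsProbabilityMeasure P]
  [MetricSpace T] [SecondCountableTopology T] [MeasurableSpace T] [BorelSpace T] [Nonempty T]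
  {X : ℕ → Ω → T → ℝ} {ν : Measure T} [IsFiniteMeasure ν] {d : ℝ} {σ : ℕ → ℝ} {δ C0 cv : ℝ}

/-- Testing the martingale limit against bounded functions of the past. -/
theorem FieldHyp.limit_test (h : FieldHyp P X) {b q C : ℝ} (hq : 1 < q)
    (hC : ∀ n, ∫⁻ ω, (mass P ν X b n Set.univ ω) ^ q ∂P ≤ ee C)
    {M : Ω → ℝ≥0∞} (hMm : Measurable M)
    (hM : ∀ᵐ ω ∂P, Tendsto (fun n => mass P ν X b n Set.univ ω) atTop (𝓝 (M ω)))
    (n : ℕ) {H : Ω → ℝ≥0∞} (hH : Measurable[filt h n] H) {B : ℝ≥0∞} (hBt : B ≠ ⊤)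
    (hB : ∀ ω, H ω ≤ B) :
    ∫⁻ ω, H ω * mass P ν X b n Set.univ ω ∂P ≤ ∫⁻ ω, H ω * M ω ∂P := by
  have hHm : Measurable H := hH.mono ((filt h).le n) le_rfl
  have hq0 : 0 < q - 1 := by linarith
  have key : ∀ k : ℕ, ∫⁻ ω, H ω * mass P ν X b n Set.univ ω ∂P ≤
      ∫⁻ ω, H ω * M ω ∂P + B * ee (-(q - 1) * k + C) := by
    intro k
    have h1 : ∀ n', n ≤ n' → ∫⁻ ω, H ω * mass P ν X b n Set.univ ω ∂P ≤
        ∫⁻ ω, H ω * min (mass P ν X b n' Set.univ ω) (ee k) ∂P + B * ee (-(q - 1) * k + C) := by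
      intro n' hn'
      rw [← h.mart (ν := ν) b hn' Set.univ hH]
      have hmm := h.mass_meas ν b n' Set.univ
      have hpt : ∀ ω, H ω * mass P ν X b n' Set.univ ω ≤
          H ω * min (mass P ν X b n' Set.univ ω) (ee k) +
            B * ee (-(q - 1) * k) * (mass P ν X b n' Set.univ ω) ^ q := by
        intro ω
        set m := mass P ν X b n' Set.univ ω with hm
        rcases le_total m (ee k) with h2 | h2
        · rw [min_eq_left h2]; exact le_self_add
        · have h3 : m ≤ ee (-(q - 1) * k) * m ^ q := by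
            by_cases hmt : m = ⊤
            · rw [hmt, ENNReal.top_rpow_of_pos (by linarith), ENNReal.mul_top (ee_ne_zero _)]
            · have hm0 : m ≠ 0 := fun h0 => by
                rw [h0] at h2
                exact ee_ne_zero _ (le_zero_iff.1 h2)
              have h4 : m ^ q = m ^ (q - 1) * m := by
                rw [← ENNReal.rpow_one m, ← ENNReal.rpow_mul, ← ENNReal.rpow_mul,
                  ← ENNReal.rpow_add _ _ hm0 hmt]
                congr 1
                ring
              have h5 : ee ((q - 1) * k) ≤ m ^ (q - 1) := by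
                rw [← ee_rpow]
                exact ENNReal.rpow_le_rpow h2 hq0.le
              calc m = ee (-(q - 1) * k) * (ee ((q - 1) * k) * m) := by
                    rw [← mul_assoc, ← ee_add]
                    have : -(q - 1) * (k : ℝ) + (q - 1) * k = 0 := by ring
                    rw [this, ee_zero, one_mul]
                _ ≤ ee (-(q - 1) * k) * (m ^ (q - 1) * m) := by gcongr
                _ = _ := by rw [h4]
          calc H ω * m ≤ B * (ee (-(q - 1) * k) * m ^ q) := mul_le_mul' (hB ω) h3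
            _ = B * ee (-(q - 1) * k) * m ^ q := by rw [mul_assoc]
            _ ≤ _ := le_add_self
      calc ∫⁻ ω, H ω * mass P ν X b n' Set.univ ω ∂P
          ≤ ∫⁻ ω, (H ω * min (mass P ν X b n' Set.univ ω) (ee k) +
            B * ee (-(q - 1) * k) * (mass P ν X b n' Set.univ ω) ^ q) ∂P := lintegral_mono hpt
        _ = ∫⁻ ω, H ω * min (mass P ν X b n' Set.univ ω) (ee k) ∂P +
            B * ee (-(q - 1) * k) * ∫⁻ ω, (mass P ν X b n' Set.univ ω) ^ q ∂P := by
            have hmeas1 : Measurable fun ω => H ω * min (mass P ν X b n' Set.univ ω) (ee k) :=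
              hHm.mul (hmm.min measurable_const)
            rw [lintegral_add_left hmeas1, lintegral_const_mul _ (hmm.pow_const q)]
        _ ≤ ∫⁻ ω, H ω * min (mass P ν X b n' Set.univ ω) (ee k) ∂P +
            B * ee (-(q - 1) * k) * ee C := by gcongr; exact hC n'
        _ = _ := by rw [mul_assoc, ← ee_add]
    have hlim : Tendsto (fun n' => ∫⁻ ω, H ω * min (mass P ν X b n' Set.univ ω) (ee k) ∂P)
        atTop (𝓝 (∫⁻ ω, H ω * min (M ω) (ee k) ∂P)) := by
      apply tendsto_lintegral_of_dominated_convergence (fun _ => B * ee k)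
      · intro n'
        exact hHm.mul ((h.mass_meas ν b n' Set.univ).min measurable_const)
      · intro n'
        exact Filter.Eventually.of_forall fun ω => mul_le_mul' (hB ω) (min_le_right _ _)
      · rw [lintegral_const]
        exact ENNReal.mul_ne_top (ENNReal.mul_ne_top hBt (ee_ne_top _)) (measure_ne_top _ _)
      · filter_upwards [hM] with ω hω
        apply ENNReal.Tendsto.const_mul
        · exact hω.min tendsto_const_nhds
        · right
          exact ne_top_of_le_ne_top hBt (hB ω)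
    have h2 : ∫⁻ ω, H ω * mass P ν X b n Set.univ ω ∂P ≤
        ∫⁻ ω, H ω * min (M ω) (ee k) ∂P + B * ee (-(q - 1) * k + C) := by
      apply ge_of_tendsto (hlim.add tendsto_const_nhds)
      filter_upwards [eventually_ge_atTop n] with n' hn'
      exact h1 n' hn'
    refine h2.trans ?_
    gcongr
    exact min_le_left _ _
  have hlim2 : Tendsto (fun k : ℕ => ∫⁻ ω, H ω * M ω ∂P + B * ee (-(q - 1) * k + C)) atTop
      (𝓝 (∫⁻ ω, H ω * M ω ∂P + B * 0)) := by
    apply Tendsto.add tendsto_const_nhds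
    apply ENNReal.Tendsto.const_mul
    · apply tendsto_ee_atBot
      apply tendsto_atBot_add_const_right
      apply Tendsto.const_mul_atTop_of_neg (by linarith)
      exact tendsto_natCast_atTop_atTop
    · exact Or.inr hBt
  rw [mul_zero, add_zero] at hlim2
  exact ge_of_tendsto' hlim2 key

/-- Conditional Jensen inequality on events of the past. -/
theorem FieldHyp.jensen (h : FieldHyp P X) {b q C : ℝ} (hq : 1 < q)
    (hC : ∀ n, ∫⁻ ω, (mass P ν X b n Set.univ ω) ^ q ∂P ≤ ee C)
    {M : Ω → ℝ≥0∞} (hMm : Measurable M)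
    (hM : ∀ᵐ ω ∂P, Tendsto (fun n => mass P ν X b n Set.univ ω) atTop (𝓝 (M ω)))
    (n : ℕ) {p : ℝ} (hp : 1 < p) {A : Set Ω} (hA : MeasurableSet[filt h n] A) :
    ∫⁻ ω in A, (mass P ν X b n Set.univ ω) ^ p ∂P ≤ ∫⁻ ω in A, (M ω) ^ p ∂P := by
  have hA' : MeasurableSet A := (filt h).le n A hA
  have hp0 : 0 < p := by linarith
  have hp1 : 0 < p - 1 := by linarith
  have hmm := h.mass_meas ν b n Set.univ
  have hmf : Measurable[filt h n] (mass P ν X b n Set.univ) := h.mass_filt b n Set.univ
  have hconj : (p / (p - 1)).HolderConjugate p := by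
    rw [Real.holderConjugate_iff]
    constructor
    · rw [one_lt_div hp1]; linarith
    · field_simp
      ring
  have key : ∀ k : ℕ, ∫⁻ ω in A, (min (mass P ν X b n Set.univ ω) (ee k)) ^ p ∂P ≤
      ∫⁻ ω in A, (M ω) ^ p ∂P := by
    intro k
    set x := ∫⁻ ω in A, (min (mass P ν X b n Set.univ ω) (ee k)) ^ p ∂P with hx
    set y := ∫⁻ ω in A, (M ω) ^ p ∂P with hy
    set H : Ω → ℝ≥0∞ := A.indicator
      (fun ω => (min (mass P ν X b n Set.univ ω) (ee k)) ^ (p - 1)) with hH
    have hHf : Measurable[filt h n] H := by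
      rw [hH]
      exact Measurable.indicator ((Measurable.min hmf measurable_const).pow_const _) hA
    have hHm : Measurable H := hHf.mono ((filt h).le n) le_rfl
    have hHB : ∀ ω, H ω ≤ (ee k) ^ (p - 1) := by
      intro ω
      rw [hH]
      by_cases hω : ω ∈ A
      · rw [Set.indicator_of_mem hω]
        exact ENNReal.rpow_le_rpow (min_le_right _ _) hp1.le
      · rw [Set.indicator_of_notMem hω]; exact zero_le
    have h1 : x ≤ ∫⁻ ω, H ω * mass P ν X b n Set.univ ω ∂P := by
      rw [hx, ← lintegral_indicator hA']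
      apply lintegral_mono
      intro ω
      by_cases hω : ω ∈ A
      · simp only [hH, Set.indicator_of_mem hω]
        set m := mass P ν X b n Set.univ ω
        have e : (min m (ee k)) ^ p = (min m (ee k)) ^ (p - 1) * min m (ee k) := by
          nth_rewrite 3 [← ENNReal.rpow_one (min m (ee k))]
          rw [← ENNReal.rpow_add_of_nonneg _ _ hp1.le zero_le_one]
          congr 1; ring
        rw [e]
        gcongr
        exact min_le_left _ _
      · simp only [Set.indicator_of_notMem hω]; exact zero_le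
    have h2 : ∫⁻ ω, H ω * mass P ν X b n Set.univ ω ∂P ≤ ∫⁻ ω, H ω * M ω ∂P :=
      h.limit_test hq hC hMm hM n hHf
        (ENNReal.rpow_ne_top_of_nonneg hp1.le (ee_ne_top _)) hHB
    have h3 : ∫⁻ ω, H ω * M ω ∂P = ∫⁻ ω in A, H ω * M ω ∂P := by
      rw [← lintegral_indicator hA']
      apply lintegral_congr
      intro ω
      by_cases hω : ω ∈ A
      · simp [Set.indicator_of_mem hω]
      · simp [hH, Set.indicator_of_notMem hω]
    have h4 : ∫⁻ ω in A, H ω * M ω ∂P ≤ (∫⁻ ω in A, H ω ^ (p / (p - 1)) ∂P) ^ (1 / (p / (p - 1))) *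
        (∫⁻ ω in A, (M ω) ^ p ∂P) ^ (1 / p) :=
      ENNReal.lintegral_mul_le_Lp_mul_Lq (P.restrict A) hconj hHm.aemeasurable hMm.aemeasurable
    have h5 : ∫⁻ ω in A, H ω ^ (p / (p - 1)) ∂P = x := by
      rw [hx]
      apply setLIntegral_congr_fun hA'
      intro ω hω
      simp only [hH, Set.indicator_of_mem hω]
      rw [← ENNReal.rpow_mul]
      congr 1
      field_simp
    have h6 : x ≤ x ^ (1 / (p / (p - 1))) * y ^ (1 / p) := by
      calc x ≤ _ := h1
        _ ≤ _ := h2
        _ = _ := h3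
        _ ≤ _ := h4
        _ = _ := by rw [h5]
    have hxt : x ≠ ⊤ := by
      rw [hx]
      have : ∫⁻ ω in A, (min (mass P ν X b n Set.univ ω) (ee k)) ^ p ∂P ≤
          ∫⁻ ω in A, (ee k) ^ p ∂P :=
        lintegral_mono fun ω => ENNReal.rpow_le_rpow (min_le_right _ _) hp0.le
      refine ne_top_of_le_ne_top ?_ this
      rw [lintegral_const]
      exact ENNReal.mul_ne_top (ENNReal.rpow_ne_top_of_nonneg hp0.le (ee_ne_top _))
        (measure_ne_top _ _)
    by_cases hx0 : x = 0
    · rw [hx0]; exact zero_le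
    · have e1 : 1 / (p / (p - 1)) = 1 - 1 / p := by field_simp
      rw [e1] at h6
      have h7 : x ^ (1 / p) ≤ y ^ (1 / p) := by
        have h8 : x = x ^ (1 - 1 / p) * x ^ (1 / p) := by
          rw [← ENNReal.rpow_add _ _ hx0 hxt]
          simp
        have h9 : x ^ (1 - 1 / p) * x ^ (1 / p) ≤ x ^ (1 - 1 / p) * y ^ (1 / p) := by
          rw [← h8]; exact h6
        have h10 : x ^ (1 - 1 / p) ≠ 0 := by
          rw [Ne, ENNReal.rpow_eq_zero_iff]
          push Not
          exact ⟨fun h => absurd h hx0, fun h => absurd h hxt⟩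
        have h11 : x ^ (1 - 1 / p) ≠ ⊤ := by
          rw [Ne, ENNReal.rpow_eq_top_iff]
          push Not
          exact ⟨fun h => absurd h hx0, fun h => absurd h hxt⟩
        exact (ENNReal.mul_le_mul_iff_right h10 h11).1 h9
      have := ENNReal.rpow_le_rpow h7 hp0.le
      rw [← ENNReal.rpow_mul, ← ENNReal.rpow_mul] at this
      have e2 : 1 / p * p = 1 := by field_simp
      rwa [e2, ENNReal.rpow_one, ENNReal.rpow_one] at this
  have hfat : ∫⁻ ω in A, (mass P ν X b n Set.univ ω) ^ p ∂P ≤
      liminf (fun k : ℕ => ∫⁻ ω in A, (min (mass P ν X b n Set.univ ω) (ee k)) ^ p ∂P) atTop := by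
    refine le_trans (le_of_eq ?_) (lintegral_liminf_le fun k =>
      (hmm.min measurable_const).pow_const p)
    apply lintegral_congr
    intro ω
    have : Tendsto (fun k : ℕ => (min (mass P ν X b n Set.univ ω) (ee k)) ^ p) atTop
        (𝓝 ((min (mass P ν X b n Set.univ ω) ⊤) ^ p)) := by
      have h1 : Tendsto (fun k : ℕ => min (mass P ν X b n Set.univ ω) (ee k)) atTop
          (𝓝 (min (mass P ν X b n Set.univ ω) ⊤)) :=
        tendsto_const_nhds.min (tendsto_ee_atTop tendsto_natCast_atTop_atTop)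
      exact (ENNReal.continuous_rpow_const.tendsto _).comp h1
    rw [this.liminf_eq, min_eq_left le_top]
  refine hfat.trans ?_
  exact liminf_le_of_le (by isBoundedDefault) fun a ha => by
    obtain ⟨k, hk⟩ := ha.exists
    exact hk.trans (key k)

/-- Partitions of the space into many small pieces of comparable mass. -/
def HasParts (ν : Measure T) (d c2 : ℝ) : Prop :=
  ∀ ρ : ℝ, 0 < ρ → ρ ≤ 1 → ∃ (N : ℕ) (Q : ℕ → Set T) (z : ℕ → T),
    (∀ i, MeasurableSet (Q i)) ∧ (∀ i < N, ∀ j < N, i ≠ j → Disjoint (Q i) (Q j)) ∧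
    (∀ i < N, ∀ y ∈ Q i, dist (z i) y ≤ 2 * ρ) ∧
    (∀ i < N, ee (-c2 + d * Real.log ρ) ≤ ν (Q i)) ∧ ee (-c2 - d * Real.log ρ) ≤ (N : ℝ≥0∞)

lemma sum_rpow_le_rpow_sum (s : Finset ℕ) (a : ℕ → ℝ≥0∞) {p : ℝ} (hp : 1 ≤ p) :
    ∑ i ∈ s, a i ^ p ≤ (∑ i ∈ s, a i) ^ p := by
  classical
  induction s using Finset.induction_on with
  | empty => simp [show (0 : ℝ) < p by linarith]
  | @insert i s hi ih =>
    rw [Finset.sum_insert hi, Finset.sum_insert hi]
    exact (add_le_add le_rfl ih).trans (ENNReal.add_rpow_le_rpow_add _ _ hp)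

/-- Moments of order `p ≥ 2 d / b²` are infinite. -/
theorem FieldHyp.infinite_moment [CompactSpace T] (h : FieldHyp P X)
    (hl : LogHyp P X ν d σ δ C0 cv) (hδ : 0 < δ)
    {b p c2 : ℝ} (hb : 0 < b) (hsub : b ^ 2 / 2 < d) (hp : d ≤ b ^ 2 * p / 2)
    (hparts : HasParts ν d c2)
    {M : Ω → ℝ≥0∞} (hMm : Measurable M)
    (hM : ∀ᵐ ω ∂P, Tendsto (fun n => mass P ν X b n Set.univ ω) atTop (𝓝 (M ω))) :
    ∫⁻ ω, (M ω) ^ p ∂P = ⊤ := by
  classical
  by_contra hfin
  have hb2 : 0 < b ^ 2 := by positivity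
  -- exponents
  set q : ℝ := (1 + 2 * d / b ^ 2) / 2 with hq
  have hpc : 1 < 2 * d / b ^ 2 := by rw [one_lt_div hb2]; linarith
  have hq1 : 1 < q := by rw [hq]; linarith
  have hq0 : 0 < q := by linarith
  have hqd : b ^ 2 * q / 2 < d := by
    have h1 : q < 2 * d / b ^ 2 := by rw [hq]; linarith
    rw [lt_div_iff₀ hb2] at h1
    linarith
  have hp1 : 1 < p := by
    have : 2 * d / b ^ 2 ≤ p := by rw [div_le_iff₀ hb2]; linarith
    linarith
  have hp0 : 0 < p := by linarith
  obtain ⟨Cq, hCq⟩ := h.moment_total hl hδ hb hq0 hqd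
  obtain ⟨CU, hCU⟩ := h.small_upper hl hb hq0
  obtain ⟨CL, hCL⟩ := h.small_lower hl (c2 := c2) hb hp1
  have hσ0 : ∀ n, 0 ≤ σ n := fun n => by rw [← hl.sig0]; exact hl.mono (Nat.zero_le n)
  have hρ : ∀ n, Real.exp (-σ n) ≤ 1 := fun n => by
    rw [Real.exp_le_one_iff]; linarith [hσ0 n]
  choose N Q z hQm hQd hQz hQν hN using fun n => hparts (Real.exp (-σ n)) (Real.exp_pos _) (hρ n)
  simp only [Real.log_exp] at hQν hN
  -- total volume
  obtain ⟨cU, hcU⟩ : ∃ cU : ℝ, ν Set.univ ≤ ee cU := by
    refine ⟨Real.log (ν Set.univ + 1).toReal, ?_⟩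
    have hfin' : ν Set.univ + 1 ≠ ⊤ :=
      ENNReal.add_ne_top.2 ⟨measure_ne_top _ _, ENNReal.one_ne_top⟩
    rw [ee_log (ENNReal.toReal_pos (by simp) hfin'), ENNReal.ofReal_toReal hfin']
    exact le_self_add
  have hNup : ∀ n, (N n : ℝ≥0∞) ≤ ee (cU + c2 + d * σ n) := by
    intro n
    have h1 : (N n : ℝ≥0∞) * ee (-c2 + d * -σ n) ≤ ee cU := by
      calc (N n : ℝ≥0∞) * ee (-c2 + d * -σ n)
          = ∑ i ∈ range (N n), ee (-c2 + d * -σ n) := by simp
        _ ≤ ∑ i ∈ range (N n), ν (Q n i) :=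
            Finset.sum_le_sum fun i hi => hQν n i (Finset.mem_range.1 hi)
        _ = ν (⋃ i ∈ range (N n), Q n i) := by
            rw [measure_biUnion_finset]
            · intro i hi j hj hij
              simp only [Finset.coe_range, Set.mem_Iio] at hi hj
              exact hQd n i hi j hj hij
            · exact fun i _ => hQm n i
        _ ≤ ν Set.univ := measure_mono (Set.subset_univ _)
        _ ≤ ee cU := hcU
    calc (N n : ℝ≥0∞) = ((N n : ℝ≥0∞) * ee (-c2 + d * -σ n)) * ee (c2 + d * σ n) := by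
          rw [mul_assoc, ← ee_add]
          have : -c2 + d * -σ n + (c2 + d * σ n) = 0 := by ring
          rw [this, ee_zero, mul_one]
      _ ≤ ee cU * ee (c2 + d * σ n) := by gcongr
      _ = _ := by rw [← ee_add]; congr 1; ring
  -- large levels
  have hlarge : ∀ᶠ n in atTop, 2 * Real.exp (-σ n) ≤ δ := by
    have h1 : Tendsto (fun n => 2 * Real.exp (-σ n)) atTop (𝓝 (2 * 0)) :=
      (Real.tendsto_exp_atBot.comp (tendsto_neg_atTop_atBot.comp hl.top)).const_mul 2
    rw [mul_zero] at h1
    exact (h1.eventually_lt_const hδ).mono fun n hn => hn.le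
  -- the sums of `q`-th powers
  set Sq : ℕ → Ω → ℝ≥0∞ := fun n ω => ∑ i ∈ range (N n), (mass P ν X b n (Q n i) ω) ^ q with hSq
  have hSqf : ∀ n, Measurable[filt h n] (Sq n) := fun n =>
    Finset.measurable_sum _ fun i _ => (h.mass_filt b n (Q n i)).pow_const q
  have hSqm : ∀ n, Measurable (Sq n) := fun n => (hSqf n).mono ((filt h).le n) le_rfl
  set κ : ℝ := (q - 1) * (d - b ^ 2 * q / 2) with hκ
  have hκ0 : 0 < κ := mul_pos (by linarith) (by linarith)
  have hESq : ∀ᶠ n in atTop, ∫⁻ ω, Sq n ω ∂P ≤ ee (cU + c2 + CU - κ * σ n) := by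
    filter_upwards [hlarge] with n hn
    calc ∫⁻ ω, Sq n ω ∂P = ∑ i ∈ range (N n), ∫⁻ ω, (mass P ν X b n (Q n i) ω) ^ q ∂P := by
          rw [hSq]
          exact lintegral_finsetSum _ fun i _ => (h.mass_meas ν b n (Q n i)).pow_const q
      _ ≤ ∑ i ∈ range (N n), ee (-(d * q - b ^ 2 * q * (q - 1) / 2) * σ n + CU) :=
          Finset.sum_le_sum fun i hi => hCU n (z n i) (Q n i) (hQm n i)
            (fun y hy => (hQz n i (Finset.mem_range.1 hi) y hy).trans hn)
            (hQz n i (Finset.mem_range.1 hi))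
      _ = (N n : ℝ≥0∞) * ee (-(d * q - b ^ 2 * q * (q - 1) / 2) * σ n + CU) := by simp
      _ ≤ ee (cU + c2 + d * σ n) * ee (-(d * q - b ^ 2 * q * (q - 1) / 2) * σ n + CU) := by
          gcongr; exact hNup n
      _ = _ := by
          rw [← ee_add]
          congr 1
          rw [hκ]
          ring
  have hESq0 : Tendsto (fun n => ∫⁻ ω, Sq n ω ∂P) atTop (𝓝 0) := by
    apply tendsto_of_tendsto_of_tendsto_of_le_of_le' tendsto_const_nhds _
      (Filter.Eventually.of_forall fun n => zero_le) hESq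
    apply tendsto_ee_atBot
    have : Tendsto (fun n => -κ * σ n) atTop atBot :=
      Tendsto.const_mul_atTop_of_neg (by linarith) hl.top
    have h2 := tendsto_atBot_add_const_left atTop (cU + c2 + CU) this
    refine h2.congr fun n => ?_
    ring
  -- the main inequality
  have hmain : ∀ k : ℕ, ee (-c2 - CL) ≤ ee (-(k * (p - 1)) + cU) := by
    intro k
    set A : ℕ → Set Ω := fun n => {ω | (ee (-(k : ℝ))) ^ q < Sq n ω} with hA
    have hAf : ∀ n, MeasurableSet[filt h n] (A n) := fun n =>
      (hSqf n) measurableSet_Ioi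
    have hAm : ∀ n, MeasurableSet (A n) := fun n => (filt h).le n _ (hAf n)
    have hPA : Tendsto (P ∘ A) atTop (𝓝 0) := by
      have h1 : ∀ n, P (A n) ≤ (∫⁻ ω, Sq n ω ∂P) / (ee (-(k : ℝ))) ^ q := by
        intro n
        calc P (A n) ≤ P {ω | (ee (-(k : ℝ))) ^ q ≤ Sq n ω} :=
              measure_mono fun ω (hω : (ee (-(k : ℝ))) ^ q < Sq n ω) => hω.le
          _ ≤ _ := meas_ge_le_lintegral_div (hSqm n).aemeasurable
            (by rw [ee_rpow]; exact ee_ne_zero _) (by rw [ee_rpow]; exact ee_ne_top _)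
      have h2 : Tendsto (fun n => (∫⁻ ω, Sq n ω ∂P) / (ee (-(k : ℝ))) ^ q) atTop (𝓝 0) := by
        have h3 := ENNReal.Tendsto.div_const (b := (ee (-(k : ℝ))) ^ q) hESq0
          (Or.inr (by rw [ee_rpow]; exact ee_ne_zero _))
        rwa [ENNReal.zero_div] at h3
      exact tendsto_of_tendsto_of_tendsto_of_le_of_le tendsto_const_nhds h2
        (fun n => zero_le) h1
    have hsmall := tendsto_setLIntegral_zero hfin hPA
    have hstep : ∀ᶠ n in atTop, ee (-c2 - CL) ≤
        ee (-(k * (p - 1)) + cU) + ∫⁻ ω in A n, (M ω) ^ p ∂P := by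
      filter_upwards [hlarge] with n hn
      have hlow : ee (-c2 - CL) ≤
          ∑ i ∈ range (N n), ∫⁻ ω, (mass P ν X b n (Q n i) ω) ^ p ∂P := by
        calc ee (-c2 - CL) ≤ ee (-c2 - d * -σ n) *
              ee (-(d * p - b ^ 2 * p * (p - 1) / 2) * σ n - CL) := by
              rw [← ee_add]
              apply ee_mono
              have h5 : 0 ≤ (p - 1) * (b ^ 2 * p / 2 - d) * σ n :=
                mul_nonneg (mul_nonneg (by linarith) (by linarith)) (hσ0 n)
              nlinarith
          _ ≤ (N n : ℝ≥0∞) * ee (-(d * p - b ^ 2 * p * (p - 1) / 2) * σ n - CL) := by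
              gcongr; exact hN n
          _ = ∑ i ∈ range (N n), ee (-(d * p - b ^ 2 * p * (p - 1) / 2) * σ n - CL) := by simp
          _ ≤ _ := Finset.sum_le_sum fun i hi => hCL n (z n i) (Q n i) (hQm n i)
              (fun y hy => (hQz n i (Finset.mem_range.1 hi) y hy).trans hn)
              (hQz n i (Finset.mem_range.1 hi)) (by
                have := hQν n i (Finset.mem_range.1 hi)
                refine le_trans (ee_mono (le_of_eq ?_)) this
                ring)
      have hpt : ∀ ω, ∑ i ∈ range (N n), (mass P ν X b n (Q n i) ω) ^ p ≤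
          (ee (-(k : ℝ))) ^ (p - 1) * mass P ν X b n Set.univ ω +
            (A n).indicator (fun ω => (mass P ν X b n Set.univ ω) ^ p) ω := by
        intro ω
        have hsum : ∑ i ∈ range (N n), mass P ν X b n (Q n i) ω ≤ mass P ν X b n Set.univ ω := by
          unfold mass
          have e : ∀ s : Set T, MeasurableSet s → ∫⁻ x in s, Dn P X b n ω x ∂ν =
              (ν.withDensity fun x => Dn P X b n ω x) s := fun s hs =>
            (withDensity_apply _ hs).symm
          rw [e _ MeasurableSet.univ]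
          have e2 : ∑ i ∈ range (N n), ∫⁻ x in Q n i, Dn P X b n ω x ∂ν =
              (ν.withDensity fun x => Dn P X b n ω x) (⋃ i ∈ range (N n), Q n i) := by
            rw [measure_biUnion_finset]
            · exact Finset.sum_congr rfl fun i _ => e _ (hQm n i)
            · intro i hi j hj hij
              simp only [Finset.coe_range, Set.mem_Iio] at hi hj
              exact hQd n i hi j hj hij
            · exact fun i _ => hQm n i
          rw [e2]
          exact measure_mono (Set.subset_univ _)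
        by_cases hω : ω ∈ A n
        · rw [Set.indicator_of_mem hω]
          refine le_trans ?_ le_add_self
          exact (sum_rpow_le_rpow_sum _ _ hp1.le).trans (ENNReal.rpow_le_rpow hsum hp0.le)
        · rw [Set.indicator_of_notMem hω, add_zero]
          have hω' : Sq n ω ≤ (ee (-(k : ℝ))) ^ q := not_lt.1 hω
          have hle : ∀ i ∈ range (N n), mass P ν X b n (Q n i) ω ≤ ee (-(k : ℝ)) := by
            intro i hi
            have h1 : (mass P ν X b n (Q n i) ω) ^ q ≤ (ee (-(k : ℝ))) ^ q :=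
              (Finset.single_le_sum (f := fun i => (mass P ν X b n (Q n i) ω) ^ q)
                (fun j _ => zero_le) hi).trans hω'
            exact (ENNReal.rpow_le_rpow_iff hq0).1 h1
          calc ∑ i ∈ range (N n), (mass P ν X b n (Q n i) ω) ^ p
              ≤ ∑ i ∈ range (N n), (ee (-(k : ℝ))) ^ (p - 1) * mass P ν X b n (Q n i) ω := by
                refine Finset.sum_le_sum fun i hi => ?_
                have e : (mass P ν X b n (Q n i) ω) ^ p =
                    (mass P ν X b n (Q n i) ω) ^ (p - 1) * mass P ν X b n (Q n i) ω := by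
                  nth_rewrite 3 [← ENNReal.rpow_one (mass P ν X b n (Q n i) ω)]
                  rw [← ENNReal.rpow_add_of_nonneg _ _ (by linarith) zero_le_one]
                  congr 1; ring
                rw [e]
                gcongr
                exact hle i hi
            _ = (ee (-(k : ℝ))) ^ (p - 1) * ∑ i ∈ range (N n), mass P ν X b n (Q n i) ω := by
                rw [Finset.mul_sum]
            _ ≤ _ := by gcongr
      have hmu := h.mass_meas ν b n Set.univ
      calc ee (-c2 - CL) ≤ ∑ i ∈ range (N n), ∫⁻ ω, (mass P ν X b n (Q n i) ω) ^ p ∂P := hlow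
        _ = ∫⁻ ω, ∑ i ∈ range (N n), (mass P ν X b n (Q n i) ω) ^ p ∂P :=
            (lintegral_finsetSum _ fun i _ => (h.mass_meas ν b n (Q n i)).pow_const p).symm
        _ ≤ ∫⁻ ω, ((ee (-(k : ℝ))) ^ (p - 1) * mass P ν X b n Set.univ ω +
            (A n).indicator (fun ω => (mass P ν X b n Set.univ ω) ^ p) ω) ∂P :=
            lintegral_mono hpt
        _ = (ee (-(k : ℝ))) ^ (p - 1) * ν Set.univ +
            ∫⁻ ω in A n, (mass P ν X b n Set.univ ω) ^ p ∂P := by
            rw [lintegral_add_left (hmu.const_mul _), lintegral_const_mul _ hmu, h.mean,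
              lintegral_indicator (hAm n)]
        _ ≤ (ee (-(k : ℝ))) ^ (p - 1) * ee cU + ∫⁻ ω in A n, (M ω) ^ p ∂P := by
            refine add_le_add (mul_le_mul' le_rfl hcU) ?_
            exact h.jensen hq1 hCq hMm hM n hp1 (hAf n)
        _ = _ := by
            rw [ee_rpow, ← ee_add]
            congr 2
            ring
    have hlim : Tendsto (fun n => ee (-(k * (p - 1)) + cU) + ∫⁻ ω in A n, (M ω) ^ p ∂P) atTop
        (𝓝 (ee (-(k * (p - 1)) + cU) + 0)) := tendsto_const_nhds.add hsmall
    rw [add_zero] at hlim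
    exact ge_of_tendsto hlim hstep
  -- contradiction
  have hall : ∀ k : ℕ, (k : ℝ) * (p - 1) ≤ cU + c2 + CL := by
    intro k
    have := hmain k
    rw [ee_le_iff] at this
    linarith
  obtain ⟨k, hk⟩ := exists_nat_gt ((cU + c2 + CL) / (p - 1))
  have h1 := hall k
  rw [div_lt_iff₀ (by linarith)] at hk
  linarith

end

end Pool.Agent.Helper55.Chaos
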