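import Mathlib
import Pool.Agent.Helper55.Chaos.Final

set_option autoImplicit false
set_option linter.unusedSectionVars false
set_option linter.unusedVariables false

open MeasureTheory ProbabilityTheory Finset Filter
open scoped ENNReal Topology

namespace Pool.Agent.Helper55.Chaos

/-- The unit cube in Euclidean space. -/
def cubeS (d : ℕ) : Set (EuclideanSpace ℝ (Fin d)) := {x | ∀ i, x i ∈ Set.Icc (0 : ℝ) 1}

lemma cubeS_eq (d : ℕ) : cubeS d = ⋂ i : Fin d, (fun x : EuclideanSpace ℝ (Fin d) => x i) ⁻¹'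
    Set.Icc (0 : ℝ) 1 := by
  ext x; simp [cubeS]

lemma continuous_coord {d : ℕ} (i : Fin d) :
    Continuous fun x : EuclideanSpace ℝ (Fin d) => x i := by
  fun_prop

lemma isClosed_cubeS (d : ℕ) : IsClosed (cubeS d) := by
  rw [cubeS_eq]
  exact isClosed_iInter fun i => isClosed_Icc.preimage (continuous_coord i)

lemma isCompact_cubeS (d : ℕ) : IsCompact (cubeS d) := by
  refine Metric.isCompact_of_isClosed_isBounded (isClosed_cubeS d) ?_
  refine (Metric.isBounded_iff_subset_closedBall 0).2 ⟨Real.sqrt d, ?_⟩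
  intro x hx
  rw [Metric.mem_closedBall, EuclideanSpace.dist_eq]
  apply Real.sqrt_le_sqrt
  calc ∑ i, dist (x i) ((0 : EuclideanSpace ℝ (Fin d)) i) ^ 2 ≤ ∑ i : Fin d, (1 : ℝ) := by
        apply Finset.sum_le_sum
        intro i _
        have h := hx i
        rw [Real.dist_eq]
        simp only [PiLp.zero_apply, sub_zero, sq_abs]
        nlinarith [h.1, h.2]
    _ = d := by simp

instance (d : ℕ) : CompactSpace (cubeS d) := isCompact_iff_compactSpace.1 (isCompact_cubeS d)

lemma measurableSet_cubeS (d : ℕ) : MeasurableSet (cubeS d) := (isClosed_cubeS d).measurableSet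

/-- Lebesgue measure on the unit cube. -/
noncomputable def volS (d : ℕ) : Measure (cubeS d) :=
  (volume : Measure (EuclideanSpace ℝ (Fin d))).comap Subtype.val

lemma vol_sub (d : ℕ) (s : Set (EuclideanSpace ℝ (Fin d))) :
    volS d ((fun x => x.1) ⁻¹' s) = volume (cubeS d ∩ s) := by
  have h := comap_subtype_coe_apply (measurableSet_cubeS d)
    (volume : Measure (EuclideanSpace ℝ (Fin d))) ((fun x : cubeS d => x.1) ⁻¹' s)
  unfold volS
  rw [h]
  congr 1
  exact Subtype.image_preimage_coe _ _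

instance (d : ℕ) : IsFiniteMeasure (volS d) := by
  refine ⟨?_⟩
  have h := vol_sub d Set.univ
  rw [Set.preimage_univ, Set.inter_univ] at h
  rw [h]
  exact (isCompact_cubeS d).measure_lt_top

lemma cubeS_hvol (d : ℕ) : ∃ cv : ℝ, ∀ (x : cubeS d) (r : ℝ), 0 < r →
    (volS d) (Metric.closedBall x r) ≤ ee (cv + (d : ℝ) * Real.log r) := by
  set V := (volume : Measure (EuclideanSpace ℝ (Fin d))) (Metric.ball 0 1) with hV
  have hVt : V ≠ ⊤ := measure_ball_lt_top.ne
  refine ⟨Real.log (V.toReal + 1), fun x r hr => ?_⟩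
  have e1 : (Metric.closedBall x r : Set (cubeS d)) =
      (fun y : cubeS d => y.1) ⁻¹' (Metric.closedBall x.1 r) := by
    ext y; rfl
  rw [e1, vol_sub]
  calc volume (cubeS d ∩ Metric.closedBall x.1 r) ≤ volume (Metric.closedBall x.1 r) :=
        measure_mono Set.inter_subset_right
    _ = ENNReal.ofReal (r ^ d) * V := by
        rw [Measure.addHaar_closedBall _ _ hr.le, finrank_euclideanSpace, Fintype.card_fin]
    _ = ENNReal.ofReal (r ^ d * V.toReal) := by
        rw [ENNReal.ofReal_mul (by positivity), ENNReal.ofReal_toReal hVt]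
    _ ≤ ee (Real.log (V.toReal + 1) + (d : ℝ) * Real.log r) := by
        unfold ee
        apply ENNReal.ofReal_le_ofReal
        have h0 : 0 ≤ V.toReal := ENNReal.toReal_nonneg
        rw [Real.exp_add, Real.exp_log (by linarith), mul_comm (d : ℝ), Real.exp_mul,
          Real.exp_log hr, Real.rpow_natCast]
        have : 0 ≤ r ^ d := by positivity
        nlinarith

/-- The half open cell of side `1 / L` with lower corner `k / L`. -/
def cell (d L : ℕ) (k : Fin d → Fin L) : Set (EuclideanSpace ℝ (Fin d)) :=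
  {x | ∀ i, x i ∈ Set.Ico ((k i : ℝ) / L) (((k i : ℝ) + 1) / L)}

lemma cell_eq (d L : ℕ) (k : Fin d → Fin L) : cell d L k =
    (fun x : EuclideanSpace ℝ (Fin d) => x.ofLp) ⁻¹'
      (Set.univ.pi fun i => Set.Ico ((k i : ℝ) / L) (((k i : ℝ) + 1) / L)) := by
  ext x; simp [cell]

lemma measurableSet_cell (d L : ℕ) (k : Fin d → Fin L) : MeasurableSet (cell d L k) := by
  have : cell d L k = ⋂ i : Fin d, (fun x : EuclideanSpace ℝ (Fin d) => x i) ⁻¹'
      Set.Ico ((k i : ℝ) / L) (((k i : ℝ) + 1) / L) := by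
    ext x; simp [cell]
  rw [this]
  exact MeasurableSet.iInter fun i =>
    (continuous_coord i).measurable measurableSet_Ico

lemma volume_cell (d L : ℕ) (k : Fin d → Fin L) :
    volume (cell d L k) = ENNReal.ofReal (1 / L) ^ d := by
  rw [cell_eq]
  have h := (PiLp.volume_preserving_ofLp (Fin d)).measure_preimage
    (s := Set.univ.pi fun i => Set.Ico ((k i : ℝ) / L) (((k i : ℝ) + 1) / L))
    ((MeasurableSet.univ_pi fun i => measurableSet_Ico).nullMeasurableSet)
  refine h.trans ?_
  rw [Real.volume_pi_Ico]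
  have : ∀ i : Fin d, ENNReal.ofReal (((k i : ℝ) + 1) / L - (k i : ℝ) / L) =
      ENNReal.ofReal (1 / L) := by
    intro i; congr 1; ring
  simp only [this]
  simp

lemma cell_subset {d L : ℕ} (k : Fin d → Fin L) : cell d L k ⊆ cubeS d := by
  intro x hx i
  have h := hx i
  have hk : (k i : ℕ) < L := (k i).2
  have hL : 0 < (L : ℝ) := by
    have : 0 < L := lt_of_le_of_lt (Nat.zero_le _) hk
    exact_mod_cast this
  refine ⟨le_trans (by positivity) h.1, h.2.le.trans ?_⟩
  rw [div_le_one hL]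
  exact_mod_cast hk

lemma cell_disjoint {d L : ℕ} {k k' : Fin d → Fin L} (h : k ≠ k') :
    Disjoint (cell d L k) (cell d L k') := by
  rw [Set.disjoint_left]
  intro x hx hx'
  apply h
  funext i
  have h1 := hx i
  have h2 := hx' i
  have hk : (k i : ℕ) < L := (k i).2
  have hL : 0 < (L : ℝ) := by
    have : 0 < L := lt_of_le_of_lt (Nat.zero_le _) hk
    exact_mod_cast this
  have a1 : (k i : ℝ) ≤ x i * L := by
    have := h1.1; rwa [div_le_iff₀ hL] at this
  have a2 : x i * L < (k i : ℝ) + 1 := by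
    have := h1.2; rwa [lt_div_iff₀ hL] at this
  have b1 : (k' i : ℝ) ≤ x i * L := by
    have := h2.1; rwa [div_le_iff₀ hL] at this
  have b2 : x i * L < (k' i : ℝ) + 1 := by
    have := h2.2; rwa [lt_div_iff₀ hL] at this
  apply Fin.ext
  have c1 : ((k i : ℕ) : ℝ) < ((k' i : ℕ) : ℝ) + 1 := lt_of_le_of_lt a1 b2
  have c2 : ((k' i : ℕ) : ℝ) < ((k i : ℕ) : ℝ) + 1 := lt_of_le_of_lt b1 a2
  have c3 : (k i : ℕ) < (k' i : ℕ) + 1 := by exact_mod_cast c1
  have c4 : (k' i : ℕ) < (k i : ℕ) + 1 := by exact_mod_cast c2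
  omega

/-- The lower corner of a cell. -/
noncomputable def corner (d L : ℕ) (k : Fin d → Fin L) : EuclideanSpace ℝ (Fin d) :=
  WithLp.toLp 2 fun i => (k i : ℝ) / L

lemma corner_mem {d L : ℕ} (k : Fin d → Fin L) : corner d L k ∈ cubeS d := by
  intro i
  have hk : (k i : ℕ) < L := (k i).2
  have hL : 0 < (L : ℝ) := by
    have : 0 < L := lt_of_le_of_lt (Nat.zero_le _) hk
    exact_mod_cast this
  have e : corner d L k i = (k i : ℝ) / L := rfl
  rw [e]
  refine ⟨by positivity, ?_⟩
  rw [div_le_one hL]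
  exact_mod_cast hk.le

lemma corner_dist {d L : ℕ} (k : Fin d → Fin L) {y : EuclideanSpace ℝ (Fin d)}
    (hy : y ∈ cell d L k) : dist (corner d L k) y ≤ Real.sqrt d / L := by
  rw [EuclideanSpace.dist_eq]
  have h1 : ∑ i, dist (corner d L k i) (y i) ^ 2 ≤ ∑ i : Fin d, (1 / (L : ℝ)) ^ 2 := by
    apply Finset.sum_le_sum
    intro i _
    have hk : (k i : ℕ) < L := (k i).2
    have hL : 0 < (L : ℝ) := by
      have : 0 < L := lt_of_le_of_lt (Nat.zero_le _) hk
      exact_mod_cast this
    have e : corner d L k i = (k i : ℝ) / L := rfl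
    rw [e, Real.dist_eq, sq_abs]
    have h := hy i
    have a1 : 0 ≤ y i - (k i : ℝ) / L := by linarith [h.1]
    have a2 : y i - (k i : ℝ) / L ≤ 1 / L := by
      have := h.2
      have e2 : ((k i : ℝ) + 1) / L = (k i : ℝ) / L + 1 / L := by ring
      rw [e2] at this
      linarith
    nlinarith
  refine (Real.sqrt_le_sqrt h1).trans ?_
  rw [Finset.sum_const, Finset.card_univ, Fintype.card_fin, nsmul_eq_mul,
    Real.sqrt_mul (by positivity), Real.sqrt_sq (by positivity)]
  rw [mul_one_div]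

lemma cubeS_hasParts {d : ℕ} (hd : 1 ≤ d) :
    HasParts (volS d) (d : ℝ) ((d : ℝ) * Real.log (Real.sqrt d + 1)) := by
  classical
  intro ρ hρ hρ1
  have hd' : (1 : ℝ) ≤ d := by exact_mod_cast hd
  have hs1 : 1 ≤ Real.sqrt d := by
    rw [show (1 : ℝ) = Real.sqrt 1 by simp]
    exact Real.sqrt_le_sqrt hd'
  set L : ℕ := ⌈Real.sqrt d / ρ⌉₊ with hL
  have hL1 : Real.sqrt d / ρ ≤ L := Nat.le_ceil _
  have hL2 : (L : ℝ) < Real.sqrt d / ρ + 1 := Nat.ceil_lt_add_one (by positivity)
  have hLpos : 0 < (L : ℝ) := lt_of_lt_of_le (by positivity) hL1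
  have hL3 : (L : ℝ) ≤ (Real.sqrt d + 1) / ρ := by
    have : (1 : ℝ) ≤ 1 / ρ := by rw [le_div_iff₀ hρ]; linarith
    rw [add_div]; linarith
  have hL4 : 1 / ρ ≤ L := by
    refine le_trans ?_ hL1
    exact div_le_div_of_nonneg_right hs1 hρ.le
  have hLd : Real.sqrt d / L ≤ ρ := by
    rw [div_le_iff₀ hLpos]
    rw [div_le_iff₀ hρ] at hL1
    linarith
  let e : Fin (L ^ d) ≃ (Fin d → Fin L) := finFunctionFinEquiv.symm
  have hLN : 0 < L := by exact_mod_cast hLpos
  let g : ℕ → (Fin d → Fin L) := fun i => if h : i < L ^ d then e ⟨i, h⟩ else fun _ => ⟨0, hLN⟩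
  have hg : ∀ i (hi : i < L ^ d), g i = e ⟨i, hi⟩ := fun i hi => dif_pos hi
  refine ⟨L ^ d, fun i => (fun x : cubeS d => x.1) ⁻¹' cell d L (g i),
    fun i => ⟨corner d L (g i), corner_mem _⟩, ?_, ?_, ?_, ?_, ?_⟩
  · intro i
    exact measurable_subtype_coe (measurableSet_cell d L _)
  · intro i hi j hj hij
    apply Disjoint.preimage
    apply cell_disjoint
    rw [hg i hi, hg j hj]
    intro h
    have := e.injective h
    apply hij
    simpa using this
  · intro i hi y hy
    have : dist (corner d L (g i)) y.1 ≤ Real.sqrt d / L := corner_dist _ hy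
    have h2 : dist (⟨corner d L (g i), corner_mem _⟩ : cubeS d) y =
      dist (corner d L (g i)) y.1 := rfl
    rw [h2]
    linarith
  · intro i hi
    rw [vol_sub, Set.inter_eq_self_of_subset_right (cell_subset _), volume_cell]
    unfold ee
    rw [← ENNReal.ofReal_pow (by positivity)]
    apply ENNReal.ofReal_le_ofReal
    have e1 : Real.exp (-((d : ℝ) * Real.log (Real.sqrt d + 1)) + (d : ℝ) * Real.log ρ) =
        (ρ / (Real.sqrt d + 1)) ^ d := by
      rw [show -((d : ℝ) * Real.log (Real.sqrt d + 1)) + (d : ℝ) * Real.log ρ =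
        (Real.log ρ - Real.log (Real.sqrt d + 1)) * d by ring,
        ← Real.log_div hρ.ne' (by positivity), Real.exp_mul, Real.exp_log (by positivity),
        Real.rpow_natCast]
    rw [e1]
    apply pow_le_pow_left₀ (by positivity)
    rw [div_le_div_iff₀ (by positivity) hLpos, one_mul]
    rw [le_div_iff₀ hρ] at hL3
    linarith
  · have e1 : Real.exp (-((d : ℝ) * Real.log (Real.sqrt d + 1)) - (d : ℝ) * Real.log ρ) =
        (1 / (ρ * (Real.sqrt d + 1))) ^ d := by
      rw [show -((d : ℝ) * Real.log (Real.sqrt d + 1)) - (d : ℝ) * Real.log ρ =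
        (-(Real.log ρ + Real.log (Real.sqrt d + 1))) * d by ring,
        ← Real.log_mul hρ.ne' (by positivity), ← Real.log_inv, Real.exp_mul,
        Real.exp_log (by positivity), Real.rpow_natCast, one_div]
    unfold ee
    rw [e1]
    have e2 : ((L ^ d : ℕ) : ℝ≥0∞) = ENNReal.ofReal ((L : ℝ) ^ d) := by
      rw [ENNReal.ofReal_pow (by positivity), ENNReal.ofReal_natCast]
      push_cast
      rfl
    rw [e2]
    apply ENNReal.ofReal_le_ofReal
    apply pow_le_pow_left₀ (by positivity)
    refine le_trans ?_ hL4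
    apply one_div_le_one_div_of_le hρ
    nlinarith

end Pool.Agent.Helper55.Chaos
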